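import Mathlib

/-! Rational transductions, rational cones.  The fixed countable supply of letters is `ℕ`. -/

namespace Pool.Agent.Lib.MP_ead56d_lc

/-- `L` is a language over some finite alphabet `X ⊆ ℕ`. -/
def HasFiniteAlphabet (L : Language ℕ) : Prop :=
  ∃ X : Finset ℕ, ∀ w ∈ L, ∀ a ∈ w, a ∈ X

/-- `K = τ(L)` for some rational transduction `τ`, in Nivat's form `K = g(h⁻¹(L) ∩ R)`:
`Z` is a finite alphabet, `R ⊆ Z*` is a regular language, and `h`, `g` are morphisms from `Z*` to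
words over `ℕ`, given by their values on letters. -/
def IsRationalImage (L K : Language ℕ) : Prop :=
  ∃ (Z : Type) (_ : Fintype Z) (R : Language Z) (h g : Z → List ℕ), R.IsRegular ∧
    K = {v | ∃ z ∈ R, z.flatMap h ∈ L ∧ z.flatMap g = v}

/-- A rational cone: a family of languages (each over a finite alphabet) that is closed under
rational transductions. -/
def IsRationalCone (C : Set (Language ℕ)) : Prop :=
  (∀ L ∈ C, HasFiniteAlphabet L) ∧ ∀ L ∈ C, ∀ K, IsRationalImage L K → K ∈ C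

/-- `T(L)`, the least rational cone containing `L` (the intersection of all of them). -/
def coneGeneratedBy (L : Language ℕ) : Set (Language ℕ) :=
  {K | ∀ C : Set (Language ℕ), IsRationalCone C → L ∈ C → K ∈ C}

/-- `C` is closed under product. -/
def IsProductClosed (C : Set (Language ℕ)) : Prop :=
  ∀ L₁ ∈ C, ∀ L₂ ∈ C, L₁ * L₂ ∈ C

/-- `⟨L⟩ = {aⁿ f bⁿ : n ≥ 1, f ∈ L}` -/
def translate (a b : ℕ) (L : Language ℕ) : Language ℕ :=
  {w | ∃ n : ℕ, 1 ≤ n ∧ ∃ f ∈ L, w = List.replicate n a ++ f ++ List.replicate n b}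

/-- `C` is translatable: `L ∈ C` implies `⟨L⟩ ∈ C`, where `a ≠ b` are letters that do not occur
in `L`. -/
def IsTranslatable (C : Set (Language ℕ)) : Prop :=
  ∀ L ∈ C, ∀ a b : ℕ, a ≠ b → (∀ w ∈ L, a ∉ w ∧ b ∉ w) → translate a b L ∈ C

/-- `{x # xᴿ : x ∈ {0, 1}*}` with `# = 2`. -/
def markedPalindromes : Language ℕ :=
  {w | ∃ x : List ℕ, (∀ a ∈ x, a = 0 ∨ a = 1) ∧ w = x ++ [2] ++ x.reverse}

end Pool.Agent.Lib.MP_ead56d_lc
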