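import Mathlib

/-! The language `L` over the alphabet `{a, x, y, c, d} = {0, 1, 2, 3, 4}` and the exactness of the
level shift. -/

namespace Pool.Agent.Lib.MP_ead56d_lc

open List

/-- opening token `a dⁿ cⁱ x` (with `a = 0`, `x = 1`, `c = 3`, `d = 4`) -/
def opn (n i : ℕ) : List ℕ := 0 :: (replicate n 4 ++ (replicate i 3 ++ [1]))

/-- closing token `y cⁱ dⁿ` (with `y = 2`, `c = 3`, `d = 4`) -/
def cls (n i : ℕ) : List ℕ := 2 :: (replicate i 3 ++ replicate n 4)

/-- The language `L`. -/
inductive InL : List ℕ → Prop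
  | nil : InL []
  | node (n i : ℕ) {s s' : List ℕ} : InL s → InL s' → InL (opn n i ++ (s ++ (cls n i ++ s')))
  | garb (n i m j : ℕ) {s V : List ℕ} : InL s → j ≤ i → (∀ t ∈ V, t < 5) →
      InL (opn n i ++ (s ++ (opn m j ++ V)))

theorem opn_lt {n i : ℕ} : ∀ t ∈ opn n i, t < 5 := by
  intro t ht
  simp only [opn, mem_cons, mem_append, mem_replicate, not_mem_nil, or_false] at ht
  omega

theorem cls_lt {n i : ℕ} : ∀ t ∈ cls n i, t < 5 := by
  intro t ht
  simp only [cls, mem_cons, mem_append, mem_replicate] at ht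
  omega

theorem InL.lt {u : List ℕ} (h : InL u) : ∀ t ∈ u, t < 5 := by
  induction h with
  | nil => simp
  | node n i _ _ ih ih' =>
    intro t ht
    simp only [mem_append] at ht
    rcases ht with h | h | h | h
    · exact opn_lt t h
    · exact ih t h
    · exact cls_lt t h
    · exact ih' t h
  | garb n i m j _ _ hV ih =>
    intro t ht
    simp only [mem_append] at ht
    rcases ht with h | h | h | h
    · exact opn_lt t h
    · exact ih t h
    · exact opn_lt t h
    · exact hV t h

theorem InL.append {u v : List ℕ} (hu : InL u) (hv : InL v) : InL (u ++ v) := by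
  induction hu with
  | nil => simpa using hv
  | node n i h _ _ ih =>
    have := InL.node n i h ih
    simpa [List.append_assoc] using this
  | garb n i m j h hj hV _ =>
    have := InL.garb n i m j (V := _ ++ v) h hj (by
      intro t ht
      rcases mem_append.mp ht with h | h
      · exact hV t h
      · exact hv.lt t h)
    simpa [List.append_assoc] using this

theorem InL.start {u : List ℕ} (hu : InL u) : u = [] ∨ ∃ r, u = 0 :: r := by
  cases hu with
  | nil => left; rfl
  | node n i _ _ => right; exact ⟨_, rfl⟩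
  | garb n i m j _ _ _ => right; exact ⟨_, rfl⟩

theorem rep_inj_aux {t : ℕ} {n n' : ℕ} {r r' : List ℕ} (hr : ∀ w, r ≠ t :: w)
    (hr' : ∀ w, r' ≠ t :: w) (h : replicate n t ++ r = replicate n' t ++ r') :
    n = n' ∧ r = r' := by
  induction n generalizing n' with
  | zero =>
    cases n' with
    | zero => simpa using h
    | succ n' => exact absurd h (by simpa [replicate_succ] using hr _)
  | succ n ih =>
    cases n' with
    | zero => exact absurd h.symm (by simpa [replicate_succ] using hr' _)
    | succ n' =>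
      simp only [replicate_succ, cons_append, cons.injEq, true_and] at h
      obtain ⟨h1, h2⟩ := ih h
      exact ⟨by omega, h2⟩

theorem opn_inj {n i n' i' : ℕ} {r r' : List ℕ} (h : opn n i ++ r = opn n' i' ++ r') :
    n = n' ∧ i = i' ∧ r = r' := by
  simp only [opn, cons_append, append_assoc, cons.injEq, true_and, nil_append] at h
  obtain ⟨h1, h2⟩ := rep_inj_aux (by intro w; cases i <;> simp [replicate_succ])
    (by intro w; cases i' <;> simp [replicate_succ]) h
  obtain ⟨h3, h4⟩ := rep_inj_aux (by intro w; simp) (by intro w; simp) h2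
  exact ⟨h1, h3, by simpa using h4⟩

/-- letterwise level shift -/
def phiL (t : ℕ) : List ℕ := if t = 1 then [3, 1] else if t = 2 then [2, 3] else [t]

/-- level shift morphism: `x ↦ c x`, `y ↦ y c`, other letters are fixed -/
def phi (f : List ℕ) : List ℕ := f.flatMap phiL

@[simp] theorem phi_nil : phi [] = [] := rfl

@[simp] theorem phi_append (f g : List ℕ) : phi (f ++ g) = phi f ++ phi g := by
  simp [phi]

theorem phi_cons (t : ℕ) (f : List ℕ) : phi (t :: f) = phiL t ++ phi f := by
  simp [phi]

theorem phi_rep3 (n : ℕ) : phi (replicate n 3) = replicate n 3 := by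
  induction n with
  | zero => rfl
  | succ n ih => rw [replicate_succ, phi_cons, ih]; rfl

theorem phi_rep4 (n : ℕ) : phi (replicate n 4) = replicate n 4 := by
  induction n with
  | zero => rfl
  | succ n ih => rw [replicate_succ, phi_cons, ih]; rfl

theorem phi_opn (n i : ℕ) : phi (opn n i) = opn n (i + 1) := by
  rw [opn, phi_cons, phi_append, phi_append, phi_rep4, phi_rep3]
  simp [opn, phiL, phi, replicate_succ']

theorem phi_cls (n i : ℕ) : phi (cls n i) = cls n (i + 1) := by
  rw [cls, phi_cons, phi_append, phi_rep4, phi_rep3]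
  simp [cls, phiL, replicate_succ]

theorem phiL_lt {t u : ℕ} (ht : t < 5) (hu : u ∈ phiL t) : u < 5 := by
  unfold phiL at hu
  split_ifs at hu <;> simp at hu <;> omega

theorem phi_lt {f : List ℕ} (hf : ∀ t ∈ f, t < 5) : ∀ t ∈ phi f, t < 5 := by
  intro t ht
  obtain ⟨s, hs, hst⟩ := mem_flatMap.mp ht
  exact phiL_lt (hf s hs) hst

theorem lt_of_phi_lt {f : List ℕ} (hf : ∀ t ∈ phi f, t < 5) : ∀ t ∈ f, t < 5 := by
  intro t ht
  by_cases h1 : t = 1
  · omega
  by_cases h2 : t = 2
  · omega
  exact hf t (mem_flatMap.mpr ⟨t, ht, by simp [phiL, h1, h2]⟩)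

theorem InL.phi {f : List ℕ} (hf : InL f) : InL (phi f) := by
  induction hf with
  | nil => exact InL.nil
  | node n i _ _ ih ih' =>
    rw [phi_append, phi_append, phi_append, phi_opn, phi_cls]
    exact InL.node n (i + 1) ih ih'
  | garb n i m j _ hj hV ih =>
    rw [phi_append, phi_append, phi_append, phi_opn, phi_opn]
    exact InL.garb n (i + 1) m (j + 1) ih (by omega) (phi_lt hV)

theorem phiL_cases (t : ℕ) : (t = 1 ∧ phiL t = [3, 1]) ∨ (t = 2 ∧ phiL t = [2, 3]) ∨
    (t ≠ 1 ∧ t ≠ 2 ∧ phiL t = [t]) := by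
  unfold phiL
  by_cases h1 : t = 1
  · simp [h1]
  · by_cases h2 : t = 2
    · simp [h2]
    · simp [h1, h2]

/-- cutting `phi f` at a boundary -/
theorem phi_cut {f u v : List ℕ} (h : phi f = u ++ v) (hv : v = [] ∨ ∃ t r, v = t :: r ∧ t ≠ 1 ∧ t ≠ 3) :
    ∃ f₁ f₂, f = f₁ ++ f₂ ∧ phi f₁ = u ∧ phi f₂ = v := by
  induction f generalizing u with
  | nil =>
    rw [phi_nil] at h
    obtain ⟨rfl, rfl⟩ := append_eq_nil_iff.mp h.symm
    exact ⟨[], [], rfl, rfl, rfl⟩
  | cons t f ih =>
    rcases u with _ | ⟨z, u⟩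
    · exact ⟨[], t :: f, rfl, rfl, by simpa using h⟩
    rw [phi_cons] at h
    rcases phiL_cases t with ⟨ht, h'⟩ | ⟨ht, h'⟩ | ⟨ht, ht', h'⟩
    · rw [h'] at h
      simp only [cons_append, nil_append, cons.injEq] at h
      obtain ⟨rfl, h⟩ := h
      rcases u with _ | ⟨z', u⟩
      · simp only [nil_append] at h
        rcases hv with rfl | ⟨t', r, rfl, h1, h3⟩
        · simp at h
        · simp only [cons.injEq] at h; exact absurd h.1.symm h1
      · simp only [cons_append, cons.injEq] at h
        obtain ⟨rfl, h⟩ := h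
        obtain ⟨f₁, f₂, rfl, h1, h2⟩ := ih h
        refine ⟨t :: f₁, f₂, rfl, ?_, h2⟩
        rw [phi_cons, h', h1]; rfl
    · rw [h'] at h
      simp only [cons_append, nil_append, cons.injEq] at h
      obtain ⟨rfl, h⟩ := h
      rcases u with _ | ⟨z', u⟩
      · simp only [nil_append] at h
        rcases hv with rfl | ⟨t', r, rfl, h1, h3⟩
        · simp at h
        · simp only [cons.injEq] at h; exact absurd h.1.symm h3
      · simp only [cons_append, cons.injEq] at h
        obtain ⟨rfl, h⟩ := h
        obtain ⟨f₁, f₂, rfl, h1, h2⟩ := ih h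
        refine ⟨t :: f₁, f₂, rfl, ?_, h2⟩
        rw [phi_cons, h', h1]; rfl
    · rw [h'] at h
      simp only [cons_append, nil_append, cons.injEq] at h
      obtain ⟨rfl, h⟩ := h
      obtain ⟨f₁, f₂, rfl, h1, h2⟩ := ih h
      refine ⟨t :: f₁, f₂, rfl, ?_, h2⟩
      rw [phi_cons, h', h1]; rfl

/-- occurrences of the letter `x` in `phi g` -/
theorem phi_X {g u v : List ℕ} (h : phi g = u ++ 1 :: v) :
    ∃ g₁ g₂, g = g₁ ++ 1 :: g₂ ∧ u = phi g₁ ++ [3] ∧ v = phi g₂ := by
  induction g generalizing u with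
  | nil => simp at h
  | cons t g ih =>
    rw [phi_cons] at h
    rcases phiL_cases t with ⟨ht, h'⟩ | ⟨ht, h'⟩ | ⟨ht, ht', h'⟩
    · rw [h'] at h
      rcases u with _ | ⟨z, _ | ⟨z', u⟩⟩
      · simp at h
      · simp only [cons_append, nil_append, cons.injEq] at h
        obtain ⟨rfl, _, rfl⟩ := h
        exact ⟨[], g, by simp [ht], by simp, rfl⟩
      · simp only [cons_append, nil_append, cons.injEq] at h
        obtain ⟨rfl, rfl, h⟩ := h
        obtain ⟨g₁, g₂, rfl, rfl, rfl⟩ := ih h
        exact ⟨t :: g₁, g₂, rfl, by rw [phi_cons, h']; simp, rfl⟩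
    · rw [h'] at h
      rcases u with _ | ⟨z, _ | ⟨z', u⟩⟩
      · simp at h
      · simp at h
      · simp only [cons_append, nil_append, cons.injEq] at h
        obtain ⟨rfl, rfl, h⟩ := h
        obtain ⟨g₁, g₂, rfl, rfl, rfl⟩ := ih h
        exact ⟨t :: g₁, g₂, rfl, by rw [phi_cons, h']; simp, rfl⟩
    · rw [h'] at h
      rcases u with _ | ⟨z, u⟩
      · simp only [cons_append, nil_append, cons.injEq] at h
        exact absurd h.1 ht
      · simp only [cons_append, nil_append, cons.injEq] at h
        obtain ⟨rfl, h⟩ := h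
        obtain ⟨g₁, g₂, rfl, rfl, rfl⟩ := ih h
        exact ⟨t :: g₁, g₂, rfl, by rw [phi_cons, h']; simp, rfl⟩

theorem phi_cons2 {f w : List ℕ} (h : phi f = 2 :: w) : ∃ f', f = 2 :: f' ∧ w = 3 :: phi f' := by
  rcases f with _ | ⟨t, f⟩
  · simp at h
  rw [phi_cons] at h
  rcases phiL_cases t with ⟨ht, h'⟩ | ⟨ht, h'⟩ | ⟨ht, ht', h'⟩
  · rw [h'] at h; simp at h
  · rw [h'] at h
    simp only [cons_append, nil_append, cons.injEq, true_and] at h
    exact ⟨f, by rw [ht], h.symm⟩
  · rw [h'] at h
    simp only [cons_append, nil_append, cons.injEq] at h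
    exact absurd h.1 ht'

/-- occurrences of the letter `y` in `phi g` -/
theorem phi_Y {g u v : List ℕ} (h : phi g = u ++ 2 :: v) :
    ∃ g₁ g₂, g = g₁ ++ 2 :: g₂ ∧ u = phi g₁ ∧ v = 3 :: phi g₂ := by
  obtain ⟨f₁, f₂, rfl, h1, h2⟩ := phi_cut h (Or.inr ⟨2, v, rfl, by decide, by decide⟩)
  obtain ⟨f', rfl, rfl⟩ := phi_cons2 h2
  exact ⟨f₁, f', rfl, h1.symm, rfl⟩

theorem phi_cons0 {f w : List ℕ} (h : phi f = 0 :: w) : ∃ f', f = 0 :: f' ∧ w = phi f' := by
  rcases f with _ | ⟨t, f⟩
  · simp at h
  rw [phi_cons] at h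
  rcases phiL_cases t with ⟨ht, h'⟩ | ⟨ht, h'⟩ | ⟨ht, ht', h'⟩
  · rw [h'] at h; simp at h
  · rw [h'] at h; simp at h
  · rw [h'] at h
    simp only [cons_append, nil_append, cons.injEq] at h
    exact ⟨f, by rw [h.1], h.2.symm⟩

theorem phi_eq_rep {t : ℕ} (h1 : t ≠ 1) (h2 : t ≠ 2) {f : List ℕ} {k : ℕ}
    (h : phi f = replicate k t) : f = replicate k t := by
  induction f generalizing k with
  | nil =>
    cases k with
    | zero => rfl
    | succ k => simp [replicate_succ] at h
  | cons z f ih =>
    rw [phi_cons] at h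
    cases k with
    | zero =>
      rcases phiL_cases z with ⟨ht, h'⟩ | ⟨ht, h'⟩ | ⟨ht, ht', h'⟩ <;> rw [h'] at h <;> simp at h
    | succ k =>
      rw [replicate_succ] at h ⊢
      rcases phiL_cases z with ⟨ht, h'⟩ | ⟨ht, h'⟩ | ⟨ht, ht', h'⟩
      · rw [h'] at h
        simp only [cons_append, nil_append, cons.injEq] at h
        obtain ⟨rfl, h⟩ := h
        cases k with
        | zero => simp at h
        | succ k => rw [replicate_succ] at h; simp at h
      · rw [h'] at h
        simp only [cons_append, nil_append, cons.injEq] at h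
        exact absurd h.1.symm h2
      · rw [h'] at h
        simp only [cons_append, nil_append, cons.injEq] at h
        obtain ⟨rfl, h⟩ := h
        rw [ih h]

theorem phi_opn_inv {f r : List ℕ} {n i : ℕ} (h : phi f = opn n i ++ r) :
    ∃ i' f', i = i' + 1 ∧ f = opn n i' ++ f' ∧ phi f' = r := by
  have h0 : phi f = (0 :: (replicate n 4 ++ replicate i 3)) ++ 1 :: r := by
    rw [h]; simp [opn]
  obtain ⟨g₁, g₂, rfl, h1, h2⟩ := phi_X h0
  have h3 : phi g₁ ++ [3] = (0 :: (replicate n 4 ++ replicate i 3)) := h1.symm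
  cases i with
  | zero =>
    exfalso
    simp only [replicate_zero, append_nil] at h3
    have := congrArg List.reverse h3
    rcases n with _ | n
    · simp at this
    · rw [replicate_succ'] at this
      simp at this
  | succ i =>
    refine ⟨i, g₂, rfl, ?_, h2.symm⟩
    rw [replicate_succ', ← append_assoc, ← cons_append] at h3
    have h4 : phi g₁ = 0 :: (replicate n 4 ++ replicate i 3) := by
      have := append_inj' h3 rfl
      simpa using this.1
    obtain ⟨f', rfl, h5⟩ := phi_cons0 h4
    -- cut the rest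
    have h6 : phi f' = replicate n 4 ++ replicate i 3 := h5.symm
    have : f' = replicate n 4 ++ replicate i 3 := by
      clear h0 h h1 h2 h3 h4 h5
      induction n generalizing f' with
      | zero => simpa using phi_eq_rep (by decide) (by decide) (by simpa using h6)
      | succ n ih =>
        rw [replicate_succ, cons_append] at h6
        rcases f' with _ | ⟨t, f'⟩
        · simp at h6
        rw [phi_cons] at h6
        rcases phiL_cases t with ⟨ht, h'⟩ | ⟨ht, h'⟩ | ⟨ht, ht', h'⟩
        · rw [h'] at h6; simp at h6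
        · rw [h'] at h6; simp at h6
        · rw [h'] at h6
          simp only [cons_append, nil_append, cons.injEq] at h6
          obtain ⟨rfl, h6⟩ := h6
          rw [ih f' h6, replicate_succ, cons_append]
    rw [this]
    simp [opn]

theorem phi_cls_inv {f r : List ℕ} {n i : ℕ} (h : phi f = cls n i ++ r)
    (hr : r = [] ∨ ∃ w, r = 0 :: w) :
    ∃ i' f', i = i' + 1 ∧ f = cls n i' ++ f' ∧ phi f' = r := by
  have h0 : phi f = 2 :: (replicate i 3 ++ (replicate n 4 ++ r)) := by
    rw [h]; simp [cls]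
  obtain ⟨f₁, rfl, h1⟩ := phi_cons2 h0
  have hr' : r = [] ∨ ∃ t w, r = t :: w ∧ t ≠ 1 ∧ t ≠ 3 := by
    rcases hr with rfl | ⟨w, rfl⟩
    · left; rfl
    · right; exact ⟨0, w, rfl, by decide, by decide⟩
  cases i with
  | zero =>
    exfalso
    simp only [replicate_zero, nil_append] at h1
    rcases n with _ | n
    · rcases hr with rfl | ⟨w, rfl⟩ <;> simp at h1
    · rw [replicate_succ] at h1; simp at h1
  | succ i =>
    rw [replicate_succ] at h1
    simp only [cons_append, cons.injEq, true_and] at h1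
    have h2 : phi f₁ = replicate i 3 ++ (replicate n 4 ++ r) := h1.symm
    obtain ⟨g₁, g₂, rfl, h3, h4⟩ := phi_cut h2 (by
      rcases n with _ | n
      · simpa using hr'
      · right
        exact ⟨4, replicate n 4 ++ r, by rw [replicate_succ, cons_append], by decide, by decide⟩)
    obtain ⟨g₃, g₄, rfl, h5, h6⟩ := phi_cut h4 hr'
    refine ⟨i, g₄, rfl, ?_, h6⟩
    rw [phi_eq_rep (by decide) (by decide) h3, phi_eq_rep (by decide) (by decide) h5]
    simp [cls]

theorem InL.of_phi {f : List ℕ} (hf : InL (Pool.Agent.Lib.MP_ead56d_lc.phi f)) : InL f := by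
  generalize hw : Pool.Agent.Lib.MP_ead56d_lc.phi f = w at hf
  induction hf generalizing f with
  | nil =>
    rcases f with _ | ⟨t, f⟩
    · exact InL.nil
    · rw [phi_cons] at hw
      rcases phiL_cases t with ⟨ht, h'⟩ | ⟨ht, h'⟩ | ⟨ht, ht', h'⟩ <;> rw [h'] at hw <;>
        simp at hw
  | node n i hs hs' ih ih' =>
    obtain ⟨i', f', rfl, rfl, h1⟩ := phi_opn_inv hw
    obtain ⟨f₁, f₂, rfl, h2, h3⟩ := phi_cut h1 (Or.inr ⟨2, _, rfl, by decide, by decide⟩)
    obtain ⟨i'', f₃, hi, rfl, h4⟩ := phi_cls_inv h3 hs'.start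
    obtain rfl : i' = i'' := by omega
    exact InL.node n i' (ih h2) (ih' h4)
  | garb n i m j hs hj hV ih =>
    obtain ⟨i', f', rfl, rfl, h1⟩ := phi_opn_inv hw
    obtain ⟨f₁, f₂, rfl, h2, h3⟩ := phi_cut h1 (Or.inr ⟨0, _, rfl, by decide, by decide⟩)
    obtain ⟨j', f₃, rfl, rfl, h4⟩ := phi_opn_inv h3
    exact InL.garb n i' m j' (ih h2) (by omega) (lt_of_phi_lt (by rw [h4]; exact hV))

/-- level `1` wrapper -/
theorem exact_one {f : List ℕ} (h : InL (opn 0 1 ++ (phi (phi f) ++ cls 0 1))) : InL f := by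
  generalize hw : opn 0 1 ++ (phi (phi f) ++ cls 0 1) = w at h
  cases h with
  | nil => simp [opn] at hw
  | node n i hs hs' =>
    rename_i s s'
    obtain ⟨rfl, rfl, h1⟩ := opn_inj hw
    simp only [cls, replicate_zero, append_nil] at h1
    rcases append_eq_append_iff.mp h1 with ⟨c, hc₁, hc₂⟩ | ⟨c, hc₁, hc₂⟩
    · -- `s = phi² f ++ c`
      rcases c with _ | ⟨z, c⟩
      · simp only [append_nil] at hc₁
        rw [hc₁] at hs
        exact InL.of_phi (InL.of_phi hs)
      · exfalso
        simp only [replicate_one, cons_append, cons.injEq] at hc₂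
        rcases c with _ | ⟨z', _ | ⟨z'', c⟩⟩
        · simp at hc₂
        · simp at hc₂
        · simp at hc₂
    · -- `phi² f = s ++ c`
      rcases c with _ | ⟨z, c⟩
      · simp only [append_nil] at hc₁
        rw [← hc₁] at hs
        exact InL.of_phi (InL.of_phi hs)
      · exfalso
        simp only [cons_append, cons.injEq] at hc₂
        obtain ⟨rfl, hc₂⟩ := hc₂
        obtain ⟨g₁, g₂, h3, h4, h5⟩ := phi_Y hc₁
        obtain ⟨g₃, g₄, h6, h7, h8⟩ := phi_Y h3
        rw [h5, h8] at hc₂
        simp only [replicate_one, cons_append, nil_append, cons.injEq, true_and] at hc₂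
        rcases hs'.start with h9 | ⟨r, h9⟩
        · rw [h9] at hc₂
          simp [phi_cons, phiL] at hc₂
        · rw [h9] at hc₂
          simp [phi_cons, phiL] at hc₂
  | garb n i m j hs hj hV =>
    rename_i s V
    exfalso
    obtain ⟨rfl, rfl, h1⟩ := opn_inj hw
    have h2 : phi (phi f) ++ cls 0 1 = (s ++ 0 :: (replicate m 4 ++ replicate j 3)) ++ 1 :: V := by
      rw [h1]; simp [opn]
    rcases append_eq_append_iff.mp h2 with ⟨c, hc₁, hc₂⟩ | ⟨c, hc₁, hc₂⟩
    · simp only [cls, replicate_zero, append_nil, replicate_one] at hc₂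
      rcases c with _ | ⟨z, _ | ⟨z', c⟩⟩ <;> simp at hc₂
    · rcases c with _ | ⟨z, c⟩
      · simp [cls] at hc₂
      · simp only [cons_append, cons.injEq] at hc₂
        obtain ⟨rfl, hc₂⟩ := hc₂
        obtain ⟨g₁, g₂, h3, h4, h5⟩ := phi_X hc₁
        obtain ⟨g₃, g₄, h6, h7, h8⟩ := phi_X h3
        rw [h7] at h4
        simp only [phi_append] at h4
        have h9 : phi [3] = [3] := rfl
        rw [h9] at h4
        have h10 : (s ++ 0 :: (replicate m 4 ++ replicate j 3)).reverse
          = (phi (phi g₃) ++ [3] ++ [3]).reverse := by rw [h4]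
        have hj' : j = 0 ∨ j = 1 := by omega
        rcases hj' with rfl | rfl
        · rcases m with _ | m
          · simp at h10
          · rw [replicate_succ'] at h10
            simp at h10
        · rcases m with _ | m
          · simp at h10
          · rw [replicate_succ'] at h10
            simp at h10

/-- level `0` wrapper -/
theorem exact_zero {f t : List ℕ} {n m : ℕ}
    (ht : t = [] ∨ ∃ f', t = opn 0 1 ++ (phi (phi f') ++ cls 0 1))
    (h : InL (opn n 0 ++ (phi f ++ (cls m 0 ++ t)))) : n = m ∧ InL f ∧ InL t := by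
  have htY : ∀ u v, t = u ++ 2 :: v → ∃ v', v = 3 :: v' := by
    intro u v huv
    rcases ht with rfl | ⟨f', rfl⟩
    · simp at huv
    · have h1 : (opn 0 1 ++ phi (phi f')) ++ cls 0 1 = u ++ 2 :: v := by
        rw [← huv, append_assoc]
      rcases append_eq_append_iff.mp h1 with ⟨c, hc₁, hc₂⟩ | ⟨c, hc₁, hc₂⟩
      · rcases c with _ | ⟨z, c⟩
        · simp only [cls, replicate_one, replicate_zero, append_nil, nil_append, cons.injEq,
            true_and] at hc₂
          exact ⟨[], hc₂.symm⟩
        · exfalso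
          simp only [cls, replicate_one, replicate_zero, append_nil, cons_append,
            cons.injEq] at hc₂
          rcases c with _ | ⟨z', c⟩ <;> simp at hc₂
      · rcases c with _ | ⟨z, c⟩
        · simp only [cls, replicate_one, replicate_zero, append_nil, nil_append, cons.injEq,
            true_and] at hc₂
          exact ⟨[], hc₂⟩
        · simp only [cons_append, cons.injEq] at hc₂
          obtain ⟨rfl, rfl⟩ := hc₂
          have h2 : phi (opn 0 0 ++ phi f') = u ++ 2 :: c := by
            rw [phi_append, phi_opn]; exact hc₁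
          obtain ⟨g₁, g₂, h3, h4, h5⟩ := phi_Y h2
          rw [h5]
          exact ⟨_, rfl⟩
  have htX : ∀ u v, t = u ++ 1 :: v → ∃ u', u = u' ++ [3] := by
    intro u v huv
    rcases ht with rfl | ⟨f', rfl⟩
    · simp at huv
    · have h1 : (opn 0 1 ++ phi (phi f')) ++ cls 0 1 = u ++ 1 :: v := by
        rw [← huv, append_assoc]
      rcases append_eq_append_iff.mp h1 with ⟨c, hc₁, hc₂⟩ | ⟨c, hc₁, hc₂⟩
      · exfalso
        simp only [cls, replicate_zero, append_nil, replicate_one] at hc₂
        rcases c with _ | ⟨z, _ | ⟨z', c⟩⟩ <;> simp at hc₂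
      · rcases c with _ | ⟨z, c⟩
        · simp [cls] at hc₂
        · simp only [cons_append, cons.injEq] at hc₂
          obtain ⟨rfl, rfl⟩ := hc₂
          have h2 : phi (opn 0 0 ++ phi f') = u ++ 1 :: c := by
            rw [phi_append, phi_opn]; exact hc₁
          obtain ⟨g₁, g₂, h3, h4, h5⟩ := phi_X h2
          exact ⟨_, h4⟩
  have ht0 : t = [] ∨ ∃ r, t = 0 :: r := by
    rcases ht with rfl | ⟨f', rfl⟩
    · left; rfl
    · right; exact ⟨_, rfl⟩
  generalize hw : opn n 0 ++ (phi f ++ (cls m 0 ++ t)) = w at h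
  cases h with
  | nil => simp [opn] at hw
  | node n' i hs hs' =>
    rename_i s s'
    obtain ⟨rfl, rfl, h1⟩ := opn_inj hw
    have key : ∀ w : List ℕ, (replicate n 4 ++ s' : List ℕ) ≠ 3 :: w := by
      intro w hw
      rcases n with _ | n
      · rcases hs'.start with h | ⟨r, h⟩ <;> rw [h] at hw <;> simp at hw
      · rw [replicate_succ] at hw; simp at hw
    simp only [cls, replicate_zero, nil_append, cons_append] at h1
    rcases append_eq_append_iff.mp h1 with ⟨c, hc₁, hc₂⟩ | ⟨c, hc₁, hc₂⟩
    · rcases c with _ | ⟨z, c⟩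
      · simp only [append_nil] at hc₁
        simp only [nil_append, cons.injEq, true_and] at hc₂
        obtain ⟨rfl, rfl⟩ := rep_inj_aux (by rcases ht0 with h | ⟨r, h⟩ <;> rw [h] <;> simp)
          (by rcases hs'.start with h | ⟨r, h⟩ <;> rw [h] <;> simp) hc₂
        refine ⟨rfl, ?_, hs'⟩
        rw [hc₁] at hs
        exact InL.of_phi hs
      · exfalso
        simp only [cons_append, cons.injEq] at hc₂
        obtain ⟨rfl, hc₂⟩ := hc₂
        -- the `2` lies in `t`
        rcases append_eq_append_iff.mp hc₂ with ⟨c', hc₃, hc₄⟩ | ⟨c', hc₃, hc₄⟩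
        · obtain ⟨v', hv'⟩ := htY _ _ hc₄
          exact key _ hv'
        · rcases c' with _ | ⟨z', c'⟩
          · simp only [nil_append] at hc₄
            obtain ⟨v', hv'⟩ := htY [] _ (by rw [← hc₄]; rfl)
            exact key _ hv'
          · simp only [cons_append, cons.injEq] at hc₄
            have : z' ∈ replicate m 4 := by rw [hc₃]; simp
            have := eq_of_mem_replicate this
            omega
    · rcases c with _ | ⟨z, c⟩
      · simp only [append_nil] at hc₁
        simp only [nil_append, cons.injEq, true_and] at hc₂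
        obtain ⟨rfl, rfl⟩ := rep_inj_aux (by rcases ht0 with h | ⟨r, h⟩ <;> rw [h] <;> simp)
          (by rcases hs'.start with h | ⟨r, h⟩ <;> rw [h] <;> simp) hc₂.symm
        refine ⟨rfl, ?_, hs'⟩
        rw [← hc₁] at hs
        exact InL.of_phi hs
      · exfalso
        simp only [cons_append, cons.injEq] at hc₂
        obtain ⟨rfl, hc₂⟩ := hc₂
        obtain ⟨g₁, g₂, h3, h4, h5⟩ := phi_Y hc₁
        rw [h5] at hc₂
        exact key _ hc₂
  | garb n' i m' j hs hj hV =>
    rename_i s V
    exfalso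
    obtain ⟨rfl, rfl, h1⟩ := opn_inj hw
    obtain rfl : j = 0 := by omega
    have hlast : ∀ u' : List ℕ, s ++ 0 :: replicate m' 4 ≠ u' ++ [3] := by
      intro u' hu'
      have h10 := congrArg List.reverse hu'
      rcases m' with _ | m'
      · simp at h10
      · rw [replicate_succ'] at h10
        simp at h10
    have h2 : phi f ++ (2 :: (replicate m 4 ++ t)) = (s ++ 0 :: replicate m' 4) ++ 1 :: V := by
      have : phi f ++ (2 :: (replicate m 4 ++ t)) = phi f ++ (cls m 0 ++ t) := by simp [cls]
      rw [this, h1]; simp [opn]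
    rcases append_eq_append_iff.mp h2 with ⟨c, hc₁, hc₂⟩ | ⟨c, hc₁, hc₂⟩
    · rcases c with _ | ⟨z, c⟩
      · simp at hc₂
      · simp only [cons_append, cons.injEq] at hc₂
        obtain ⟨rfl, hc₂⟩ := hc₂
        rcases append_eq_append_iff.mp hc₂ with ⟨c', hc₃, hc₄⟩ | ⟨c', hc₃, hc₄⟩
        · obtain ⟨u', hu'⟩ := htX _ _ hc₄
          apply hlast (phi f ++ 2 :: (replicate m 4 ++ u'))
          rw [hc₁, hc₃, hu']
          simp
        · rcases c' with _ | ⟨z', c'⟩
          · simp only [nil_append] at hc₄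
            obtain ⟨u', hu'⟩ := htX [] _ (by rw [← hc₄]; rfl)
            simp at hu'
          · simp only [cons_append, cons.injEq] at hc₄
            have : z' ∈ replicate m 4 := by rw [hc₃]; simp
            have := eq_of_mem_replicate this
            omega
    · rcases c with _ | ⟨z, c⟩
      · simp at hc₂
      · simp only [cons_append, cons.injEq] at hc₂
        obtain ⟨rfl, hc₂⟩ := hc₂
        obtain ⟨g₁, g₂, h3, h4, h5⟩ := phi_X hc₁
        exact hlast _ h4

end Pool.Agent.Lib.MP_ead56d_lc
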