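import Mathlib

/-! Closure properties of regular languages that are needed for rational transductions. -/

namespace Pool.Agent.Lib.MP_ead56d_lc

variable {α β : Type}

/-- inverse image of a regular language under a morphism -/
theorem isRegular_comap (f : α → List β) {L : Language β} (hL : L.IsRegular) :
    Language.IsRegular ({w | w.flatMap f ∈ L} : Language α) := by
  obtain ⟨σ, hσ, M, rfl⟩ := hL
  refine ⟨σ, hσ, ⟨fun q a => M.evalFrom q (f a), M.start, M.accept⟩, ?_⟩
  have key : ∀ (w : List α) (q : σ),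
      (DFA.mk (fun q a => M.evalFrom q (f a)) M.start M.accept).evalFrom q w
        = M.evalFrom q (w.flatMap f) := by
    intro w
    induction w with
    | nil => intro q; simp
    | cons a w ih =>
      intro q
      rw [DFA.evalFrom_cons, ih, List.flatMap_cons, DFA.evalFrom_of_append]
  ext w
  change _ ∈ M.accept ↔ _ ∈ M.accept
  rw [key]

/-- words all of whose letters satisfy `P` -/
theorem isRegular_all (P : α → Prop) :
    Language.IsRegular ({w | ∀ a ∈ w, P a} : Language α) := by
  apply Language.IsRegular.of_finite_range_leftQuotient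
  apply Set.Finite.subset (s := {({w | ∀ a ∈ w, P a} : Language α), (∅ : Set (List α))})
  · exact Set.toFinite _
  · rintro _ ⟨u, rfl⟩
    by_cases h : ∀ a ∈ u, P a
    · left
      ext v
      change (∀ a ∈ u ++ v, P a) ↔ (∀ a ∈ v, P a)
      constructor
      · intro hv a ha; exact hv a (List.mem_append_right _ ha)
      · intro hv a ha
        rcases List.mem_append.mp ha with h1 | h1
        · exact h a h1
        · exact hv a h1
    · right
      ext v
      change (∀ a ∈ u ++ v, P a) ↔ False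
      refine iff_false_intro fun hv => h fun a ha => hv a (List.mem_append_left _ ha)

theorem isRegular_singleton (w : List α) :
    Language.IsRegular ({w} : Language α) := by
  apply Language.IsRegular.of_finite_range_leftQuotient
  apply Set.Finite.subset
    (s := insert (∅ : Set (List α)) ((fun v : List α => ({v} : Set (List α))) '' {v | v <:+ w}))
  · apply Set.Finite.insert
    apply Set.Finite.image
    have : {v | v <:+ w} = {v | v ∈ w.tails} := by
      ext v; simp
    rw [this]
    exact List.finite_toSet _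
  · rintro _ ⟨u, rfl⟩
    by_cases h : u <+: w
    · right
      obtain ⟨t, rfl⟩ := h
      refine ⟨t, ⟨u, rfl⟩, ?_⟩
      ext v
      change v = t ↔ u ++ v = u ++ t
      simp
    · left
      ext v
      change u ++ v = w ↔ False
      refine iff_false_intro fun hv => h ⟨v, hv⟩

theorem isRegular_mul {L₁ L₂ : Language α} (h₁ : L₁.IsRegular) (h₂ : L₂.IsRegular) :
    (L₁ * L₂).IsRegular := by
  have f₁ := h₁.finite_range_leftQuotient
  have f₂ := h₂.finite_range_leftQuotient
  apply Language.IsRegular.of_finite_range_leftQuotient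
  apply Set.Finite.subset (s := (fun p : Language α × Set (Language α) =>
    ({v | v ∈ p.1 * L₂ ∨ ∃ Q ∈ p.2, v ∈ Q} : Language α)) ''
      ((Set.range L₁.leftQuotient) ×ˢ (𝒫 (Set.range L₂.leftQuotient))))
  · exact (f₁.prod f₂.powerset).image _
  · rintro _ ⟨u, rfl⟩
    refine ⟨(L₁.leftQuotient u, {Q | ∃ u₁ u₂, u = u₁ ++ u₂ ∧ u₁ ∈ L₁ ∧ Q = L₂.leftQuotient u₂}),
      ⟨⟨u, rfl⟩, ?_⟩, ?_⟩
    · rintro _ ⟨u₁, u₂, _, _, rfl⟩; exact ⟨u₂, rfl⟩
    · ext v
      change (v ∈ (L₁.leftQuotient u) * L₂ ∨ _) ↔ u ++ v ∈ L₁ * L₂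
      rw [Language.mem_mul, Language.mem_mul]
      constructor
      · rintro (⟨a, ha, b, hb, rfl⟩ | ⟨_, ⟨u₁, u₂, rfl, hu₁, rfl⟩, hv⟩)
        · exact ⟨u ++ a, ha, b, hb, by simp⟩
        · exact ⟨u₁, hu₁, u₂ ++ v, hv, by simp⟩
      · rintro ⟨a, ha, b, hb, hab⟩
        rcases List.append_eq_append_iff.mp hab with ⟨c, rfl, rfl⟩ | ⟨c, rfl, rfl⟩
        · right
          exact ⟨_, ⟨a, c, rfl, ha, rfl⟩, hb⟩
        · left
          exact ⟨c, ha, b, hb, rfl⟩

/-- image of a regular language under a morphism -/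
theorem isRegular_image [Finite α] (f : α → List β) {L : Language α} (hL : L.IsRegular) :
    Language.IsRegular ({v | ∃ w ∈ L, w.flatMap f = v} : Language β) := by
  have f₁ := hL.finite_range_leftQuotient
  have hS : Set.Finite {t : List β | t = [] ∨ ∃ a, t <:+ f a} := by
    have : {t : List β | t = [] ∨ ∃ a, t <:+ f a} = {[]} ∪ ⋃ a, {t | t ∈ (f a).tails} := by
      ext t; simp
    rw [this]
    apply Set.Finite.union (Set.finite_singleton _)
    exact Set.finite_iUnion fun a => List.finite_toSet _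
  apply Language.IsRegular.of_finite_range_leftQuotient
  apply Set.Finite.subset (s := (fun p : Set (Language α × List β) =>
    ({v | ∃ q ∈ p, ∃ w ∈ q.1, v = q.2 ++ w.flatMap f} : Language β)) ''
      (𝒫 ((Set.range L.leftQuotient) ×ˢ {t : List β | t = [] ∨ ∃ a, t <:+ f a})))
  · exact ((f₁.prod hS).powerset).image _
  · rintro _ ⟨u, rfl⟩
    refine ⟨{q | ∃ w, w.flatMap f = u ++ q.2 ∧ q.1 = L.leftQuotient w ∧
      (q.2 = [] ∨ ∃ a, q.2 <:+ f a)}, ?_, ?_⟩
    · rintro ⟨Q, t⟩ ⟨w, hw, hQ, ht⟩
      exact ⟨⟨w, hQ.symm⟩, ht⟩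
    · ext v
      change (∃ q ∈ {q : Language α × List β | ∃ w, w.flatMap f = u ++ q.2 ∧
        q.1 = L.leftQuotient w ∧ (q.2 = [] ∨ ∃ a, q.2 <:+ f a)}, ∃ w ∈ q.1, v = q.2 ++ w.flatMap f)
        ↔ ∃ w ∈ L, w.flatMap f = u ++ v
      constructor
      · rintro ⟨⟨Q, t⟩, ⟨w, hw, hQ, ht⟩, w', hw', rfl⟩
        simp only at hQ hw
        subst hQ
        exact ⟨w ++ w', hw', by simp [hw]⟩
      · rintro ⟨w, hw, hv⟩
        -- split `w`
        have : ∀ (w : List α) (u v : List β), w.flatMap f = u ++ v →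
            ∃ w₁ w₂ t, w = w₁ ++ w₂ ∧ w₁.flatMap f = u ++ t ∧ v = t ++ w₂.flatMap f ∧
              (t = [] ∨ ∃ a, t <:+ f a) := by
          intro w
          induction w with
          | nil =>
            intro u v h
            simp only [List.flatMap_nil] at h
            obtain ⟨rfl, rfl⟩ := List.append_eq_nil_iff.mp h.symm
            exact ⟨[], [], [], by simp⟩
          | cons a w ih =>
            intro u v h
            rw [List.flatMap_cons] at h
            rcases List.append_eq_append_iff.mp h with ⟨c, hc₁, hc₂⟩ | ⟨c, hc₁, hc₂⟩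
            · obtain ⟨w₁, w₂, t, rfl, h1, h2, h3⟩ := ih c v hc₂
              refine ⟨a :: w₁, w₂, t, rfl, ?_, h2, h3⟩
              rw [List.flatMap_cons, h1, hc₁, List.append_assoc]
            · refine ⟨[a], w, c, rfl, by simp [hc₁], hc₂, Or.inr ⟨a, ⟨u, hc₁.symm⟩⟩⟩
        obtain ⟨w₁, w₂, t, rfl, h1, rfl, h3⟩ := this w u v hv
        exact ⟨(L.leftQuotient w₁, t), ⟨w₁, h1, rfl, h3⟩, w₂, hw, rfl⟩

end Pool.Agent.Lib.MP_ead56d_lc
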