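import Mathlib
import Pool.Agent.Lib.MP_ead56d_lc.Defs
import Pool.Agent.Lib.MP_ead56d_lc.Reg
import Pool.Agent.Lib.MP_ead56d_lc.Lang

/-! Rational images compose; the cone generated by the language `L`. -/

namespace Pool.Agent.Lib.MP_ead56d_lc

open List

/-- reading projection -/
def rdL : ℕ ⊕ ℕ → List ℕ := Sum.elim (fun a => [a]) (fun _ => [])
/-- writing projection -/
def wrL : ℕ ⊕ ℕ → List ℕ := Sum.elim (fun _ => []) (fun b => [b])

def rd (z : List (ℕ ⊕ ℕ)) : List ℕ := z.flatMap rdL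
def wr (z : List (ℕ ⊕ ℕ)) : List ℕ := z.flatMap wrL

@[simp] theorem rd_nil : rd [] = [] := rfl
@[simp] theorem wr_nil : wr [] = [] := rfl
@[simp] theorem rd_inl (a : ℕ) (z) : rd (Sum.inl a :: z) = a :: rd z := by simp [rd, rdL]
@[simp] theorem rd_inr (a : ℕ) (z) : rd (Sum.inr a :: z) = rd z := by simp [rd, rdL]
@[simp] theorem wr_inl (a : ℕ) (z) : wr (Sum.inl a :: z) = wr z := by simp [wr, wrL]
@[simp] theorem wr_inr (a : ℕ) (z) : wr (Sum.inr a :: z) = a :: wr z := by simp [wr, wrL]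
@[simp] theorem rd_append (z w) : rd (z ++ w) = rd z ++ rd w := by simp [rd]
@[simp] theorem wr_append (z w) : wr (z ++ w) = wr z ++ wr w := by simp [wr]

theorem rd_split {z : List (ℕ ⊕ ℕ)} {u₁ u₂ : List ℕ} (h : rd z = u₁ ++ u₂) :
    ∃ z₁ z₂, z = z₁ ++ z₂ ∧ rd z₁ = u₁ ∧ rd z₂ = u₂ := by
  induction z generalizing u₁ with
  | nil =>
    obtain ⟨rfl, rfl⟩ := append_eq_nil_iff.mp h.symm
    exact ⟨[], [], rfl, rfl, rfl⟩
  | cons t z ih =>
    rcases t with a | b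
    · rw [rd_inl] at h
      rcases u₁ with _ | ⟨c, u₁⟩
      · exact ⟨[], _, rfl, rfl, by rw [rd_inl]; exact h⟩
      · simp only [cons_append, cons.injEq] at h
        obtain ⟨rfl, h⟩ := h
        obtain ⟨z₁, z₂, rfl, rfl, rfl⟩ := ih h
        exact ⟨Sum.inl a :: z₁, z₂, rfl, by simp, rfl⟩
    · rw [rd_inr] at h
      obtain ⟨z₁, z₂, rfl, rfl, rfl⟩ := ih h
      exact ⟨Sum.inr b :: z₁, z₂, rfl, by simp, rfl⟩

theorem wr_split {z : List (ℕ ⊕ ℕ)} {u₁ u₂ : List ℕ} (h : wr z = u₁ ++ u₂) :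
    ∃ z₁ z₂, z = z₁ ++ z₂ ∧ wr z₁ = u₁ ∧ wr z₂ = u₂ := by
  induction z generalizing u₁ with
  | nil =>
    obtain ⟨rfl, rfl⟩ := append_eq_nil_iff.mp h.symm
    exact ⟨[], [], rfl, rfl, rfl⟩
  | cons t z ih =>
    rcases t with b | a
    · rw [wr_inl] at h
      obtain ⟨z₁, z₂, rfl, rfl, rfl⟩ := ih h
      exact ⟨Sum.inl b :: z₁, z₂, rfl, by simp, rfl⟩
    · rw [wr_inr] at h
      rcases u₁ with _ | ⟨c, u₁⟩
      · exact ⟨[], _, rfl, rfl, by rw [wr_inr]; exact h⟩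
      · simp only [cons_append, cons.injEq] at h
        obtain ⟨rfl, h⟩ := h
        obtain ⟨z₁, z₂, rfl, rfl, rfl⟩ := ih h
        exact ⟨Sum.inr a :: z₁, z₂, rfl, by simp, rfl⟩

theorem map_inl_rd (l : List ℕ) : rd (l.map Sum.inl) = l := by
  induction l with
  | nil => rfl
  | cons a l ih => simp [ih]

theorem map_inl_wr (l : List ℕ) : wr (l.map Sum.inl) = [] := by
  induction l with
  | nil => rfl
  | cons a l ih => simp [ih]

theorem map_inr_rd (l : List ℕ) : rd (l.map Sum.inr) = [] := by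
  induction l with
  | nil => rfl
  | cons a l ih => simp [ih]

theorem map_inr_wr (l : List ℕ) : wr (l.map Sum.inr) = l := by
  induction l with
  | nil => rfl
  | cons a l ih => simp [ih]

/-- normal form of a rational transduction -/
theorem IsRationalImage.normal {L K : Language ℕ} (h : IsRationalImage L K) :
    ∃ R : Language (ℕ ⊕ ℕ), R.IsRegular ∧ (∃ F : Set (ℕ ⊕ ℕ), F.Finite ∧ ∀ z ∈ R, ∀ a ∈ z, a ∈ F) ∧
      K = {v | ∃ z ∈ R, rd z ∈ L ∧ wr z = v} := by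
  obtain ⟨Z, _, R, h, g, hR, rfl⟩ := h
  let σ : Z → List (ℕ ⊕ ℕ) := fun z => (h z).map Sum.inl ++ (g z).map Sum.inr
  have hrd : ∀ w : List Z, rd (w.flatMap σ) = w.flatMap h := by
    intro w
    induction w with
    | nil => rfl
    | cons a w ih =>
      rw [flatMap_cons, rd_append, ih, flatMap_cons]
      simp [σ, map_inl_rd, map_inr_rd]
  have hwr : ∀ w : List Z, wr (w.flatMap σ) = w.flatMap g := by
    intro w
    induction w with
    | nil => rfl
    | cons a w ih =>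
      rw [flatMap_cons, wr_append, ih, flatMap_cons]
      simp [σ, map_inl_wr, map_inr_wr]
  refine ⟨{v | ∃ w ∈ R, w.flatMap σ = v}, isRegular_image σ hR,
    ⟨⋃ z : Z, {t | t ∈ σ z}, ?_, ?_⟩, ?_⟩
  · exact Set.finite_iUnion fun z => List.finite_toSet _
  · rintro _ ⟨w, _, rfl⟩ a ha
    obtain ⟨z, _, hz⟩ := mem_flatMap.mp ha
    exact Set.mem_iUnion.mpr ⟨z, hz⟩
  · ext v
    constructor
    · rintro ⟨z, hz, hL, rfl⟩
      exact ⟨z.flatMap σ, ⟨z, hz, rfl⟩, by rw [hrd]; exact hL, hwr z⟩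
    · rintro ⟨_, ⟨z, hz, rfl⟩, hL, rfl⟩
      exact ⟨z, hz, by rw [← hrd]; exact hL, (hwr z).symm⟩

/-- the alphabet may be infinite as long as only finitely many letters occur -/
theorem isRationalImage_of {Z : Type} {L : Language ℕ} (R : Language Z) (hR : R.IsRegular)
    (F : Set Z) (hF : F.Finite) (hRF : ∀ z ∈ R, ∀ a ∈ z, a ∈ F) (h g : Z → List ℕ) :
    IsRationalImage L {v | ∃ z ∈ R, z.flatMap h ∈ L ∧ z.flatMap g = v} := by
  have : Fintype F := hF.fintype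
  have e : ∀ (k : Z → List ℕ) (w : List F),
      (w.flatMap (fun z => [z.val])).flatMap k = w.flatMap (fun z => k z.val) := by
    intro k w
    rw [List.flatMap_assoc]
    simp
  refine ⟨F, this, {w | w.flatMap (fun z => [z.val]) ∈ R}, fun z => h z.val, fun z => g z.val,
    isRegular_comap _ hR, ?_⟩
  ext v
  constructor
  · rintro ⟨z, hz, hL, rfl⟩
    have hzF : ∀ a ∈ z, a ∈ F := hRF z hz
    obtain ⟨w, rfl⟩ : ∃ w : List F, w.flatMap (fun z => [z.val]) = z := by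
      clear hz hL
      induction z with
      | nil => exact ⟨[], rfl⟩
      | cons a z ih =>
        obtain ⟨w, hw⟩ := ih (fun b hb => hzF b (mem_cons_of_mem _ hb))
        exact ⟨⟨a, hzF a (by simp)⟩ :: w, by simp only [flatMap_cons, hw, singleton_append]⟩
    refine ⟨w, hz, ?_, ?_⟩
    · rw [← e]; exact hL
    · rw [← e]
  · rintro ⟨w, hw, hL, rfl⟩
    exact ⟨_, hw, by rw [e]; exact hL, by rw [e]⟩

/-- letters of the composite -/
def p12 : ℕ ⊕ ℕ ⊕ ℕ → List (ℕ ⊕ ℕ) :=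
  Sum.elim (fun a => [Sum.inl a]) (Sum.elim (fun b => [Sum.inr b]) (fun _ => []))
def p23 : ℕ ⊕ ℕ ⊕ ℕ → List (ℕ ⊕ ℕ) :=
  Sum.elim (fun _ => []) (Sum.elim (fun b => [Sum.inl b]) (fun c => [Sum.inr c]))

@[simp] theorem p12_a (a : ℕ) : p12 (Sum.inl a) = [Sum.inl a] := rfl
@[simp] theorem p12_b (a : ℕ) : p12 (Sum.inr (Sum.inl a)) = [Sum.inr a] := rfl
@[simp] theorem p12_c (a : ℕ) : p12 (Sum.inr (Sum.inr a)) = [] := rfl
@[simp] theorem p23_a (a : ℕ) : p23 (Sum.inl a) = [] := rfl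
@[simp] theorem p23_b (a : ℕ) : p23 (Sum.inr (Sum.inl a)) = [Sum.inl a] := rfl
@[simp] theorem p23_c (a : ℕ) : p23 (Sum.inr (Sum.inr a)) = [Sum.inr a] := rfl

theorem merge (z₁ z₂ : List (ℕ ⊕ ℕ)) (h : wr z₁ = rd z₂) :
    ∃ z : List (ℕ ⊕ ℕ ⊕ ℕ), z.flatMap p12 = z₁ ∧ z.flatMap p23 = z₂ := by
  induction z₁ generalizing z₂ with
  | nil =>
    induction z₂ with
    | nil => exact ⟨[], rfl, rfl⟩
    | cons t z₂ ih =>
      rcases t with a | c
      · simp at h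
      · rw [rd_inr] at h
        obtain ⟨z, hz₁, hz₂⟩ := ih h
        exact ⟨Sum.inr (Sum.inr c) :: z, by rw [flatMap_cons, hz₁]; simp, by rw [flatMap_cons, hz₂]; simp⟩
  | cons t z₁ ih =>
    rcases t with a | b
    · rw [wr_inl] at h
      obtain ⟨z, hz₁, hz₂⟩ := ih _ h
      exact ⟨Sum.inl a :: z, by rw [flatMap_cons, hz₁]; simp, by rw [flatMap_cons, hz₂]; simp⟩
    · rw [wr_inr] at h
      induction z₂ with
      | nil => simp at h
      | cons t z₂ ih₂ =>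
        rcases t with a | c
        · rw [rd_inl] at h
          simp only [cons.injEq] at h
          obtain ⟨rfl, h⟩ := h
          obtain ⟨z, hz₁, hz₂⟩ := ih _ h
          exact ⟨Sum.inr (Sum.inl b) :: z, by rw [flatMap_cons, hz₁]; simp, by rw [flatMap_cons, hz₂]; simp⟩
        · rw [rd_inr] at h
          obtain ⟨z, hz₁, hz₂⟩ := ih₂ h
          exact ⟨Sum.inr (Sum.inr c) :: z, by rw [flatMap_cons, hz₁]; simp, by rw [flatMap_cons, hz₂]; simp⟩

theorem IsRationalImage.trans {L K M : Language ℕ} (h₁ : IsRationalImage L K)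
    (h₂ : IsRationalImage K M) : IsRationalImage L M := by
  obtain ⟨R₁, hR₁, ⟨F₁, hF₁, hRF₁⟩, rfl⟩ := h₁.normal
  obtain ⟨R₂, hR₂, ⟨F₂, hF₂, hRF₂⟩, rfl⟩ := h₂.normal
  let hh : ℕ ⊕ ℕ ⊕ ℕ → List ℕ := fun z => (p12 z).flatMap rdL
  let gg : ℕ ⊕ ℕ ⊕ ℕ → List ℕ := fun z => (p23 z).flatMap wrL
  have e1 : ∀ z : List (ℕ ⊕ ℕ ⊕ ℕ), z.flatMap hh = rd (z.flatMap p12) := by
    intro z; simp [hh, rd, List.flatMap_assoc]
  have e2 : ∀ z : List (ℕ ⊕ ℕ ⊕ ℕ), z.flatMap gg = wr (z.flatMap p23) := by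
    intro z; simp [gg, wr, List.flatMap_assoc]
  have e3 : ∀ z : List (ℕ ⊕ ℕ ⊕ ℕ), wr (z.flatMap p12) = rd (z.flatMap p23) := by
    intro z
    induction z with
    | nil => rfl
    | cons t z ih =>
      rcases t with a | b | c <;> simp [flatMap_cons, ih]
  have key := isRationalImage_of (L := L)
    (({z | z.flatMap p12 ∈ R₁} : Language (ℕ ⊕ ℕ ⊕ ℕ)) ⊓ {z | z.flatMap p23 ∈ R₂})
    ((isRegular_comap p12 hR₁).inf (isRegular_comap p23 hR₂))
    ((Sum.inl '' {a | Sum.inl a ∈ F₁}) ∪ ((fun b => Sum.inr (Sum.inl b)) '' {b | Sum.inr b ∈ F₁}) ∪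
      ((fun c => Sum.inr (Sum.inr c)) '' {c | Sum.inr c ∈ F₂}))
    (by
      apply Set.Finite.union (Set.Finite.union _ _)
      · apply Set.Finite.image
        exact hF₂.preimage (Sum.inr_injective.injOn)
      · apply Set.Finite.image
        exact hF₁.preimage (Sum.inl_injective.injOn)
      · apply Set.Finite.image
        exact hF₁.preimage (Sum.inr_injective.injOn))
    (by
      rintro z ⟨hz₁, hz₂⟩ t ht
      have h1 := hRF₁ _ hz₁
      have h2 := hRF₂ _ hz₂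
      rcases t with a | b | c
      · left; left
        exact ⟨a, h1 _ (mem_flatMap.mpr ⟨_, ht, by simp⟩), rfl⟩
      · left; right
        exact ⟨b, h1 _ (mem_flatMap.mpr ⟨_, ht, by simp⟩), rfl⟩
      · right
        exact ⟨c, h2 _ (mem_flatMap.mpr ⟨_, ht, by simp⟩), rfl⟩)
    hh gg
  refine cast (congrArg (IsRationalImage L) ?_) key
  symm
  ext v
  constructor
  · rintro ⟨z₂, hz₂, ⟨z₁, hz₁, hL, h12⟩, rfl⟩
    obtain ⟨z, rfl, rfl⟩ := merge z₁ z₂ h12
    exact ⟨z, ⟨hz₁, hz₂⟩, by rw [e1]; exact hL, e2 z⟩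
  · rintro ⟨z, ⟨hz₁, hz₂⟩, hL, rfl⟩
    refine ⟨z.flatMap p23, hz₂, ⟨z.flatMap p12, hz₁, by rw [← e1]; exact hL, e3 z⟩, (e2 z).symm⟩

theorem IsRationalImage.refl {L : Language ℕ} (hL : HasFiniteAlphabet L) : IsRationalImage L L := by
  obtain ⟨X, hX⟩ := hL
  have := isRationalImage_of (L := L) ({w | ∀ a ∈ w, a ∈ X} : Language ℕ)
    (isRegular_all _) (X : Set ℕ) X.finite_toSet (fun z hz a ha => hz a ha)
    (fun a => [a]) (fun a => [a])
  refine cast (congrArg (IsRationalImage L) ?_) this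
  symm
  ext v
  constructor
  · intro hv
    exact ⟨v, hX v hv, by simpa using hv, by simp⟩
  · rintro ⟨z, hz, hL, rfl⟩
    simpa using hL

theorem IsRationalImage.finite {L K : Language ℕ} (h : IsRationalImage L K) :
    HasFiniteAlphabet K := by
  obtain ⟨Z, _, R, h, g, hR, rfl⟩ := h
  have hfin : Set.Finite (⋃ z : Z, {t | t ∈ g z}) :=
    Set.finite_iUnion fun z => List.finite_toSet _
  refine ⟨hfin.toFinset, ?_⟩
  rintro _ ⟨z, _, _, rfl⟩ a ha
  obtain ⟨y, _, hy⟩ := mem_flatMap.mp ha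
  rw [Set.Finite.mem_toFinset]
  exact Set.mem_iUnion.mpr ⟨y, hy⟩

theorem isRationalCone_images (L : Language ℕ) : IsRationalCone {K | IsRationalImage L K} :=
  ⟨fun _ hK => hK.finite, fun _ hK _ hM => hK.trans hM⟩

theorem coneGeneratedBy_eq {L : Language ℕ} (hL : HasFiniteAlphabet L) :
    coneGeneratedBy L = {K | IsRationalImage L K} := by
  ext K
  constructor
  · intro hK
    exact hK _ (isRationalCone_images L) (IsRationalImage.refl hL)
  · intro hK C hC hLC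
    exact hC.2 L hLC K hK

/-- the language `L` as a language -/
def LL : Language ℕ := {w | InL w}

theorem LL_finite : HasFiniteAlphabet LL :=
  ⟨Finset.range 5, fun _ hw a ha => Finset.mem_range.mpr (InL.lt hw a ha)⟩

theorem phi_flatMap {Z : Type} (h : Z → List ℕ) (w : List Z) :
    w.flatMap (fun z => phi (h z)) = phi (w.flatMap h) := by
  induction w with
  | nil => rfl
  | cons a w ih => simp [flatMap_cons, ih]

/-- product -/
theorem images_mul {K₁ K₂ : Language ℕ} (h₁ : IsRationalImage LL K₁) (h₂ : IsRationalImage LL K₂) :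
    IsRationalImage LL (K₁ * K₂) := by
  obtain ⟨Z₁, _, R₁, h₁, g₁, hR₁, rfl⟩ := h₁
  obtain ⟨Z₂, _, R₂, h₂, g₂, hR₂, rfl⟩ := h₂
  let Z := Fin 3 ⊕ Z₁ ⊕ Z₂
  let i₁ : Z₁ → Z := fun z => Sum.inr (Sum.inl z)
  let i₂ : Z₂ → Z := fun z => Sum.inr (Sum.inr z)
  let m : Fin 3 → Z := Sum.inl
  let h : Z → List ℕ := Sum.elim
    (fun k => if k = 0 then opn 0 0 else if k = 1 then cls 0 0 ++ opn 0 1 else cls 0 1)
    (Sum.elim (fun z => phi (h₁ z)) (fun z => phi (phi (h₂ z))))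
  let g : Z → List ℕ := Sum.elim (fun _ => []) (Sum.elim g₁ g₂)
  let A₁ : Language Z := {v | ∃ w ∈ R₁, w.flatMap (fun z => [i₁ z]) = v}
  let A₂ : Language Z := {v | ∃ w ∈ R₂, w.flatMap (fun z => [i₂ z]) = v}
  let R : Language Z := {[m 0]} * (A₁ * ({[m 1]} * (A₂ * {[m 2]})))
  have hR : R.IsRegular := by
    refine isRegular_mul (isRegular_singleton _) (isRegular_mul (isRegular_image _ hR₁)
      (isRegular_mul (isRegular_singleton _) (isRegular_mul (isRegular_image _ hR₂)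
        (isRegular_singleton _))))
  have hmem : ∀ z : List Z, z ∈ R ↔ ∃ w₁ ∈ R₁, ∃ w₂ ∈ R₂,
      z = m 0 :: (w₁.flatMap (fun z => [i₁ z]) ++ m 1 :: (w₂.flatMap (fun z => [i₂ z]) ++ [m 2])) := by
    intro z
    constructor
    · rintro ⟨_, rfl, _, ⟨_, ⟨w₁, hw₁, rfl⟩, _, ⟨_, rfl, _, ⟨_, ⟨w₂, hw₂, rfl⟩, _, rfl, rfl⟩, rfl⟩,
        rfl⟩, rfl⟩
      exact ⟨w₁, hw₁, w₂, hw₂, by simp⟩
    · rintro ⟨w₁, hw₁, w₂, hw₂, rfl⟩
      refine ⟨[m 0], rfl, _, ⟨_, ⟨w₁, hw₁, rfl⟩, _, ⟨[m 1], rfl, _, ⟨_, ⟨w₂, hw₂, rfl⟩, _, rfl, rfl⟩,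
        rfl⟩, rfl⟩, by simp⟩
  have hh : ∀ (w₁ : List Z₁) (w₂ : List Z₂),
      (m 0 :: (w₁.flatMap (fun z => [i₁ z]) ++ m 1 :: (w₂.flatMap (fun z => [i₂ z]) ++ [m 2]))
        ).flatMap h = opn 0 0 ++ (phi (w₁.flatMap h₁) ++ (cls 0 0 ++
          (opn 0 1 ++ (phi (phi (w₂.flatMap h₂)) ++ cls 0 1)))) := by
    intro w₁ w₂
    rw [flatMap_cons, flatMap_append, flatMap_cons, flatMap_append, List.flatMap_assoc,
      List.flatMap_assoc]
    have e1 : (w₁.flatMap fun z => [i₁ z].flatMap h) = phi (w₁.flatMap h₁) := by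
      rw [← phi_flatMap]
      simp [h, i₁]
    have e2 : (w₂.flatMap fun z => [i₂ z].flatMap h) = phi (phi (w₂.flatMap h₂)) := by
      rw [← phi_flatMap, ← phi_flatMap]
      simp [h, i₂]
    rw [e1, e2]
    simp [h, m]
  have hg : ∀ (w₁ : List Z₁) (w₂ : List Z₂),
      (m 0 :: (w₁.flatMap (fun z => [i₁ z]) ++ m 1 :: (w₂.flatMap (fun z => [i₂ z]) ++ [m 2]))
        ).flatMap g = w₁.flatMap g₁ ++ w₂.flatMap g₂ := by
    intro w₁ w₂
    rw [flatMap_cons, flatMap_append, flatMap_cons, flatMap_append, List.flatMap_assoc,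
      List.flatMap_assoc]
    simp [g, m, i₁, i₂]
  refine ⟨Z, inferInstance, R, h, g, hR, ?_⟩
  ext v
  constructor
  · rintro ⟨_, ⟨w₁, hw₁, hL₁, rfl⟩, _, ⟨w₂, hw₂, hL₂, rfl⟩, rfl⟩
    refine ⟨_, (hmem _).mpr ⟨w₁, hw₁, w₂, hw₂, rfl⟩, ?_, hg w₁ w₂⟩
    rw [hh]
    have h5 : InL (opn 0 1 ++ (phi (phi (w₂.flatMap h₂)) ++ (cls 0 1 ++ []))) :=
      InL.node 0 1 (InL.phi (InL.phi hL₂)) InL.nil
    rw [append_nil] at h5
    exact InL.node 0 0 (InL.phi hL₁) h5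
  · rintro ⟨z, hz, hL, rfl⟩
    obtain ⟨w₁, hw₁, w₂, hw₂, rfl⟩ := (hmem z).mp hz
    rw [hh] at hL
    obtain ⟨-, h5, h6⟩ := exact_zero (Or.inr ⟨_, rfl⟩) hL
    have h7 := exact_one h6
    exact ⟨_, ⟨w₁, hw₁, h5, rfl⟩, _, ⟨w₂, hw₂, h7, rfl⟩, (hg w₁ w₂).symm⟩

theorem all_eq_replicate {Z : Type} {a : Z} {w : List Z} (h : ∀ b ∈ w, b = a) :
    w = replicate w.length a := List.eq_replicate_iff.mpr ⟨rfl, h⟩

/-- translation -/
theorem images_translate {K : Language ℕ} (hK : IsRationalImage LL K) (a b : ℕ) :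
    IsRationalImage LL (translate a b K) := by
  obtain ⟨Z₁, _, R₁, h₁, g₁, hR₁, rfl⟩ := hK
  let Z := Fin 5 ⊕ Z₁
  let i₁ : Z₁ → Z := Sum.inr
  let m : Fin 5 → Z := Sum.inl
  let h : Z → List ℕ := Sum.elim
    (fun k => if k = 0 then [0, 4] else if k = 1 then [4] else if k = 2 then [1] else
      if k = 3 then [2, 4] else [4])
    (fun z => phi (h₁ z))
  let g : Z → List ℕ := Sum.elim
    (fun k => if k = 0 then [a] else if k = 1 then [a] else if k = 2 then [] else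
      if k = 3 then [b] else [b]) g₁
  let A₁ : Language Z := {v | ∃ w ∈ R₁, w.flatMap (fun z => [i₁ z]) = v}
  let D : Language Z := {w | ∀ c ∈ w, c = m 1}
  let E : Language Z := {w | ∀ c ∈ w, c = m 4}
  let R : Language Z := {[m 0]} * (D * ({[m 2]} * (A₁ * ({[m 3]} * E))))
  have hR : R.IsRegular := by
    refine isRegular_mul (isRegular_singleton _) (isRegular_mul (isRegular_all _)
      (isRegular_mul (isRegular_singleton _) (isRegular_mul (isRegular_image _ hR₁)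
        (isRegular_mul (isRegular_singleton _) (isRegular_all _)))))
  have hmem : ∀ z : List Z, z ∈ R ↔ ∃ n k, ∃ w ∈ R₁,
      z = m 0 :: (replicate n (m 1) ++ m 2 :: (w.flatMap (fun z => [i₁ z]) ++
        m 3 :: replicate k (m 4))) := by
    intro z
    constructor
    · rintro ⟨_, rfl, _, ⟨d, hd, _, ⟨_, rfl, _, ⟨_, ⟨w, hw, rfl⟩, _, ⟨_, rfl, e, he, rfl⟩, rfl⟩, rfl⟩,
        rfl⟩, rfl⟩
      refine ⟨d.length, e.length, w, hw, ?_⟩
      rw [← all_eq_replicate hd, ← all_eq_replicate he]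
      simp
    · rintro ⟨n, k, w, hw, rfl⟩
      refine ⟨[m 0], rfl, _, ⟨replicate n (m 1), fun c hc => eq_of_mem_replicate hc, _,
        ⟨[m 2], rfl, _, ⟨_, ⟨w, hw, rfl⟩, _, ⟨[m 3], rfl, replicate k (m 4),
          fun c hc => eq_of_mem_replicate hc, rfl⟩, rfl⟩, rfl⟩, rfl⟩, by simp⟩
  have hrep : ∀ (f : Z → List ℕ) (t : ℕ) (k : Fin 5) (n : ℕ), f (m k) = [t] →
      (replicate n (m k)).flatMap f = replicate n t := by
    intro f t k n hf
    induction n with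
    | zero => rfl
    | succ n ih => rw [replicate_succ, flatMap_cons, ih, hf, replicate_succ]; rfl
  have hh : ∀ (n k : ℕ) (w : List Z₁),
      (m 0 :: (replicate n (m 1) ++ m 2 :: (w.flatMap (fun z => [i₁ z]) ++
        m 3 :: replicate k (m 4)))).flatMap h
        = opn (n + 1) 0 ++ (phi (w.flatMap h₁) ++ (cls (k + 1) 0 ++ [])) := by
    intro n k w
    rw [flatMap_cons, flatMap_append, flatMap_cons, flatMap_append, List.flatMap_assoc,
      flatMap_cons, hrep h 4 1 n (by simp [h, m]), hrep h 4 4 k (by simp [h, m])]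
    have e1 : (w.flatMap fun z => [i₁ z].flatMap h) = phi (w.flatMap h₁) := by
      rw [← phi_flatMap]
      simp [h, i₁]
    rw [e1]
    simp [h, m, opn, cls, replicate_succ]
  have hg : ∀ (n k : ℕ) (w : List Z₁),
      (m 0 :: (replicate n (m 1) ++ m 2 :: (w.flatMap (fun z => [i₁ z]) ++
        m 3 :: replicate k (m 4)))).flatMap g
        = replicate (n + 1) a ++ w.flatMap g₁ ++ replicate (k + 1) b := by
    intro n k w
    rw [flatMap_cons, flatMap_append, flatMap_cons, flatMap_append, List.flatMap_assoc,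
      flatMap_cons, hrep g a 1 n (by simp [g, m]), hrep g b 4 k (by simp [g, m])]
    simp [g, m, i₁, replicate_succ]
  refine ⟨Z, inferInstance, R, h, g, hR, ?_⟩
  ext v
  constructor
  · rintro ⟨n, hn, f, ⟨w, hw, hL, rfl⟩, rfl⟩
    obtain ⟨n, rfl⟩ : ∃ n', n = n' + 1 := ⟨n - 1, by omega⟩
    refine ⟨_, (hmem _).mpr ⟨n, n, w, hw, rfl⟩, ?_, hg n n w⟩
    rw [hh]
    exact InL.node (n + 1) 0 (InL.phi hL) InL.nil
  · rintro ⟨z, hz, hL, rfl⟩
    obtain ⟨n, k, w, hw, rfl⟩ := (hmem z).mp hz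
    rw [hh] at hL
    obtain ⟨h5, h6, -⟩ := exact_zero (Or.inl rfl) hL
    obtain rfl : n = k := by omega
    exact ⟨n + 1, by omega, _, ⟨w, hw, h6, rfl⟩, hg n n w⟩

end Pool.Agent.Lib.MP_ead56d_lc
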