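import Mathlib
import Pool.Agent.Lib.MP_ead56d_lc.Lang
import Pool.Agent.Lib.MP_ead56d_lc.Cone

/-! Context-freeness of `LL` and of the marked palindromes. -/

namespace Pool.Agent.Lib.MP_ead56d_lc

open List

section general

variable {T N : Type}

/-- evaluation of a sentential form -/
def ev (A : N → Set (List T)) : List (Symbol T N) → Set (List T)
  | [] => {[]}
  | Symbol.terminal a :: s => {w | ∃ v ∈ ev A s, w = a :: v}
  | Symbol.nonterminal n :: s => {w | ∃ u ∈ A n, ∃ v ∈ ev A s, w = u ++ v}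

theorem mem_ev_append {A : N → Set (List T)} {s t : List (Symbol T N)} {w : List T} :
    w ∈ ev A (s ++ t) ↔ ∃ u ∈ ev A s, ∃ v ∈ ev A t, w = u ++ v := by
  induction s generalizing w with
  | nil => simp [ev]
  | cons x s ih =>
    cases x with
    | terminal a =>
      simp only [cons_append, ev, Set.mem_ofPred_eq]
      constructor
      · rintro ⟨v, hv, rfl⟩
        obtain ⟨u, hu, v', hv', rfl⟩ := ih.mp hv
        exact ⟨a :: u, ⟨u, hu, rfl⟩, v', hv', rfl⟩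
      · rintro ⟨_, ⟨u, hu, rfl⟩, v, hv, rfl⟩
        exact ⟨u ++ v, ih.mpr ⟨u, hu, v, hv, rfl⟩, rfl⟩
    | nonterminal n =>
      simp only [cons_append, ev, Set.mem_ofPred_eq]
      constructor
      · rintro ⟨u, hu, v, hv, rfl⟩
        obtain ⟨u', hu', v', hv', rfl⟩ := ih.mp hv
        exact ⟨u ++ u', ⟨u, hu, u', hu', rfl⟩, v', hv', by simp⟩
      · rintro ⟨_, ⟨u, hu, u', hu', rfl⟩, v, hv, rfl⟩
        exact ⟨u, hu, u' ++ v, ih.mpr ⟨u', hu', v, hv, rfl⟩, by simp⟩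

theorem ev_terminal (A : N → Set (List T)) (w : List T) :
    ev A (w.map Symbol.terminal) = {w} := by
  induction w with
  | nil => rfl
  | cons a w ih =>
    ext v
    simp [ev, ih]

theorem ev_single (A : N → Set (List T)) (n : N) :
    ev A [Symbol.nonterminal n] = A n := by
  ext v
  simp [ev]

theorem ev_derives {g : ContextFreeGrammar T} {A : g.NT → Set (List T)}
    (h : ∀ r ∈ g.rules, ev A r.output ⊆ A r.input) {u v : List (Symbol T g.NT)}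
    (hd : g.Derives u v) : ev A v ⊆ ev A u := by
  induction hd with
  | refl => exact subset_rfl
  | tail _ hp ih =>
    refine subset_trans ?_ ih
    obtain ⟨r, hr, hrw⟩ := hp
    obtain ⟨p, q, rfl, rfl⟩ := hrw.exists_parts
    intro w hw
    obtain ⟨_, hu, v, hv, rfl⟩ := mem_ev_append.mp hw
    obtain ⟨u₁, hu₁, u₂, hu₂, rfl⟩ := mem_ev_append.mp hu
    refine mem_ev_append.mpr ⟨_, mem_ev_append.mpr ⟨u₁, hu₁, u₂, ?_, rfl⟩, v, hv, rfl⟩
    rw [ev_single]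
    exact h r hr hu₂

/-- the language of a nonterminal -/
def lang (g : ContextFreeGrammar T) (n : g.NT) : Set (List T) :=
  {w | g.Derives [Symbol.nonterminal n] (w.map Symbol.terminal)}

theorem lang_le {g : ContextFreeGrammar T} {A : g.NT → Set (List T)}
    (h : ∀ r ∈ g.rules, ev A r.output ⊆ A r.input) (n : g.NT) : lang g n ⊆ A n := by
  intro w hw
  have := ev_derives h hw (by rw [ev_terminal]; rfl : w ∈ _)
  rwa [ev_single] at this

theorem derives_of_mem_ev {g : ContextFreeGrammar T} {s : List (Symbol T g.NT)} {w : List T}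
    (hw : w ∈ ev (lang g) s) : g.Derives s (w.map Symbol.terminal) := by
  induction s generalizing w with
  | nil =>
    obtain rfl : w = [] := hw
    exact Relation.ReflTransGen.refl
  | cons x s ih =>
    cases x with
    | terminal a =>
      obtain ⟨v, hv, rfl⟩ := hw
      exact (ih hv).append_left [Symbol.terminal a]
    | nonterminal n =>
      obtain ⟨u, hu, v, hv, rfl⟩ := hw
      rw [map_append]
      have h1 : g.Derives ([Symbol.nonterminal n] ++ s) (u.map Symbol.terminal ++ s) :=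
        ContextFreeGrammar.Derives.append_right hu s
      exact h1.trans ((ih hv).append_left _)

theorem lang_rule {g : ContextFreeGrammar T} {r : ContextFreeRule T g.NT} (hr : r ∈ g.rules) :
    ev (lang g) r.output ⊆ lang g r.input := by
  intro w hw
  have h1 : g.Produces [Symbol.nonterminal r.input] r.output :=
    ⟨r, hr, ContextFreeRule.Rewrites.input_output⟩
  exact h1.trans_derives (derives_of_mem_ev hw)

end general

/-! ### the grammar for `LL` -/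

abbrev tm (a : ℕ) : Symbol ℕ ℕ := Symbol.terminal a
abbrev nt (n : ℕ) : Symbol ℕ ℕ := Symbol.nonterminal n

def rulesL : List (ContextFreeRule ℕ ℕ) :=
  [⟨0, []⟩, ⟨0, [tm 0, nt 1, nt 0]⟩, ⟨0, [tm 0, nt 3, tm 1, nt 7]⟩,
   ⟨1, [tm 4, nt 1, tm 4]⟩, ⟨1, [nt 2]⟩,
   ⟨2, [tm 3, nt 2, tm 3]⟩, ⟨2, [tm 1, nt 0, tm 2]⟩,
   ⟨3, [tm 4, nt 3]⟩, ⟨3, [nt 4]⟩,
   ⟨4, [tm 3, nt 4]⟩, ⟨4, [nt 5]⟩,
   ⟨5, [tm 3, nt 5, tm 3]⟩, ⟨5, [tm 1, nt 0, tm 0, nt 6]⟩,
   ⟨6, [tm 4, nt 6]⟩, ⟨6, []⟩,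
   ⟨7, []⟩, ⟨7, [tm 0, nt 7]⟩, ⟨7, [tm 1, nt 7]⟩, ⟨7, [tm 2, nt 7]⟩, ⟨7, [tm 3, nt 7]⟩,
   ⟨7, [tm 4, nt 7]⟩]

def gL : ContextFreeGrammar ℕ := ⟨ℕ, 0, rulesL.toFinset⟩

def semL : ℕ → Set (List ℕ)
  | 0 => {w | InL w}
  | 1 => {w | ∃ n i s, InL s ∧ w = replicate n 4 ++ (replicate i 3 ++ ([1] ++ (s ++ ([2] ++
      (replicate i 3 ++ replicate n 4)))))}
  | 2 => {w | ∃ i s, InL s ∧ w = replicate i 3 ++ ([1] ++ (s ++ ([2] ++ replicate i 3)))}
  | 3 => {w | ∃ n i s m j, InL s ∧ j ≤ i ∧ w = replicate n 4 ++ (replicate i 3 ++ ([1] ++ (s ++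
      ([0] ++ (replicate m 4 ++ replicate j 3)))))}
  | 4 => {w | ∃ i s m j, InL s ∧ j ≤ i ∧ w = replicate i 3 ++ ([1] ++ (s ++
      ([0] ++ (replicate m 4 ++ replicate j 3))))}
  | 5 => {w | ∃ i s m, InL s ∧ w = replicate i 3 ++ ([1] ++ (s ++
      ([0] ++ (replicate m 4 ++ replicate i 3))))}
  | 6 => {w | ∃ m, w = replicate m 4}
  | 7 => {w | ∀ t ∈ w, t < 5}
  | _ => ∅

theorem replicate_snoc (n a : ℕ) : replicate n a ++ [a] = a :: replicate n a := by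
  rw [← replicate_succ', replicate_succ]

theorem semL_rule : ∀ r ∈ rulesL, ev semL r.output ⊆ semL r.input := by
  intro r hr
  simp only [rulesL, List.mem_cons, List.not_mem_nil, or_false] at hr
  rcases hr with rfl | rfl | rfl | rfl | rfl | rfl | rfl | rfl | rfl | rfl | rfl | rfl | rfl |
    rfl | rfl | rfl | rfl | rfl | rfl | rfl | rfl
  · rintro w hw
    obtain rfl : w = [] := hw
    exact InL.nil
  · rintro w ⟨_, ⟨_, ⟨n, i, s, hs, rfl⟩, _, ⟨s', hs', _, hz, rfl⟩, rfl⟩, rfl⟩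
    obtain rfl := hz
    have := InL.node n i hs hs'
    simpa [semL, opn, cls] using this
  · rintro w ⟨_, ⟨_, ⟨n, i, s, m, j, hs, hj, rfl⟩, _, ⟨_, ⟨V, hV, _, hz, rfl⟩, rfl⟩, rfl⟩, rfl⟩
    obtain rfl := hz
    have := InL.garb n i m j hs hj hV
    simpa [semL, opn, cls] using this
  · rintro w ⟨_, ⟨_, ⟨n, i, s, hs, rfl⟩, _, ⟨_, hz, rfl⟩, rfl⟩, rfl⟩
    obtain rfl := hz
    refine ⟨n + 1, i, s, hs, ?_⟩
    simp [replicate_succ, replicate_snoc]
  · rintro w ⟨_, ⟨i, s, hs, rfl⟩, _, hz, rfl⟩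
    obtain rfl := hz
    exact ⟨0, i, s, hs, by simp⟩
  · rintro w ⟨_, ⟨_, ⟨i, s, hs, rfl⟩, _, ⟨_, hz, rfl⟩, rfl⟩, rfl⟩
    obtain rfl := hz
    refine ⟨i + 1, s, hs, ?_⟩
    simp [replicate_succ, replicate_snoc]
  · rintro w ⟨_, ⟨s, hs, _, ⟨_, hz, rfl⟩, rfl⟩, rfl⟩
    obtain rfl := hz
    exact ⟨0, s, hs, by simp⟩
  · rintro w ⟨_, ⟨_, ⟨n, i, s, m, j, hs, hj, rfl⟩, _, hz, rfl⟩, rfl⟩
    obtain rfl := hz
    exact ⟨n + 1, i, s, m, j, hs, hj, by simp [replicate_succ]⟩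
  · rintro w ⟨_, ⟨i, s, m, j, hs, hj, rfl⟩, _, hz, rfl⟩
    obtain rfl := hz
    exact ⟨0, i, s, m, j, hs, hj, by simp⟩
  · rintro w ⟨_, ⟨_, ⟨i, s, m, j, hs, hj, rfl⟩, _, hz, rfl⟩, rfl⟩
    obtain rfl := hz
    exact ⟨i + 1, s, m, j, hs, by omega, by simp [replicate_succ]⟩
  · rintro w ⟨_, ⟨i, s, m, hs, rfl⟩, _, hz, rfl⟩
    obtain rfl := hz
    exact ⟨i, s, m, i, hs, le_refl _, by simp⟩
  · rintro w ⟨_, ⟨_, ⟨i, s, m, hs, rfl⟩, _, ⟨_, hz, rfl⟩, rfl⟩, rfl⟩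
    obtain rfl := hz
    exact ⟨i + 1, s, m, hs, by simp [replicate_succ, replicate_snoc]⟩
  · rintro w ⟨_, ⟨s, hs, _, ⟨_, ⟨_, ⟨m, rfl⟩, _, hz, rfl⟩, rfl⟩, rfl⟩, rfl⟩
    obtain rfl := hz
    exact ⟨0, s, m, hs, by simp⟩
  · rintro w ⟨_, ⟨_, ⟨m, rfl⟩, _, hz, rfl⟩, rfl⟩
    obtain rfl := hz
    exact ⟨m + 1, by simp [replicate_succ]⟩
  · rintro w hw
    obtain rfl : w = [] := hw
    exact ⟨0, rfl⟩
  · rintro w hw
    obtain rfl : w = [] := hw
    intro t ht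
    simp at ht
  all_goals
    rintro w ⟨_, ⟨V, hV, _, hz, rfl⟩, rfl⟩
    obtain rfl := hz
    intro t ht
    simp only [append_nil, mem_cons] at ht
    rcases ht with rfl | ht
    · omega
    · exact hV t ht

theorem gL_rules {r : ContextFreeRule ℕ ℕ} : r ∈ gL.rules ↔ r ∈ rulesL := List.mem_toFinset

def lgL (n : ℕ) : Set (List ℕ) := lang gL n

theorem gL_rule {n : ℕ} {o : List (Symbol ℕ ℕ)} (hr : (⟨n, o⟩ : ContextFreeRule ℕ ℕ) ∈ rulesL)
    {w : List ℕ} (hw : w ∈ ev lgL o) : w ∈ lgL n :=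
  lang_rule (g := gL) (gL_rules.mpr hr) hw

theorem gen_C {s : List ℕ} (hs : s ∈ lgL 0) (i : ℕ) :
    replicate i 3 ++ ([1] ++ (s ++ ([2] ++ replicate i 3))) ∈ lgL 2 := by
  induction i with
  | zero =>
    refine gL_rule (o := [tm 1, nt 0, tm 2]) (by simp [rulesL]) ?_
    exact ⟨_, ⟨s, hs, _, ⟨_, rfl, rfl⟩, rfl⟩, by simp⟩
  | succ i ih =>
    refine gL_rule (o := [tm 3, nt 2, tm 3]) (by simp [rulesL]) ?_
    exact ⟨_, ⟨_, ih, _, ⟨_, rfl, rfl⟩, rfl⟩, by simp [replicate_succ, replicate_snoc]⟩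

theorem gen_D {s : List ℕ} (hs : s ∈ lgL 0) (n i : ℕ) :
    replicate n 4 ++ (replicate i 3 ++ ([1] ++ (s ++ ([2] ++ (replicate i 3 ++
      replicate n 4))))) ∈ lgL 1 := by
  induction n with
  | zero =>
    refine gL_rule (o := [nt 2]) (by simp [rulesL]) ?_
    exact ⟨_, gen_C hs i, _, rfl, by simp⟩
  | succ i ih =>
    refine gL_rule (o := [tm 4, nt 1, tm 4]) (by simp [rulesL]) ?_
    exact ⟨_, ⟨_, ih, _, ⟨_, rfl, rfl⟩, rfl⟩, by simp [replicate_succ, replicate_snoc]⟩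

theorem gen_6 (m : ℕ) : replicate m 4 ∈ lgL 6 := by
  induction m with
  | zero => exact gL_rule (o := []) (by simp [rulesL]) rfl
  | succ i ih =>
    refine gL_rule (o := [tm 4, nt 6]) (by simp [rulesL]) ?_
    exact ⟨_, ⟨_, ih, _, rfl, rfl⟩, by simp [replicate_succ]⟩

theorem gen_5 {s : List ℕ} (hs : s ∈ lgL 0) (m j : ℕ) :
    replicate j 3 ++ ([1] ++ (s ++ ([0] ++ (replicate m 4 ++ replicate j 3)))) ∈ lgL 5 := by
  induction j with
  | zero =>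
    refine gL_rule (o := [tm 1, nt 0, tm 0, nt 6]) (by simp [rulesL]) ?_
    exact ⟨_, ⟨s, hs, _, ⟨_, ⟨_, gen_6 m, _, rfl, rfl⟩, rfl⟩, rfl⟩, by simp⟩
  | succ i ih =>
    refine gL_rule (o := [tm 3, nt 5, tm 3]) (by simp [rulesL]) ?_
    exact ⟨_, ⟨_, ih, _, ⟨_, rfl, rfl⟩, rfl⟩, by simp [replicate_succ, replicate_snoc]⟩

theorem gen_4 {s : List ℕ} (hs : s ∈ lgL 0) (m j k : ℕ) :
    replicate (j + k) 3 ++ ([1] ++ (s ++ ([0] ++ (replicate m 4 ++ replicate j 3)))) ∈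
      lgL 4 := by
  induction k with
  | zero =>
    refine gL_rule (o := [nt 5]) (by simp [rulesL]) ?_
    exact ⟨_, gen_5 hs m j, _, rfl, by simp⟩
  | succ i ih =>
    refine gL_rule (o := [tm 3, nt 4]) (by simp [rulesL]) ?_
    exact ⟨_, ⟨_, ih, _, rfl, rfl⟩, by simp [replicate_succ, ← add_assoc]⟩

theorem gen_3 {s : List ℕ} (hs : s ∈ lgL 0) (n m j k : ℕ) :
    replicate n 4 ++ (replicate (j + k) 3 ++ ([1] ++ (s ++ ([0] ++ (replicate m 4 ++
      replicate j 3))))) ∈ lgL 3 := by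
  induction n with
  | zero =>
    refine gL_rule (o := [nt 4]) (by simp [rulesL]) ?_
    exact ⟨_, gen_4 hs m j k, _, rfl, by simp⟩
  | succ i ih =>
    refine gL_rule (o := [tm 4, nt 3]) (by simp [rulesL]) ?_
    exact ⟨_, ⟨_, ih, _, rfl, rfl⟩, by simp [replicate_succ]⟩

theorem gen_7 {V : List ℕ} (hV : ∀ t ∈ V, t < 5) : V ∈ lgL 7 := by
  induction V with
  | nil => exact gL_rule (o := []) (by simp [rulesL]) rfl
  | cons a V ih =>
    have h1 := ih fun t ht => hV t (mem_cons_of_mem _ ht)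
    have h2 := hV a mem_cons_self
    refine gL_rule (o := [tm a, nt 7]) ?_ ⟨_, ⟨_, h1, _, rfl, rfl⟩, by simp⟩
    interval_cases a <;> simp [rulesL]

theorem gen_0 {w : List ℕ} (hw : InL w) : w ∈ lgL 0 := by
  induction hw with
  | nil => exact gL_rule (o := []) (by simp [rulesL]) rfl
  | node n i hs hs' ih ih' =>
    refine gL_rule (o := [tm 0, nt 1, nt 0]) (by simp [rulesL]) ?_
    exact ⟨_, ⟨_, gen_D ih n i, _, ⟨_, ih', _, rfl, rfl⟩, rfl⟩, by simp [opn, cls]⟩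
  | garb n i m j hs hj hV ih =>
    refine gL_rule (o := [tm 0, nt 3, tm 1, nt 7]) (by simp [rulesL]) ?_
    obtain ⟨k, rfl⟩ := Nat.exists_eq_add_of_le hj
    exact ⟨_, ⟨_, gen_3 ih n m j k, _, ⟨_, ⟨_, gen_7 hV, _, rfl, rfl⟩, rfl⟩, rfl⟩, by simp [opn]⟩

theorem LL_contextFree : LL.IsContextFree := by
  refine ⟨gL, ?_⟩
  ext w
  constructor
  · intro hw
    exact lang_le (g := gL) (A := semL) (fun r hr => semL_rule r (gL_rules.mp hr)) (0 : ℕ) hw
  · intro hw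
    exact gen_0 hw

/-! ### the grammar for the marked palindromes -/

def rulesP : List (ContextFreeRule ℕ ℕ) :=
  [⟨0, [tm 0, nt 0, tm 0]⟩, ⟨0, [tm 1, nt 0, tm 1]⟩, ⟨0, [tm 2]⟩]

def gP : ContextFreeGrammar ℕ := ⟨ℕ, 0, rulesP.toFinset⟩

def semP : ℕ → Set (List ℕ) := fun _ => {w | ∃ x : List ℕ, (∀ a ∈ x, a = 0 ∨ a = 1) ∧
  w = x ++ [2] ++ x.reverse}

theorem semP_rule : ∀ r ∈ rulesP, ev semP r.output ⊆ semP r.input := by
  intro r hr
  simp only [rulesP, List.mem_cons, List.not_mem_nil, or_false] at hr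
  rcases hr with rfl | rfl | rfl
  · rintro w ⟨_, ⟨_, ⟨x, hx, rfl⟩, _, ⟨_, hz, rfl⟩, rfl⟩, rfl⟩
    obtain rfl := hz
    refine ⟨0 :: x, ?_, by simp⟩
    intro a ha
    rcases mem_cons.mp ha with rfl | ha
    · simp
    · exact hx a ha
  · rintro w ⟨_, ⟨_, ⟨x, hx, rfl⟩, _, ⟨_, hz, rfl⟩, rfl⟩, rfl⟩
    obtain rfl := hz
    refine ⟨1 :: x, ?_, by simp⟩
    intro a ha
    rcases mem_cons.mp ha with rfl | ha
    · simp
    · exact hx a ha
  · rintro w ⟨_, hz, rfl⟩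
    obtain rfl := hz
    exact ⟨[], by simp, by simp⟩

theorem gP_rules {r : ContextFreeRule ℕ ℕ} : r ∈ gP.rules ↔ r ∈ rulesP := List.mem_toFinset

def lgP (n : ℕ) : Set (List ℕ) := lang gP n

theorem gP_rule {n : ℕ} {o : List (Symbol ℕ ℕ)} (hr : (⟨n, o⟩ : ContextFreeRule ℕ ℕ) ∈ rulesP)
    {w : List ℕ} (hw : w ∈ ev lgP o) : w ∈ lgP n :=
  lang_rule (g := gP) (gP_rules.mpr hr) hw

theorem gen_P {x : List ℕ} (hx : ∀ a ∈ x, a = 0 ∨ a = 1) :
    x ++ [2] ++ x.reverse ∈ lgP 0 := by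
  induction x with
  | nil =>
    refine gP_rule (o := [tm 2]) (by simp [rulesP]) ?_
    exact ⟨_, rfl, by simp⟩
  | cons a x ih =>
    have h1 := ih fun t ht => hx t (mem_cons_of_mem _ ht)
    refine gP_rule (o := [tm a, nt 0, tm a]) ?_ ⟨_, ⟨_, h1, _, ⟨_, rfl, rfl⟩, rfl⟩, by simp⟩
    rcases hx a mem_cons_self with rfl | rfl <;> simp [rulesP]

theorem markedPalindromes_contextFree : markedPalindromes.IsContextFree := by
  refine ⟨gP, ?_⟩
  ext w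
  constructor
  · intro hw
    exact lang_le (g := gP) (A := semP) (fun r hr => semP_rule r (gP_rules.mp hr)) (0 : ℕ) hw
  · rintro ⟨x, hx, rfl⟩
    exact gen_P hx

end Pool.Agent.Lib.MP_ead56d_lc
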