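import Mathlib
import Pool.Agent.Lib.MP_ead56d_lc.CFG

/-! A rational image of a context-free language is context-free. -/

namespace Pool.Agent.Lib.MP_ead56d_lc

open List

/-- big-step derivations -/
inductive Der (g : ContextFreeGrammar ℕ) : List (Symbol ℕ g.NT) → List ℕ → Prop
  | nil : Der g [] []
  | term (a : ℕ) {s w} : Der g s w → Der g (Symbol.terminal a :: s) (a :: w)
  | nont {r : ContextFreeRule ℕ g.NT} (hr : r ∈ g.rules) {s u v} : Der g r.output u → Der g s v →
      Der g (Symbol.nonterminal r.input :: s) (u ++ v)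

theorem der_nont {g : ContextFreeGrammar ℕ} {n : g.NT} {u v : List ℕ} {s : List (Symbol ℕ g.NT)}
    (h : Der g [Symbol.nonterminal n] u) (h' : Der g s v) :
    Der g (Symbol.nonterminal n :: s) (u ++ v) := by
  cases h with
  | nont hr h1 h2 =>
    cases h2
    rw [append_nil]
    exact Der.nont hr h1 h'

theorem der_iff_ev {g : ContextFreeGrammar ℕ} {s : List (Symbol ℕ g.NT)} {w : List ℕ} :
    w ∈ ev (fun n : g.NT => {w | Der g [Symbol.nonterminal n] w}) s ↔ Der g s w := by
  induction s generalizing w with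
  | nil =>
    constructor
    · intro h
      obtain rfl : w = [] := h
      exact Der.nil
    · intro h
      cases h
      rfl
  | cons x s ih =>
    cases x with
    | terminal a =>
      constructor
      · rintro ⟨v, hv, rfl⟩
        exact Der.term a (ih.mp hv)
      · intro h
        cases h with
        | term a h => exact ⟨_, ih.mpr h, rfl⟩
    | nonterminal n =>
      constructor
      · rintro ⟨u, hu, v, hv, rfl⟩
        exact der_nont hu (ih.mp hv)
      · intro h
        cases h with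
        | nont hr h1 h2 =>
          rename_i u v
          refine ⟨u, ?_, v, ih.mpr h2, rfl⟩
          have := Der.nont hr h1 Der.nil
          rwa [append_nil] at this

theorem der_of_lang {g : ContextFreeGrammar ℕ} {n : g.NT} {w : List ℕ} (h : w ∈ lang g n) :
    Der g [Symbol.nonterminal n] w := by
  refine lang_le (A := fun n : g.NT => {w | Der g [Symbol.nonterminal n] w}) ?_ n h
  intro r hr w hw
  have := Der.nont hr (der_iff_ev.mp hw) Der.nil
  rwa [append_nil] at this

theorem Der.derives {g : ContextFreeGrammar ℕ} {s : List (Symbol ℕ g.NT)} {w : List ℕ}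
    (h : Der g s w) : g.Derives s (w.map Symbol.terminal) := by
  induction h with
  | nil => exact Relation.ReflTransGen.refl
  | term a _ ih => exact ih.append_left [Symbol.terminal a]
  | nont hr h1 h2 ih1 ih2 =>
    rename_i r s u v
    rw [map_append]
    have h1 : g.Produces ([Symbol.nonterminal r.input] ++ s) (r.output ++ s) :=
      ContextFreeGrammar.Produces.append_right
        ⟨r, hr, ContextFreeRule.Rewrites.input_output⟩ s
    exact (h1.trans_derives (ih1.append_right s)).trans (ih2.append_left _)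

section triple

variable {σ : Type} (g : ContextFreeGrammar ℕ) (M : DFA (ℕ ⊕ ℕ) σ) (F : Set (ℕ ⊕ ℕ))

abbrev TN := Option (σ × List (Symbol ℕ g.NT) × σ)

def tri (p : σ) (s : List (Symbol ℕ g.NT)) (q : σ) : Option (σ × List (Symbol ℕ g.NT) × σ) :=
  some (p, s, q)

/-- the sentential forms in use: suffixes of right-hand sides -/
def Sfx : Set (List (Symbol ℕ g.NT)) :=
  {s | s <:+ [Symbol.nonterminal g.initial]} ∪ ⋃ r ∈ (g.rules : Set (ContextFreeRule ℕ g.NT)),
    {s | s <:+ r.output}

theorem Sfx_finite : (Sfx g).Finite := by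
  have h : ∀ t : List (Symbol ℕ g.NT), {s | s <:+ t}.Finite := by
    intro t
    refine (t.tails.finite_toSet).subset ?_
    intro s hs
    exact (mem_tails _ _).mpr hs
  refine (h _).union ?_
  exact (Finset.finite_toSet _).biUnion fun r _ => h _

variable {g} in
theorem Sfx_tail {x : Symbol ℕ g.NT} {s : List (Symbol ℕ g.NT)} (h : x :: s ∈ Sfx g) :
    s ∈ Sfx g := by
  rcases h with h | h
  · left
    exact (suffix_cons x s).trans h
  · right
    simp only [Set.mem_iUnion] at h ⊢
    obtain ⟨r, hr, h⟩ := h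
    exact ⟨r, hr, (suffix_cons x s).trans h⟩

variable {g} in
theorem Sfx_output {r : ContextFreeRule ℕ g.NT} (hr : r ∈ g.rules) : r.output ∈ Sfx g := by
  right
  simp only [Set.mem_iUnion]
  exact ⟨r, hr, suffix_rfl⟩

theorem Sfx_start : [Symbol.nonterminal g.initial] ∈ Sfx g := Or.inl suffix_rfl

/-- the rules of the triple construction -/
inductive TRule : ContextFreeRule ℕ (Option (σ × List (Symbol ℕ g.NT) × σ)) → Prop
  | start (q : σ) (hq : q ∈ M.accept) :
      TRule ⟨none, [Symbol.nonterminal (tri g M.start [Symbol.nonterminal g.initial] q)]⟩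
  | nil (p : σ) : TRule ⟨tri g p [] p, []⟩
  | write (p q : σ) (s : List (Symbol ℕ g.NT)) (b : ℕ) (hs : s ∈ Sfx g) (hb : Sum.inr b ∈ F) :
      TRule ⟨tri g p s q, [Symbol.terminal b, Symbol.nonterminal (tri g (M.step p (Sum.inr b)) s q)]⟩
  | read (p q : σ) (s : List (Symbol ℕ g.NT)) (a : ℕ) (hs : Symbol.terminal a :: s ∈ Sfx g)
      (ha : Sum.inl a ∈ F) : TRule ⟨tri g p (Symbol.terminal a :: s) q,
        [Symbol.nonterminal (tri g (M.step p (Sum.inl a)) s q)]⟩
  | expand (p p' q : σ) (s : List (Symbol ℕ g.NT)) (r : ContextFreeRule ℕ g.NT) (hr : r ∈ g.rules)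
      (hs : Symbol.nonterminal r.input :: s ∈ Sfx g) :
      TRule ⟨tri g p (Symbol.nonterminal r.input :: s) q,
        [Symbol.nonterminal (tri g p r.output p'), Symbol.nonterminal (tri g p' s q)]⟩

theorem TRule_finite [Finite σ] (hF : F.Finite) :
    {r : ContextFreeRule ℕ (Option (σ × List (Symbol ℕ g.NT) × σ)) | TRule g M F r}.Finite := by
  have h1 : (⋃ q : σ, {(⟨none, [Symbol.nonterminal (tri g M.start
      [Symbol.nonterminal g.initial] q)]⟩ :
      ContextFreeRule ℕ (Option (σ × List (Symbol ℕ g.NT) × σ)))}).Finite :=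
    Set.finite_iUnion fun q => Set.finite_singleton _
  have h2 : (⋃ p : σ, {(⟨tri g p [] p, []⟩ :
      ContextFreeRule ℕ (Option (σ × List (Symbol ℕ g.NT) × σ)))}).Finite :=
    Set.finite_iUnion fun q => Set.finite_singleton _
  have h3 : (⋃ p : σ, ⋃ q : σ, ⋃ s ∈ Sfx g, ⋃ b ∈ F, {(⟨tri g p s q,
      b.elim (fun _ => []) (fun b => [Symbol.terminal b, Symbol.nonterminal
        (tri g (M.step p (Sum.inr b)) s q)])⟩ :
      ContextFreeRule ℕ (Option (σ × List (Symbol ℕ g.NT) × σ)))}).Finite :=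
    Set.finite_iUnion fun p => Set.finite_iUnion fun q => (Sfx_finite g).biUnion fun s _ =>
      hF.biUnion fun b _ => Set.finite_singleton _
  have h4 : (⋃ p : σ, ⋃ q : σ, ⋃ s ∈ Sfx g, ⋃ b ∈ F, {(⟨tri g p s q,
      b.elim (fun a => [Symbol.nonterminal (tri g (M.step p (Sum.inl a)) s.tail q)])
        (fun _ => [])⟩ :
      ContextFreeRule ℕ (Option (σ × List (Symbol ℕ g.NT) × σ)))}).Finite :=
    Set.finite_iUnion fun p => Set.finite_iUnion fun q => (Sfx_finite g).biUnion fun s _ =>
      hF.biUnion fun b _ => Set.finite_singleton _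
  have h5 : (⋃ p : σ, ⋃ p' : σ, ⋃ q : σ, ⋃ s ∈ Sfx g,
      ⋃ r ∈ (g.rules : Set (ContextFreeRule ℕ g.NT)), {(⟨tri g p s q,
      [Symbol.nonterminal (tri g p r.output p'), Symbol.nonterminal (tri g p' s.tail q)]⟩ :
      ContextFreeRule ℕ (Option (σ × List (Symbol ℕ g.NT) × σ)))}).Finite :=
    Set.finite_iUnion fun p => Set.finite_iUnion fun p' => Set.finite_iUnion fun q =>
      (Sfx_finite g).biUnion fun s _ =>
      (Finset.finite_toSet _).biUnion fun b _ => Set.finite_singleton _
  refine (((((h1.union h2).union h3).union h4).union h5)).subset ?_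
  rintro r (⟨q, hq⟩ | ⟨p⟩ | ⟨p, q, s, b, hs, hb⟩ | ⟨p, q, s, a, hs, ha⟩ | ⟨p, p', q, s, r, hr, hs⟩)
  · refine Or.inl (Or.inl (Or.inl (Or.inl ?_)))
    simp only [Set.mem_iUnion]
    exact ⟨q, rfl⟩
  · refine Or.inl (Or.inl (Or.inl (Or.inr ?_)))
    simp only [Set.mem_iUnion]
    exact ⟨p, rfl⟩
  · refine Or.inl (Or.inl (Or.inr ?_))
    simp only [Set.mem_iUnion]
    exact ⟨p, q, s, hs, _, hb, rfl⟩
  · refine Or.inl (Or.inr ?_)
    simp only [Set.mem_iUnion]
    exact ⟨p, q, _, hs, _, ha, rfl⟩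
  · refine Or.inr ?_
    simp only [Set.mem_iUnion]
    exact ⟨p, p', q, _, hs, r, hr, rfl⟩

/-- the grammar of the triple construction -/
noncomputable def triG [Finite σ] (hF : F.Finite) : ContextFreeGrammar ℕ where
  NT := Option (σ × List (Symbol ℕ g.NT) × σ)
  initial := none
  rules := (TRule_finite g M F hF).toFinset

/-- the meaning of the nonterminals -/
def triSem : Option (σ × List (Symbol ℕ g.NT) × σ) → Set (List ℕ)
  | none => {v | ∃ z : List (ℕ ⊕ ℕ), (∀ a ∈ z, a ∈ F) ∧ M.evalFrom M.start z ∈ M.accept ∧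
      Der g [Symbol.nonterminal g.initial] (rd z) ∧ wr z = v}
  | some (p, s, q) => {v | ∃ z : List (ℕ ⊕ ℕ), (∀ a ∈ z, a ∈ F) ∧ M.evalFrom p z = q ∧
      Der g s (rd z) ∧ wr z = v}

theorem triSem_rule {r : ContextFreeRule ℕ (Option (σ × List (Symbol ℕ g.NT) × σ))}
    (hr : TRule g M F r) : ev (triSem g M F) r.output ⊆ triSem g M F r.input := by
  rcases hr with (⟨q, hq⟩ | ⟨p⟩ | ⟨p, q, s, b, hs, hb⟩ | ⟨p, q, s, a, hs, ha⟩ |
    ⟨p, p', q, s, r, hr, hs⟩)
  · rintro w ⟨_, ⟨z, hz, h1, h2, rfl⟩, _, hw, rfl⟩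
    obtain rfl := hw
    exact ⟨z, hz, h1 ▸ hq, h2, by simp⟩
  · rintro w hw
    obtain rfl : w = [] := hw
    exact ⟨[], by simp, rfl, Der.nil, rfl⟩
  · rintro w ⟨_, ⟨_, ⟨z, hz, h1, h2, rfl⟩, _, hw, rfl⟩, rfl⟩
    obtain rfl := hw
    refine ⟨Sum.inr b :: z, ?_, ?_, ?_, ?_⟩
    · intro a ha
      rcases mem_cons.mp ha with rfl | ha
      · exact hb
      · exact hz a ha
    · rw [DFA.evalFrom_cons]
      exact h1
    · rw [rd_inr]; exact h2
    · simp
  · rintro w ⟨_, ⟨z, hz, h1, h2, rfl⟩, _, hw, rfl⟩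
    obtain rfl := hw
    refine ⟨Sum.inl a :: z, ?_, ?_, ?_, ?_⟩
    · intro b hb
      rcases mem_cons.mp hb with rfl | hb
      · exact ha
      · exact hz b hb
    · rw [DFA.evalFrom_cons]
      exact h1
    · rw [rd_inl]; exact Der.term a h2
    · simp
  · rintro w ⟨_, ⟨z, hz, h1, h2, rfl⟩, _, ⟨_, ⟨z', hz', h1', h2', rfl⟩, _, hw, rfl⟩, rfl⟩
    obtain rfl := hw
    refine ⟨z ++ z', ?_, ?_, ?_, ?_⟩
    · intro b hb
      rcases mem_append.mp hb with hb | hb
      · exact hz b hb
      · exact hz' b hb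
    · rw [DFA.evalFrom_of_append, h1]
      exact h1'
    · rw [rd_append]; exact Der.nont hr h2 h2'
    · simp

variable {g M F}

/-- the language of a nonterminal of the new grammar -/
def triL [Finite σ] (hF : F.Finite) (n : Option (σ × List (Symbol ℕ g.NT) × σ)) : Set (List ℕ) :=
  lang (triG g M F hF) n

theorem triL_rule [Finite σ] (hF : F.Finite) {n : Option (σ × List (Symbol ℕ g.NT) × σ)}
    {o : List (Symbol ℕ (Option (σ × List (Symbol ℕ g.NT) × σ)))} (hr : TRule g M F ⟨n, o⟩)
    {w : List ℕ} (hw : w ∈ ev (triL (g := g) (M := M) hF) o) : w ∈ triL (g := g) (M := M) hF n := by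
  have h : (⟨n, o⟩ : ContextFreeRule ℕ (Option (σ × List (Symbol ℕ g.NT) × σ))) ∈
      (triG g M F hF).rules := by
    change _ ∈ (TRule_finite g M F hF).toFinset
    rw [Set.Finite.mem_toFinset]
    exact hr
  exact lang_rule h hw

theorem tri_write [Finite σ] (hF : F.Finite) {p q : σ} {s : List (Symbol ℕ g.NT)} {b : ℕ}
    (hs : s ∈ Sfx g) (hb : Sum.inr b ∈ F) {w : List ℕ}
    (hw : w ∈ triL (g := g) (M := M) hF (tri g (M.step p (Sum.inr b)) s q)) :
    b :: w ∈ triL (g := g) (M := M) hF (tri g p s q) :=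
  triL_rule hF (TRule.write p q s b hs hb) ⟨_, ⟨_, hw, _, rfl, rfl⟩, by simp⟩

theorem tri_complete [Finite σ] (hF : F.Finite) {s : List (Symbol ℕ g.NT)} {w : List ℕ}
    (hd : Der g s w) : s ∈ Sfx g → ∀ (z : List (ℕ ⊕ ℕ)) (p : σ), (∀ a ∈ z, a ∈ F) → rd z = w →
    wr z ∈ triL (g := g) (M := M) hF (tri g p s (M.evalFrom p z)) := by
  induction hd with
  | nil =>
    intro hs z
    induction z with
    | nil => intro p _ _; exact triL_rule hF (TRule.nil p) rfl
    | cons x z ih =>
      intro p hz hr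
      cases x with
      | inl a => simp at hr
      | inr b =>
        rw [wr_inr, DFA.evalFrom_cons]
        refine tri_write hF hs (hz _ mem_cons_self) ?_
        exact ih _ (fun a ha => hz a (mem_cons_of_mem _ ha)) (by simpa using hr)
  | term a hd ih =>
    intro hs z
    induction z with
    | nil => intro p _ hr; simp at hr
    | cons x z ihz =>
      intro p hz hr
      cases x with
      | inl a' =>
        rw [rd_inl] at hr
        obtain ⟨rfl, hr'⟩ := List.cons.inj hr
        rw [wr_inl, DFA.evalFrom_cons]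
        refine triL_rule hF (TRule.read p _ _ _ hs (hz _ mem_cons_self))
          ⟨wr z, ?_, _, rfl, (append_nil _).symm⟩
        exact ih (Sfx_tail hs) z _ (fun a ha => hz a (mem_cons_of_mem _ ha)) hr'
      | inr b =>
        rw [wr_inr, DFA.evalFrom_cons]
        refine tri_write hF hs (hz _ mem_cons_self) ?_
        exact ihz _ (fun a ha => hz a (mem_cons_of_mem _ ha)) (by simpa using hr)
  | nont hr h1 h2 ih1 ih2 =>
    intro hs z p hz hrd
    obtain ⟨z₁, z₂, rfl, h3, h4⟩ := rd_split hrd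
    rw [wr_append, DFA.evalFrom_of_append]
    refine triL_rule hF (TRule.expand p (M.evalFrom p z₁) _ _ _ hr hs)
      ⟨wr z₁, ?_, _, ⟨wr z₂, ?_, _, rfl, rfl⟩, by simp⟩
    · exact ih1 (Sfx_output hr) z₁ p (fun a ha => hz a (mem_append_left _ ha)) h3
    · exact ih2 (Sfx_tail hs) z₂ _ (fun a ha => hz a (mem_append_right _ ha)) h4

end triple

/-- A rational image of a context-free language is context-free. -/
theorem IsRationalImage.contextFree {L K : Language ℕ} (hL : L.IsContextFree)
    (h : IsRationalImage L K) : K.IsContextFree := by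
  obtain ⟨g, rfl⟩ := hL
  obtain ⟨R, ⟨σ, hσ, M, rfl⟩, ⟨F, hF, hRF⟩, rfl⟩ := h.normal
  refine ⟨triG g M F hF, ?_⟩
  have hR : ∀ z, z ∈ M.accepts ↔ M.evalFrom M.start z ∈ M.accept := fun z => Iff.rfl
  ext v
  constructor
  · intro hv
    have h1 := lang_le (g := triG g M F hF) (A := triSem g M F) (fun r hr => triSem_rule g M F
      ((Set.Finite.mem_toFinset (TRule_finite g M F hF)).mp hr)) none hv
    obtain ⟨z, hz, h1, h2, rfl⟩ := h1
    exact ⟨z, (hR z).mpr h1, h2.derives, rfl⟩
  · rintro ⟨z, hz, h1, rfl⟩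
    change wr z ∈ triL (g := g) (M := M) hF none
    refine triL_rule hF (TRule.start _ ((hR z).mp hz)) ⟨wr z, ?_, _, rfl, (append_nil _).symm⟩
    exact tri_complete hF (der_of_lang h1) (Sfx_start g) z _ (hRF z hz) rfl

end Pool.Agent.Lib.MP_ead56d_lc
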