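import Mathlib
import Pool.Agent.Lib.MP_ead56d_lc.Cone

/-! Runs of a transducer in normal form; pumping of runs on unary words. -/

namespace Pool.Agent.Lib.MP_ead56d_lc

open List

variable {σ : Type} (M : DFA (ℕ ⊕ ℕ) σ)

/-- there is a run from `p` to `q` that reads `u` and writes `v` -/
def Reach (p : σ) (u v : List ℕ) (q : σ) : Prop :=
  ∃ z, rd z = u ∧ wr z = v ∧ M.evalFrom p z = q

variable {M}

theorem Reach.refl (p : σ) : Reach M p [] [] p := ⟨[], rfl, rfl, rfl⟩

theorem Reach.comp {p q r : σ} {u u' v v' : List ℕ} (h : Reach M p u v q) (h' : Reach M q u' v' r) :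
    Reach M p (u ++ u') (v ++ v') r := by
  obtain ⟨z, rfl, rfl, rfl⟩ := h
  obtain ⟨z', rfl, rfl, rfl⟩ := h'
  exact ⟨z ++ z', by simp, by simp, by rw [DFA.evalFrom_of_append]⟩

theorem Reach.split_rd {p q : σ} {u₁ u₂ v : List ℕ} (h : Reach M p (u₁ ++ u₂) v q) :
    ∃ r v₁ v₂, v = v₁ ++ v₂ ∧ Reach M p u₁ v₁ r ∧ Reach M r u₂ v₂ q := by
  obtain ⟨z, hz, rfl, rfl⟩ := h
  obtain ⟨z₁, z₂, rfl, rfl, rfl⟩ := rd_split hz
  exact ⟨M.evalFrom p z₁, wr z₁, wr z₂, by simp, ⟨z₁, rfl, rfl, rfl⟩,
    ⟨z₂, rfl, rfl, by rw [DFA.evalFrom_of_append]⟩⟩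

theorem Reach.split_wr {p q : σ} {u v₁ v₂ : List ℕ} (h : Reach M p u (v₁ ++ v₂) q) :
    ∃ r u₁ u₂, u = u₁ ++ u₂ ∧ Reach M p u₁ v₁ r ∧ Reach M r u₂ v₂ q := by
  obtain ⟨z, rfl, hz, rfl⟩ := h
  obtain ⟨z₁, z₂, rfl, rfl, rfl⟩ := wr_split hz
  exact ⟨M.evalFrom p z₁, rd z₁, rd z₂, by simp, ⟨z₁, rfl, rfl, rfl⟩,
    ⟨z₂, rfl, rfl, by rw [DFA.evalFrom_of_append]⟩⟩

/-- `k` steps, beginning with step `i` -/
def acc (o : ℕ → List ℕ) : ℕ → ℕ → List ℕ
  | _, 0 => []
  | i, k + 1 => o i ++ acc o (i + 1) k

theorem acc_add (o : ℕ → List ℕ) (i k l : ℕ) : acc o i (k + l) = acc o i k ++ acc o (i + k) l := by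
  induction k generalizing i with
  | zero => simp [acc]
  | succ k ih =>
    rw [show k + 1 + l = (k + l) + 1 by omega, acc, ih, acc, append_assoc,
      show i + 1 + k = i + (k + 1) by omega]

theorem acc_one (o : ℕ → List ℕ) (i : ℕ) : acc o i 1 = o i := by simp [acc]

theorem mem_acc {o : ℕ → List ℕ} {i k t : ℕ} : t ∈ acc o i k ↔ ∃ j, i ≤ j ∧ j < i + k ∧ t ∈ o j := by
  induction k generalizing i with
  | zero => simp [acc]; intro j h1 h2; omega
  | succ k ih =>
    rw [acc, mem_append, ih]
    constructor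
    · rintro (h | ⟨j, h1, h2, h3⟩)
      · exact ⟨i, le_refl _, by omega, h⟩
      · exact ⟨j, by omega, by omega, h3⟩
    · rintro ⟨j, h1, h2, h3⟩
      rcases Nat.eq_or_lt_of_le h1 with rfl | h
      · left; exact h3
      · right; exact ⟨j, h, by omega, h3⟩

theorem acc_reach {t : ℕ} {s : ℕ → σ} {o : ℕ → List ℕ} {i k : ℕ}
    (h : ∀ j, i ≤ j → j < i + k → Reach M (s j) [t] (o j) (s (j + 1))) :
    Reach M (s i) (replicate k t) (acc o i k) (s (i + k)) := by
  induction k generalizing i with
  | zero => exact Reach.refl _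
  | succ k ih =>
    have h1 := h i (le_refl _) (by omega)
    have h2 := ih (i := i + 1) (fun j h1 h2 => h j (by omega) (by omega))
    have := h1.comp h2
    rw [show i + 1 + k = i + (k + 1) by omega] at this
    exact this

/-- decomposing a run on `tⁿ⁺¹` into single steps -/
theorem steps {t : ℕ} {n : ℕ} {p q : σ} {y : List ℕ} (h : Reach M p (replicate (n + 1) t) y q) :
    ∃ (s : ℕ → σ) (o : ℕ → List ℕ), s 0 = p ∧ s (n + 1) = q ∧
      (∀ i, i < n + 1 → Reach M (s i) [t] (o i) (s (i + 1))) ∧ y = acc o 0 (n + 1) := by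
  induction n generalizing p y with
  | zero =>
    refine ⟨fun i => if i = 0 then p else q, fun _ => y, by simp, by simp, ?_, by simp [acc]⟩
    intro i hi
    obtain rfl : i = 0 := by omega
    simpa using h
  | succ n ih =>
    have h' : Reach M p ([t] ++ replicate (n + 1) t) y q := h
    obtain ⟨r, v₁, v₂, rfl, h1, h2⟩ := h'.split_rd
    obtain ⟨s, o, hs0, hs1, hst, rfl⟩ := ih h2
    refine ⟨fun i => if i = 0 then p else s (i - 1), fun i => if i = 0 then v₁ else o (i - 1),
      by simp, by simpa using hs1, ?_, ?_⟩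
    · intro i hi
      rcases i with _ | i
      · simpa [hs0] using h1
      · simpa using hst i (by omega)
    · have : ∀ k i, acc (fun i => if i = 0 then v₁ else o (i - 1)) (i + 1) k = acc o i k := by
        intro k
        induction k with
        | zero => intro i; rfl
        | succ k ih => intro i; rw [acc, acc, ih]; simp
      conv_rhs => rw [acc, this]
      simp

theorem reach_pow {t : ℕ} {q : ℕ} {r : σ} {v : List ℕ} (h : Reach M r (replicate q t) v r) (m : ℕ) :
    Reach M r (replicate (m * q) t) (replicate m v).flatten r := by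
  induction m with
  | zero => simpa using Reach.refl r
  | succ m ih =>
    have := h.comp ih
    rw [← replicate_add] at this
    rw [show (m + 1) * q = q + m * q by ring]
    simpa [replicate_succ] using this

/-- pumping up -/
theorem pump [Fintype σ] {t n : ℕ} {p q : σ} {y : List ℕ} (hn : Fintype.card σ ≤ n)
    (h : Reach M p (replicate n t) y q) :
    ∃ P, 1 ≤ P ∧ ∀ k, ∃ y', Reach M p (replicate (n + k * P) t) y' q ∧ (2 ∉ y → 2 ∉ y') := by
  have hpos : 0 < Fintype.card σ := Fintype.card_pos_iff.mpr ⟨p⟩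
  obtain ⟨n, rfl⟩ : ∃ n', n = n' + 1 := ⟨n - 1, by omega⟩
  obtain ⟨s, o, rfl, rfl, hst, rfl⟩ := steps h
  obtain ⟨a, b, hab, hs⟩ := Fintype.exists_ne_map_eq_of_card_lt
    (fun i : Fin (Fintype.card σ + 1) => s i.val) (by simp)
  wlog hlt : a.val < b.val generalizing a b
  · exact this b a hab.symm hs.symm (by
      have : a.val ≠ b.val := fun h => hab (Fin.ext h)
      omega)
  have hb := b.isLt
  have h1 : Reach M (s 0) (replicate a.val t) (acc o 0 a.val) (s a.val) := by
    have := acc_reach (M := M) (s := s) (o := o) (t := t) (i := 0) (k := a.val)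
      (fun j _ h2 => hst j (by omega))
    simpa using this
  have h2 : Reach M (s a.val) (replicate (b.val - a.val) t) (acc o a.val (b.val - a.val))
      (s a.val) := by
    have := acc_reach (M := M) (s := s) (o := o) (t := t) (i := a.val) (k := b.val - a.val)
      (fun j _ h2 => hst j (by omega))
    rw [show a.val + (b.val - a.val) = b.val by omega] at this
    have hs' : s a.val = s b.val := hs
    rw [← hs'] at this
    exact this
  have h3 : Reach M (s a.val) (replicate (n + 1 - a.val) t) (acc o a.val (n + 1 - a.val))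
      (s (n + 1)) := by
    have := acc_reach (M := M) (s := s) (o := o) (t := t) (i := a.val) (k := n + 1 - a.val)
      (fun j _ h2 => hst j (by omega))
    rw [show a.val + (n + 1 - a.val) = n + 1 by omega] at this
    exact this
  refine ⟨b.val - a.val, by omega, fun k => ⟨acc o 0 a.val ++
    ((replicate k (acc o a.val (b.val - a.val))).flatten ++ acc o a.val (n + 1 - a.val)), ?_, ?_⟩⟩
  · have := h1.comp ((reach_pow h2 k).comp h3)
    rw [← replicate_add, ← replicate_add] at this
    rw [show n + 1 + k * (b.val - a.val) = a.val + (k * (b.val - a.val) + (n + 1 - a.val)) by omega]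
    exact this
  · intro hy
    have hy' : ∀ j, j < n + 1 → 2 ∉ o j := by
      intro j hj h
      exact hy (mem_acc.mpr ⟨j, by omega, by omega, h⟩)
    simp only [mem_append, mem_flatten, mem_replicate, not_or]
    refine ⟨?_, ?_, ?_⟩
    · intro h; obtain ⟨j, h1, h2, h3⟩ := mem_acc.mp h; exact hy' j (by omega) h3
    · rintro ⟨l, ⟨_, rfl⟩, h⟩
      obtain ⟨j, h1, h2, h3⟩ := mem_acc.mp h; exact hy' j (by omega) h3
    · intro h; obtain ⟨j, h1, h2, h3⟩ := mem_acc.mp h; exact hy' j (by omega) h3

/-- pumping down -/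
theorem shorten [Fintype σ] {t n : ℕ} {p q : σ} {y : List ℕ}
    (h : Reach M p (replicate n t) y q) :
    ∃ n' y', n' ≤ Fintype.card σ ∧ Reach M p (replicate n' t) y' q ∧ (2 ∉ y → 2 ∉ y') := by
  induction n using Nat.strong_induction_on generalizing y with
  | _ n ih =>
    by_cases hn : n ≤ Fintype.card σ
    · exact ⟨n, y, hn, h, id⟩
    · obtain ⟨n, rfl⟩ : ∃ n', n = n' + 1 := ⟨n - 1, by omega⟩
      obtain ⟨s, o, rfl, rfl, hst, rfl⟩ := steps h
      obtain ⟨a, b, hab, hs⟩ := Fintype.exists_ne_map_eq_of_card_lt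
        (fun i : Fin (Fintype.card σ + 1) => s i.val) (by simp)
      wlog hlt : a.val < b.val generalizing a b
      · exact this b a hab.symm hs.symm (by
          have : a.val ≠ b.val := fun h => hab (Fin.ext h)
          omega)
      have hb := b.isLt
      have h1 : Reach M (s 0) (replicate a.val t) (acc o 0 a.val) (s a.val) := by
        have := acc_reach (M := M) (s := s) (o := o) (t := t) (i := 0) (k := a.val)
          (fun j _ h2 => hst j (by omega))
        simpa using this
      have h3 : Reach M (s a.val) (replicate (n + 1 - b.val) t) (acc o b.val (n + 1 - b.val))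
          (s (n + 1)) := by
        have := acc_reach (M := M) (s := s) (o := o) (t := t) (i := b.val) (k := n + 1 - b.val)
          (fun j _ h2 => hst j (by omega))
        rw [show b.val + (n + 1 - b.val) = n + 1 by omega] at this
        have hs' : s a.val = s b.val := hs
        rw [hs']
        exact this
      have h4 := h1.comp h3
      rw [← replicate_add] at h4
      obtain ⟨n', y', hn', hr, h2⟩ := ih (a.val + (n + 1 - b.val)) (by omega) h4
      refine ⟨n', y', hn', hr, fun hy => h2 ?_⟩
      have hy' : ∀ j, j < n + 1 → 2 ∉ o j := by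
        intro j hj h
        exact hy (mem_acc.mpr ⟨j, by omega, by omega, h⟩)
      simp only [mem_append, not_or]
      refine ⟨?_, ?_⟩
      · intro h; obtain ⟨j, h1, h2, h3⟩ := mem_acc.mp h; exact hy' j (by omega) h3
      · intro h; obtain ⟨j, h1, h2, h3⟩ := mem_acc.mp h; exact hy' j (by omega) h3

end Pool.Agent.Lib.MP_ead56d_lc
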