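import Mathlib
import Pool.Agent.Lib.MP_ead56d_lc.Reach

/-! The run lemma: a run on a unary word whose output is unique for infinitely many lengths cannot
write a long factor of an aperiodic word. -/

namespace Pool.Agent.Lib.MP_ead56d_lc

open List

variable {σ : Type} {M : DFA (ℕ ⊕ ℕ) σ}

/-- the letter `1` occurs in every factor of length `V + 2`, and two occurrences of `1` have at
least `V` letters between them -/
def Sep (V : ℕ) (x : List ℕ) : Prop :=
  (∀ u w v, x = u ++ (w ++ v) → V + 2 ≤ w.length → 1 ∈ w) ∧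
  (∀ u w v, x = u ++ (1 :: (w ++ 1 :: v)) → V ≤ w.length)

theorem Sep.factor {V : ℕ} {x a b c : List ℕ} (h : Sep V x) (hx : x = a ++ (b ++ c)) :
    Sep V b := by
  refine ⟨fun u w v hb hw => ?_, fun u w v hb => ?_⟩
  · exact h.1 (a ++ u) w (v ++ c) (by rw [hx, hb]; simp) hw
  · exact h.2 (a ++ u) w (v ++ c) (by rw [hx, hb]; simp)

/-- `K` bounds all outputs over the word class `W` that are forced to be unique -/
def Bd (M : DFA (ℕ ⊕ ℕ) σ) (K : ℕ) (W : Set (List ℕ)) : Prop :=
  ∀ p q, (∀ η η' : List ℕ, 2 ∉ η → 2 ∉ η' → (∃ u ∈ W, Reach M p u η q) →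
    (∃ u ∈ W, Reach M p u η' q) → η = η') →
    ∀ η : List ℕ, 2 ∉ η → (∃ u ∈ W, Reach M p u η q) → η.length ≤ K

theorem Bd.mono {K K' : ℕ} {W : Set (List ℕ)} (h : Bd M K W) (hK : K ≤ K') : Bd M K' W :=
  fun p q hu η hη hr => (h p q hu η hη hr).trans hK

theorem exists_Bd [Fintype σ] (M : DFA (ℕ ⊕ ℕ) σ) (W : Set (List ℕ)) : ∃ K, Bd M K W := by
  classical
  have h1 : ∀ pq : σ × σ, ∃ K, ∀ η : List ℕ, (∀ η η' : List ℕ, 2 ∉ η → 2 ∉ η' →
      (∃ u ∈ W, Reach M pq.1 u η pq.2) → (∃ u ∈ W, Reach M pq.1 u η' pq.2) → η = η') →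
      2 ∉ η → (∃ u ∈ W, Reach M pq.1 u η pq.2) → η.length ≤ K := by
    intro pq
    by_cases h : ∃ η : List ℕ, 2 ∉ η ∧ ∃ u ∈ W, Reach M pq.1 u η pq.2
    · obtain ⟨η₀, h1, h2⟩ := h
      refine ⟨η₀.length, fun η hu h3 h4 => ?_⟩
      rw [hu η η₀ h3 h1 h4 h2]
    · refine ⟨0, fun η _ h3 h4 => absurd ⟨η, h3, h4⟩ h⟩
  choose f hf using h1
  refine ⟨Finset.univ.sup f, fun p q hu η hη hr => ?_⟩
  exact (hf (p, q) η hu hη hr).trans (Finset.le_sup (f := f) (Finset.mem_univ (p, q)))

theorem length_flatten_replicate (m : ℕ) (v : List ℕ) :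
    (replicate m v).flatten.length = m * v.length := by
  simp

/-- a word that is a proper power overlap violates `Sep` -/
theorem sep_overlap {V : ℕ} {B v₁ v₂ : List ℕ} {e e' : ℕ} (hsep : Sep V B)
    (hv₁ : v₁ ≠ []) (hlv : v₁.length ≤ V) (hB : 2 * V + 4 ≤ B.length) (he : B.length ≤ e)
    (h : (replicate e v₁).flatten ++ B = B ++ (replicate e' v₂).flatten) : False := by
  have hpos : 0 < v₁.length := List.length_pos_iff.mpr hv₁
  have hlen : B.length ≤ (replicate e v₁).flatten.length := by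
    rw [length_flatten_replicate]
    nlinarith
  -- `B` is a prefix of `v₁ ^ e`
  obtain ⟨C, hC⟩ : ∃ C, (replicate e v₁).flatten = B ++ C := by
    rcases append_eq_append_iff.mp h with ⟨c, h1, h2⟩ | ⟨c, h1, h2⟩
    · have : c = [] := by
        have := congrArg List.length h1
        simp only [length_append] at this
        rw [← List.length_eq_zero_iff]
        omega
      exact ⟨[], by rw [h1, this]; simp⟩
    · exact ⟨c, h1⟩
  obtain ⟨e, rfl⟩ : ∃ e₀, e = e₀ + 1 := ⟨e - 1, by omega⟩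
  have h1 : v₁ ++ (replicate e v₁).flatten = B ++ C := by
    rw [← hC, replicate_succ, flatten_cons]
  have h2 : (replicate e v₁).flatten ++ v₁ = B ++ C := by
    rw [← hC, replicate_succ', flatten_append]; simp
  -- `B = v₁ ++ B'`
  obtain ⟨B', hB'⟩ : ∃ B', B = v₁ ++ B' := by
    rcases append_eq_append_iff.mp h1 with ⟨c, h3, h4⟩ | ⟨c, h3, h4⟩
    · exact ⟨c, h3⟩
    · refine ⟨[], ?_⟩
      have : c = [] := by
        have := congrArg List.length h3
        simp only [length_append] at this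
        rw [← List.length_eq_zero_iff]
        omega
      rw [h3, this]; simp
  have h3 : (replicate e v₁).flatten = B' ++ C := by
    rw [hB', append_assoc] at h1
    exact append_cancel_left h1
  -- `B' ` is a prefix of `B`
  obtain ⟨D, hD⟩ : ∃ D, B = B' ++ D := by
    rw [h3, append_assoc] at h2
    rcases append_eq_append_iff.mp h2 with ⟨c, h4, h5⟩ | ⟨c, h4, h5⟩
    · exact ⟨c, h4⟩
    · refine ⟨[], ?_⟩
      have : c = [] := by
        have h6 := congrArg List.length h4
        have h7 := congrArg List.length hB'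
        simp only [length_append] at h6 h7
        rw [← List.length_eq_zero_iff]
        omega
      rw [h4, this]; simp
  have hlB' : B'.length + v₁.length = B.length := by
    have h7 := congrArg List.length hB'
    simp only [length_append] at h7
    omega
  -- first occurrence of `1`
  have h1B : 1 ∈ B.take (V + 2) := by
    refine hsep.1 [] (B.take (V + 2)) (B.drop (V + 2)) (by simp) ?_
    rw [length_take]; omega
  obtain ⟨u₁, u₂, hu⟩ := append_of_mem h1B
  have hlu : u₁.length + 1 ≤ V + 2 := by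
    have h6 := congrArg List.length hu
    simp only [length_take, length_append, length_cons] at h6
    omega
  have hBu : B = u₁ ++ 1 :: (u₂ ++ B.drop (V + 2)) := by
    conv_lhs => rw [← take_append_drop (V + 2) B, hu]
    simp
  generalize u₂ ++ B.drop (V + 2) = u₃ at hBu
  -- the same position in `B'`
  have h5 : B' ++ D = u₁ ++ 1 :: u₃ := by rw [← hD]; exact hBu
  obtain ⟨c, hc⟩ : ∃ c, B' = u₁ ++ 1 :: c := by
    rcases append_eq_append_iff.mp h5 with ⟨c, h6, h7⟩ | ⟨c, h6, h7⟩
    · exfalso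
      have h8 := congrArg List.length h6
      simp only [length_append] at h8
      omega
    · rcases c with _ | ⟨z, c⟩
      · exfalso
        rw [append_nil] at h6
        rw [h6] at hlB'
        omega
      · simp only [cons_append, cons.injEq] at h7
        exact ⟨c, by rw [h6, h7.1]⟩
  have h6 : u₁ ++ 1 :: u₃ = (v₁ ++ u₁) ++ 1 :: c := by
    rw [← hBu, hB', hc, append_assoc]
  rcases append_eq_append_iff.mp h6 with ⟨d, h7, h8⟩ | ⟨d, h7, h8⟩
  · rcases d with _ | ⟨z, d⟩
    · have h9 := congrArg List.length h7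
      simp only [length_append, length_nil] at h9
      omega
    · simp only [cons_append, cons.injEq] at h8
      obtain ⟨rfl, h8⟩ := h8
      have h9 := hsep.2 u₁ d c (by rw [hBu, h8])
      have h10 := congrArg List.length h7
      simp only [length_append, length_cons] at h10
      omega
  · have h9 := congrArg List.length h7
    simp only [length_append] at h9
    omega

theorem run_bound [Fintype σ] {V K t n : ℕ} {p q : σ} {y : List ℕ} (hK : 1 ≤ K)
    (hV : V = (Fintype.card σ + 1) * K) (hB : Bd M K {[t]}) (hB0 : Bd M K {[]})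
    (hr : Reach M p (replicate n t) y q) (hy : 2 ∉ y) (hsep : Sep V y)
    (hU0 : ∀ η η' : List ℕ, 2 ∉ η → 2 ∉ η' → Reach M p (replicate n t) η q →
      Reach M p (replicate n t) η' q → η = η')
    (hU : Fintype.card σ ≤ n → ∃ P, 1 ≤ P ∧ ∀ k, ∀ η η' : List ℕ, 2 ∉ η → 2 ∉ η' →
      Reach M p (replicate (n + k * P) t) η q → Reach M p (replicate (n + k * P) t) η' q →
      η = η') : y.length ≤ 4 * V + 4 := by
  have hKV : K ≤ V := by rw [hV]; nlinarith
  rcases n with _ | n
  · have : y.length ≤ K := by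
      refine hB0 p q ?_ y hy ⟨[], rfl, hr⟩
      rintro η η' h h' ⟨_, rfl, h1⟩ ⟨_, rfl, h2⟩
      exact hU0 η η' h h' h1 h2
    omega
  obtain ⟨s, o, rfl, rfl, hst, rfl⟩ := steps hr
  have ho : ∀ i, i < n + 1 → 2 ∉ o i := fun i hi h => hy (mem_acc.mpr ⟨i, by omega, by omega, h⟩)
  have hacc : ∀ i k, i + k ≤ n + 1 → 2 ∉ acc o i k := by
    intro i k hik h
    obtain ⟨j, h1, h2, h3⟩ := mem_acc.mp h
    exact ho j (by omega) h3
  have hreach : ∀ i k, i + k ≤ n + 1 → Reach M (s i) (replicate k t) (acc o i k) (s (i + k)) :=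
    fun i k hik => acc_reach (fun j h1 h2 => hst j (by omega))
  -- single steps
  have hstep : ∀ i, i < n + 1 → (o i).length ≤ K := by
    intro i hi
    refine hB (s i) (s (i + 1)) ?_ (o i) (ho i hi) ⟨[t], rfl, hst i hi⟩
    have key : ∀ η, Reach M (s i) [t] η (s (i + 1)) → Reach M (s 0) (replicate (n + 1) t)
        (acc o 0 i ++ (η ++ acc o (i + 1) (n - i))) (s (n + 1)) := by
      intro η hη
      have h1 := hreach 0 i (by omega)
      rw [Nat.zero_add] at h1
      have h2 := hreach (i + 1) (n - i) (by omega)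
      rw [show i + 1 + (n - i) = n + 1 by omega] at h2
      have h3 := h1.comp (hη.comp h2)
      rw [show ([t] : List ℕ) = replicate 1 t from rfl, ← replicate_add, ← replicate_add] at h3
      rw [show n + 1 = i + (1 + (n - i)) by omega]
      rw [show i + (1 + (n - i)) = n + 1 by omega] at h3 ⊢
      exact h3
    rintro η η' h h' ⟨_, rfl, h1⟩ ⟨_, rfl, h2⟩
    have h4 : ∀ η : List ℕ, 2 ∉ η → 2 ∉ acc o 0 i ++ (η ++ acc o (i + 1) (n - i)) := by
      intro η hη
      simp only [mem_append, not_or]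
      exact ⟨hacc 0 i (by omega), hη, hacc _ _ (by omega)⟩
    have h3 := hU0 _ _ (h4 η h) (h4 η' h') (key η h1) (key η' h2)
    exact append_cancel_right (append_cancel_left h3)
  -- lengths
  let l : ℕ → ℕ := fun i => (acc o 0 i).length
  have hl0 : l 0 = 0 := by simp [l, acc]
  have hls : ∀ i, l (i + 1) = l i + (o i).length := by
    intro i
    simp only [l]
    rw [acc_add, acc_one, length_append, Nat.zero_add]
  have hlsub : ∀ i k, (acc o i k).length = l (i + k) - l i := by
    intro i k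
    simp only [l]
    rw [acc_add, length_append, Nat.zero_add]
    omega
  have hmono : ∀ i j, i ≤ j → l i ≤ l j := by
    intro i j hij
    obtain ⟨k, rfl⟩ := Nat.exists_eq_add_of_le hij
    simp only [l]
    rw [acc_add, length_append]
    omega
  have hlK : ∀ i, i ≤ n + 1 → l i ≤ i * K := by
    intro i
    induction i with
    | zero => intro _; simp [hl0]
    | succ i ih =>
      intro hi
      rw [hls]
      have h1 := ih (by omega)
      have h2 := hstep i (by omega)
      nlinarith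
  by_cases hn : n + 1 < Fintype.card σ
  · have h1 := hlK (n + 1) (le_refl _)
    have h2 : (n + 1) * K ≤ V := by rw [hV]; nlinarith
    change l (n + 1) ≤ _
    omega
  obtain ⟨P, hP, hU⟩ := hU (by omega)
  by_contra hcon
  have hcon' : 4 * V + 4 < l (n + 1) := by
    change ¬ (l (n + 1) ≤ 4 * V + 4) at hcon
    omega
  -- discrete intermediate value
  have hivt : ∀ h, h ≤ l (n + 1) → ∃ i, i ≤ n + 1 ∧ h ≤ l i ∧ l i < h + K := by
    intro h hh
    have hex : ∃ i, h ≤ l i := ⟨n + 1, hh⟩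
    classical
    refine ⟨Nat.find hex, Nat.find_min' hex hh, Nat.find_spec hex, ?_⟩
    by_cases h0 : Nat.find hex = 0
    · rw [h0, hl0]; omega
    · obtain ⟨i, hi⟩ : ∃ i, Nat.find hex = i + 1 := ⟨Nat.find hex - 1, by omega⟩
      have h1 : ¬ h ≤ l i := Nat.find_min hex (by omega)
      have h2 : Nat.find hex ≤ n + 1 := Nat.find_min' hex hh
      rw [hi, hls]
      have := hstep i (by omega)
      omega
  have hloop : ∀ B₀, B₀ + Fintype.card σ * K ≤ l (n + 1) → ∃ a b, a < b ∧ b ≤ n + 1 ∧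
      s a = s b ∧ B₀ ≤ l a ∧ l b < B₀ + V ∧ l a < l b := by
    intro B₀ hB₀
    have h1 : ∀ j : Fin (Fintype.card σ + 1), ∃ i, i ≤ n + 1 ∧ B₀ + j.val * K ≤ l i ∧
        l i < B₀ + j.val * K + K := by
      intro j
      apply hivt
      have := j.isLt
      have : j.val * K ≤ Fintype.card σ * K := Nat.mul_le_mul_right _ (by omega)
      omega
    choose idx hidx using h1
    obtain ⟨a, b, hab, hs⟩ := Fintype.exists_ne_map_eq_of_card_lt
      (fun j : Fin (Fintype.card σ + 1) => s (idx j)) (by simp)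
    wlog hlt : a.val < b.val generalizing a b
    · exact this b a hab.symm hs.symm (by
        have : a.val ≠ b.val := fun h => hab (Fin.ext h)
        omega)
    obtain ⟨ha1, ha2, ha3⟩ := hidx a
    obtain ⟨hb1, hb2, hb3⟩ := hidx b
    have h2 : a.val * K + K ≤ b.val * K := by
      have : (a.val + 1) * K ≤ b.val * K := Nat.mul_le_mul_right _ (by omega)
      nlinarith
    have h3 : b.val * K + K ≤ V := by
      have := b.isLt
      have : (b.val + 1) * K ≤ (Fintype.card σ + 1) * K := Nat.mul_le_mul_right _ (by omega)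
      rw [hV]; nlinarith
    refine ⟨idx a, idx b, ?_, hb1, hs, by omega, by omega, by omega⟩
    by_contra hle
    have := hmono (idx b) (idx a) (by omega)
    omega
  have hcV : Fintype.card σ * K ≤ V := by rw [hV]; nlinarith
  obtain ⟨a₁, b₁, hab₁, hb₁, hs₁, hl₁, hl₁', hl₁''⟩ := hloop 0 (by omega)
  obtain ⟨a₂, b₂, hab₂, hb₂, hs₂, hl₂, hl₂', hl₂''⟩ := hloop (3 * V + 4) (by omega)
  have hba : b₁ < a₂ := by
    by_contra hle
    have := hmono a₂ b₁ (by omega)
    omega
  -- the pieces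
  have r0 := hreach 0 a₁ (by omega)
  rw [Nat.zero_add] at r0
  have r1 := hreach a₁ (b₁ - a₁) (by omega)
  rw [show a₁ + (b₁ - a₁) = b₁ by omega, ← hs₁] at r1
  have r2 := hreach b₁ (a₂ - b₁) (by omega)
  rw [show b₁ + (a₂ - b₁) = a₂ by omega, ← hs₁] at r2
  have r3 := hreach a₂ (b₂ - a₂) (by omega)
  rw [show a₂ + (b₂ - a₂) = b₂ by omega, ← hs₂] at r3
  have r4 := hreach b₂ (n + 1 - b₂) (by omega)
  rw [show b₂ + (n + 1 - b₂) = n + 1 by omega, ← hs₂] at r4
  have m0 := hacc 0 a₁ (by omega)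
  have m1 := hacc a₁ (b₁ - a₁) (by omega)
  have m2 := hacc b₁ (a₂ - b₁) (by omega)
  have m3 := hacc a₂ (b₂ - a₂) (by omega)
  have m4 := hacc b₂ (n + 1 - b₂) (by omega)
  have l1 := hlsub a₁ (b₁ - a₁)
  rw [show a₁ + (b₁ - a₁) = b₁ by omega] at l1
  have l2 := hlsub b₁ (a₂ - b₁)
  rw [show b₁ + (a₂ - b₁) = a₂ by omega] at l2
  have l3 := hlsub a₂ (b₂ - a₂)
  rw [show a₂ + (b₂ - a₂) = b₂ by omega] at l3
  have hyfac : acc o 0 (n + 1) = (acc o 0 a₁ ++ acc o a₁ (b₁ - a₁)) ++
      (acc o b₁ (a₂ - b₁) ++ (acc o a₂ (b₂ - a₂) ++ acc o b₂ (n + 1 - b₂))) := by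
    have e1 : acc o 0 (n + 1) = acc o 0 (a₁ + ((b₁ - a₁) + ((a₂ - b₁) + ((b₂ - a₂) +
      (n + 1 - b₂))))) := by congr 1; omega
    rw [e1, acc_add, acc_add, acc_add, acc_add]
    rw [show 0 + a₁ = a₁ by omega, show a₁ + (b₁ - a₁) = b₁ by omega,
      show b₁ + (a₂ - b₁) = a₂ by omega, show a₂ + (b₂ - a₂) = b₂ by omega]
    simp
  set Y₀ := acc o 0 a₁
  set v₁ := acc o a₁ (b₁ - a₁)
  set B := acc o b₁ (a₂ - b₁)
  set v₂ := acc o a₂ (b₂ - a₂)
  set Y₃ := acc o b₂ (n + 1 - b₂)
  have hsepB : Sep V B := hsep.factor hyfac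
  obtain ⟨q₁, hq₁⟩ : ∃ q₁, b₁ - a₁ = q₁ := ⟨_, rfl⟩
  obtain ⟨q₂, hq₂⟩ : ∃ q₂, b₂ - a₂ = q₂ := ⟨_, rfl⟩
  rw [hq₁] at r1
  rw [hq₂] at r3
  have hq₁' : 1 ≤ q₁ := by omega
  have hq₂' : 1 ≤ q₂ := by omega
  have key := hU (q₁ * q₂ * B.length)
    (Y₀ ++ ((replicate (q₂ * B.length * P + 1) v₁).flatten ++ (B ++ (v₂ ++ Y₃))))
    (Y₀ ++ (v₁ ++ (B ++ ((replicate (q₁ * B.length * P + 1) v₂).flatten ++ Y₃))))
    (by
      simp only [mem_append, mem_flatten, mem_replicate, not_or]
      refine ⟨m0, ?_, m2, m3, m4⟩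
      rintro ⟨l, ⟨_, rfl⟩, h⟩
      exact m1 h)
    (by
      simp only [mem_append, mem_flatten, mem_replicate, not_or]
      refine ⟨m0, m1, m2, ?_, m4⟩
      rintro ⟨l, ⟨_, rfl⟩, h⟩
      exact m3 h)
    (by
      have := r0.comp ((reach_pow r1 (q₂ * B.length * P + 1)).comp (r2.comp (r3.comp r4)))
      rw [← replicate_add, ← replicate_add, ← replicate_add, ← replicate_add] at this
      have e : n + 1 + q₁ * q₂ * B.length * P = a₁ + ((q₂ * B.length * P + 1) * q₁ +
          (a₂ - b₁ + (q₂ + (n + 1 - b₂)))) := by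
        have : (q₂ * B.length * P + 1) * q₁ = q₁ * q₂ * B.length * P + q₁ := by ring
        rw [this]; omega
      rw [e]
      exact this)
    (by
      have := r0.comp (r1.comp (r2.comp ((reach_pow r3 (q₁ * B.length * P + 1)).comp r4)))
      rw [← replicate_add, ← replicate_add, ← replicate_add, ← replicate_add] at this
      have e : n + 1 + q₁ * q₂ * B.length * P = a₁ + (q₁ + (a₂ - b₁ +
          ((q₁ * B.length * P + 1) * q₂ + (n + 1 - b₂)))) := by
        have : (q₁ * B.length * P + 1) * q₂ = q₁ * q₂ * B.length * P + q₂ := by ring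
        rw [this]; omega
      rw [e]
      exact this)
  have key2 := append_cancel_left key
  rw [replicate_succ, flatten_cons, append_assoc] at key2
  have key3 := append_cancel_left key2
  have e2 : (replicate (q₁ * B.length * P + 1) v₂).flatten =
      (replicate (q₁ * B.length * P) v₂).flatten ++ v₂ := by
    rw [replicate_succ', flatten_append]; simp
  rw [e2] at key3
  have key4 : ((replicate (q₂ * B.length * P) v₁).flatten ++ B) ++ (v₂ ++ Y₃) =
      (B ++ (replicate (q₁ * B.length * P) v₂).flatten) ++ (v₂ ++ Y₃) := by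
    simpa using key3
  have key5 := append_cancel_right key4
  refine sep_overlap hsepB ?_ ?_ ?_ ?_ key5
  · intro h0
    rw [h0] at l1
    simp at l1
    omega
  · omega
  · omega
  · have h1 : 1 ≤ q₂ * P := Nat.mul_pos hq₂' hP
    nlinarith

end Pool.Agent.Lib.MP_ead56d_lc
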