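import Mathlib
import Pool.Agent.Lib.MP_ead56d_lc.Run

/-! The marked palindromes are not a rational image of the language `L`. -/

namespace Pool.Agent.Lib.MP_ead56d_lc

open List

variable {σ : Type} {M : DFA (ℕ ⊕ ℕ) σ}

theorem first2 {u v u' v' : List ℕ} (hu : 2 ∉ u) (hu' : 2 ∉ u') (h : u ++ 2 :: v = u' ++ 2 :: v') :
    u = u' ∧ v = v' := by
  rcases append_eq_append_iff.mp h with ⟨c, h1, h2⟩ | ⟨c, h1, h2⟩
  · rcases c with _ | ⟨z, c⟩
    · simp at h1 h2; exact ⟨h1.symm, h2⟩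
    · simp only [cons_append, cons.injEq] at h2
      obtain ⟨rfl, _⟩ := h2
      exact absurd (by rw [h1]; simp) hu'
  · rcases c with _ | ⟨z, c⟩
    · simp at h1 h2; exact ⟨h1, h2.symm⟩
    · simp only [cons_append, cons.injEq] at h2
      obtain ⟨rfl, _⟩ := h2
      exact absurd (by rw [h1]; simp) hu

theorem pal_split {A T : List ℕ} (hA : 2 ∉ A) (h : A ++ T ∈ markedPalindromes) :
    ∃ c : List ℕ, 2 ∉ c ∧ T = c ++ 2 :: (A ++ c).reverse := by
  obtain ⟨x, hx, h⟩ := h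
  have hx2 : 2 ∉ x := by
    intro h2
    rcases hx 2 h2 with h3 | h3 <;> omega
  have h' : A ++ T = x ++ 2 :: x.reverse := by rw [h]; simp
  rcases append_eq_append_iff.mp h' with ⟨c, h1, h2⟩ | ⟨c, h1, h2⟩
  · refine ⟨c, ?_, ?_⟩
    · intro h3; exact hx2 (by rw [h1]; simp [h3])
    · rw [h2, h1]
  · rcases c with _ | ⟨z, c⟩
    · simp only [append_nil, nil_append] at h1 h2
      exact ⟨[], by simp, by rw [← h2, h1]; simp⟩
    · simp only [cons_append, cons.injEq] at h2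
      obtain ⟨rfl, _⟩ := h2
      exact absurd (by rw [h1]; simp) hA

theorem pal_unique {A η η' T : List ℕ} (hA : 2 ∉ A) (h : 2 ∉ η) (h' : 2 ∉ η')
    (h1 : A ++ (η ++ T) ∈ markedPalindromes) (h2 : A ++ (η' ++ T) ∈ markedPalindromes) :
    η = η' := by
  rw [← append_assoc] at h1 h2
  obtain ⟨c, hc, h3⟩ := pal_split (by simp [hA, h]) h1
  obtain ⟨c', hc', h4⟩ := pal_split (by simp [hA, h']) h2
  obtain ⟨rfl, h5⟩ := first2 hc hc' (h3.symm.trans h4)
  have h6 := reverse_injective h5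
  exact append_cancel_left (append_cancel_right h6)

/-- where is the marker? -/
theorem loc {a b z₁ z₂ : List ℕ} (h : z₁ ++ 2 :: z₂ = a ++ b) :
    (∃ c, a = z₁ ++ 2 :: c ∧ z₂ = c ++ b) ∨ (∃ z₁', z₁ = a ++ z₁' ∧ z₁' ++ 2 :: z₂ = b) := by
  rcases append_eq_append_iff.mp h with ⟨c, h1, h2⟩ | ⟨c, h1, h2⟩
  · rcases c with _ | ⟨z, c⟩
    · right
      simp only [append_nil, nil_append] at h1 h2
      exact ⟨[], by simp [h1], by simpa using h2⟩
    · left
      simp only [cons_append, cons.injEq] at h2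
      obtain ⟨rfl, h2⟩ := h2
      exact ⟨c, h1, h2⟩
  · right
    exact ⟨c, h1, h2.symm⟩

def Acc (l : ℕ) (w : List ℕ) : Prop :=
  InL w ∨ ∃ j < l, ∃ s m V, InL s ∧ (∀ t ∈ V, t < 5) ∧ w = s ++ (opn m j ++ V)

def Env (M : DFA (ℕ ⊕ ℕ) σ) (l : ℕ) (p q : σ) (X Y : List ℕ) : Prop :=
  ∀ w, Acc l w → ∀ z, Reach M p w z q → X ++ (z ++ Y) ∈ markedPalindromes

theorem bnd {l : ℕ} {p q : σ} {X Y : List ℕ} (hE : Env M l p q X Y) {K : ℕ} {W : Set (List ℕ)}
    (hB : Bd M K W) {α β A η T u : List ℕ} {r₁ r₂ : σ} (hα : Reach M p α A r₁) (hu : u ∈ W)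
    (hη : Reach M r₁ u η r₂) (hβ : Reach M r₂ β T q) (hX : 2 ∉ X) (hA : 2 ∉ A) (h2 : 2 ∉ η)
    (hAcc : ∀ u' ∈ W, Acc l (α ++ (u' ++ β))) : η.length ≤ K := by
  refine hB r₁ r₂ ?_ η h2 ⟨u, hu, hη⟩
  rintro η₁ η₂ h1 h1' ⟨u₁, hu₁, hr₁⟩ ⟨u₂, hu₂, hr₂⟩
  have k1 := hE _ (hAcc u₁ hu₁) _ (hα.comp (hr₁.comp hβ))
  have k2 := hE _ (hAcc u₂ hu₂) _ (hα.comp (hr₂.comp hβ))
  refine pal_unique (A := X ++ A) (T := T ++ Y) (by simp [hX, hA]) h1 h1' ?_ ?_
  · simpa using k1
  · simpa using k2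

theorem bnd_run [Fintype σ] {l : ℕ} {p q : σ} {X Y : List ℕ} (hE : Env M l p q X Y) {K V t : ℕ}
    (hK : 1 ≤ K) (hV : V = (Fintype.card σ + 1) * K)
    (hB : Bd M K {[t]}) (hB0 : Bd M K {[]}) {n : ℕ} {η : List ℕ} {r₁ r₂ : σ}
    (hη : Reach M r₁ (replicate n t) η r₂) (hX : 2 ∉ X) (h2 : 2 ∉ η) (hsep : Sep V η)
    (h0 : ∃ α A β T, Reach M p α A r₁ ∧ Reach M r₂ β T q ∧ 2 ∉ A ∧
      Acc l (α ++ (replicate n t ++ β)))
    (hP : Fintype.card σ ≤ n → ∃ P, 1 ≤ P ∧ ∀ k, ∃ α A β T, Reach M p α A r₁ ∧ Reach M r₂ β T q ∧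
      2 ∉ A ∧ Acc l (α ++ (replicate (n + k * P) t ++ β))) : η.length ≤ 4 * V + 4 := by
  refine run_bound hK hV hB hB0 hη h2 hsep ?_ ?_
  · obtain ⟨α, A, β, T, hα, hβ, hA, hacc⟩ := h0
    intro η₁ η₂ h1 h1' hr₁ hr₂
    have k1 := hE _ hacc _ (hα.comp (hr₁.comp hβ))
    have k2 := hE _ hacc _ (hα.comp (hr₂.comp hβ))
    refine pal_unique (A := X ++ A) (T := T ++ Y) (by simp [hX, hA]) h1 h1' ?_ ?_
    · simpa using k1
    · simpa using k2
  · intro hn
    obtain ⟨P, hP1, hP⟩ := hP hn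
    refine ⟨P, hP1, fun k η₁ η₂ h1 h1' hr₁ hr₂ => ?_⟩
    obtain ⟨α, A, β, T, hα, hβ, hA, hacc⟩ := hP k
    have k1 := hE _ hacc _ (hα.comp (hr₁.comp hβ))
    have k2 := hE _ hacc _ (hα.comp (hr₂.comp hβ))
    refine pal_unique (A := X ++ A) (T := T ++ Y) (by simp [hX, hA]) h1 h1' ?_ ?_
    · simpa using k1
    · simpa using k2

/-- a prefix of `tⁿ` is `tⁿ¹` -/
theorem rep_append {t n : ℕ} {u₁ u₂ : List ℕ} (h : replicate n t = u₁ ++ u₂) :
    ∃ n₁ n₂, n = n₁ + n₂ ∧ u₁ = replicate n₁ t ∧ u₂ = replicate n₂ t := by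
  refine ⟨u₁.length, u₂.length, ?_, ?_, ?_⟩
  · have := congrArg List.length h; simpa using this
  · rw [List.eq_replicate_iff]
    exact ⟨rfl, fun b hb => eq_of_mem_replicate (h ▸ mem_append_left _ hb)⟩
  · rw [List.eq_replicate_iff]
    exact ⟨rfl, fun b hb => eq_of_mem_replicate (h ▸ mem_append_right _ hb)⟩

theorem bnd_run_part [Fintype σ] {l : ℕ} {p q : σ} {X Y : List ℕ} (hE : Env M l p q X Y)
    {K V t : ℕ} (hK : 1 ≤ K) (hV : V = (Fintype.card σ + 1) * K)
    (hB : Bd M K {[t]}) (hB0 : Bd M K {[]}) {n : ℕ} {η c : List ℕ} {r₁ r₂ : σ}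
    (hη : Reach M r₁ (replicate n t) (η ++ 2 :: c) r₂) (hX : 2 ∉ X) (h2 : 2 ∉ η) (hsep : Sep V η)
    (h0 : ∃ α A β T, Reach M p α A r₁ ∧ Reach M r₂ β T q ∧ 2 ∉ A ∧
      Acc l (α ++ (replicate n t ++ β)))
    (hP : Fintype.card σ ≤ n → ∃ P, 1 ≤ P ∧ ∀ k, ∃ α A β T, Reach M p α A r₁ ∧ Reach M r₂ β T q ∧
      2 ∉ A ∧ Acc l (α ++ (replicate (n + k * P) t ++ β))) : η.length ≤ 4 * V + 4 := by
  obtain ⟨r, u₁, u₂, hu, hr₁, hr₂⟩ := hη.split_wr
  obtain ⟨n₁, n₂, rfl, rfl, rfl⟩ := rep_append hu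
  have e : ∀ (a b : ℕ) (β : List ℕ), replicate a t ++ (replicate b t ++ β)
      = replicate (a + b) t ++ β := by
    intro a b β; rw [replicate_add, append_assoc]
  refine bnd_run hE hK hV hB hB0 hr₁ hX h2 hsep ?_ ?_
  · obtain ⟨α, A, β, T, hα, hβ, hA, hacc⟩ := h0
    exact ⟨α, A, replicate n₂ t ++ β, (2 :: c) ++ T, hα, hr₂.comp hβ, hA, by rw [e]; exact hacc⟩
  · intro hn
    obtain ⟨P, hP1, hP⟩ := hP (by omega)
    refine ⟨P, hP1, fun k => ?_⟩
    obtain ⟨α, A, β, T, hα, hβ, hA, hacc⟩ := hP k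
    refine ⟨α, A, replicate n₂ t ++ β, (2 :: c) ++ T, hα, hr₂.comp hβ, hA, ?_⟩
    rw [e, show n₁ + k * P + n₂ = n₁ + n₂ + k * P by omega]
    exact hacc

/-- the constants -/
structure Consts [Fintype σ] (M : DFA (ℕ ⊕ ℕ) σ) (K V : ℕ) : Prop where
  hK : 1 ≤ K
  hV : V = (Fintype.card σ + 1) * K
  hL : Bd M K {w | InL w}
  hS : Bd M K {w | ∀ t ∈ w, t < 5}
  h0 : Bd M K {[]}
  h1 : ∀ t, t < 5 → Bd M K {[t]}

theorem exists_Consts [Fintype σ] (M : DFA (ℕ ⊕ ℕ) σ) : ∃ K V, Consts M K V := by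
  obtain ⟨K₁, h₁⟩ := exists_Bd M {w | InL w}
  obtain ⟨K₂, h₂⟩ := exists_Bd M {w | ∀ t ∈ w, t < 5}
  obtain ⟨K₃, h₃⟩ := exists_Bd M {[]}
  obtain ⟨K₄, h₄⟩ := exists_Bd M {[0]}
  obtain ⟨K₅, h₅⟩ := exists_Bd M {[1]}
  obtain ⟨K₆, h₆⟩ := exists_Bd M {[2]}
  obtain ⟨K₇, h₇⟩ := exists_Bd M {[3]}
  obtain ⟨K₈, h₈⟩ := exists_Bd M {[4]}
  refine ⟨1 + K₁ + K₂ + K₃ + K₄ + K₅ + K₆ + K₇ + K₈, _, by omega, rfl, h₁.mono (by omega),
    h₂.mono (by omega), h₃.mono (by omega), ?_⟩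
  intro t ht
  interval_cases t
  · exact h₄.mono (by omega)
  · exact h₅.mono (by omega)
  · exact h₆.mono (by omega)
  · exact h₇.mono (by omega)
  · exact h₈.mono (by omega)

theorem bnd_letter {l : ℕ} {p q : σ} {X Y : List ℕ} (hE : Env M l p q X Y) {K t : ℕ}
    (hB : Bd M K {[t]}) {α β A η T : List ℕ} {r₁ r₂ : σ} (hα : Reach M p α A r₁)
    (hη : Reach M r₁ [t] η r₂) (hβ : Reach M r₂ β T q) (hX : 2 ∉ X) (hA : 2 ∉ A) (h2 : 2 ∉ η)
    (hAcc : Acc l (α ++ ([t] ++ β))) : η.length ≤ K :=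
  bnd hE hB hα rfl hη hβ hX hA h2 (by rintro _ rfl; exact hAcc)

theorem bnd_letter_part {l : ℕ} {p q : σ} {X Y : List ℕ} (hE : Env M l p q X Y) {K t : ℕ}
    (hB : Bd M K {[t]}) (hB0 : Bd M K {[]}) {α β A η T c : List ℕ} {r₁ r₂ : σ}
    (hα : Reach M p α A r₁)
    (hη : Reach M r₁ [t] (η ++ 2 :: c) r₂) (hβ : Reach M r₂ β T q) (hX : 2 ∉ X) (hA : 2 ∉ A)
    (h2 : 2 ∉ η) (hAcc : Acc l (α ++ ([t] ++ β))) : η.length ≤ K := by
  obtain ⟨r, u₁, u₂, hu, hr₁, hr₂⟩ := hη.split_wr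
  have hu' : replicate 1 t = u₁ ++ u₂ := hu
  obtain ⟨n₁, n₂, h12, rfl, rfl⟩ := rep_append hu'
  rcases n₁ with _ | n₁
  · obtain rfl : n₂ = 1 := by omega
    exact bnd hE hB0 hα rfl hr₁ (hr₂.comp hβ) hX hA h2 (by rintro _ rfl; exact hAcc)
  · obtain ⟨rfl, rfl⟩ : n₁ = 0 ∧ n₂ = 0 := by omega
    exact bnd hE hB hα rfl hr₁ (hr₂.comp hβ) hX hA h2 (by rintro _ rfl; exact hAcc)

theorem main [Fintype σ] {K V : ℕ} (hc : Consts M K V) : ∀ k l : ℕ, ∀ p q : σ, ∀ X Y : List ℕ,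
    Fintype.card σ + 1 ≤ l + k → Env M l p q X Y → 2 ∉ X → ∀ w, InL w → ∀ s₀ o₀ p₁ z₁ z₂, InL s₀ →
    Reach M p s₀ o₀ p₁ → Reach M p₁ w (z₁ ++ 2 :: z₂) q → 2 ∉ o₀ → 2 ∉ z₁ → Sep V (o₀ ++ z₁) →
    (o₀ ++ z₁).length ≤ (k + 1) * (8 * K + 4 * (4 * V + 4)) := by
  intro k
  induction k using Nat.strong_induction_on with
  | _ k ihk =>
  intro l p q X Y hkl hE hX w hw
  have hK := hc.hK
  have hV := hc.hV
  have hE1 : 8 * K + 4 * (4 * V + 4) ≤ (k + 1) * (8 * K + 4 * (4 * V + 4)) := by nlinarith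
  induction hw with
  | nil =>
    intro s₀ o₀ p₁ z₁ z₂ hs₀ hr₀ hr ho₀ hz₁ hsep
    obtain ⟨r, u₁, u₂, hu, hr₁, hr₂⟩ := hr.split_wr
    obtain ⟨rfl, rfl⟩ := append_eq_nil_iff.mp hu.symm
    have b1 : o₀.length ≤ K := bnd hE hc.hL (α := []) (A := []) (Reach.refl p) hs₀ hr₀
      (hr₁.comp hr₂) hX (by simp) ho₀ (by
        intro u' hu'
        left
        simpa using hu')
    have b2 : z₁.length ≤ K := bnd hE hc.h0 hr₀ rfl hr₁ hr₂ hX ho₀ hz₁ (by
        rintro _ rfl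
        left
        simpa using hs₀)
    rw [length_append]
    omega
  | node n i hs hs' ih1 ih' =>
    rename_i s s'
    intro s₀ o₀ p₁ z₁ z₂ hs₀ hr₀ hr ho₀ hz₁ hsep
    have hword : ∀ n i : ℕ, ∀ s s' : List ℕ, opn n i ++ (s ++ (cls n i ++ s')) =
      [0] ++ (replicate n 4 ++ (replicate i 3 ++ ([1] ++ (s ++ ([2] ++ (replicate i 3 ++
        (replicate n 4 ++ s'))))))) := by intro n i s s'; simp [opn, cls]
    -- all node words are accepted
    have hN : ∀ n i : ℕ, ∀ s₀ s s' : List ℕ, InL s₀ → InL s → InL s' →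
        InL (s₀ ++ ([0] ++ (replicate n 4 ++ (replicate i 3 ++ ([1] ++ (s ++ ([2] ++
          (replicate i 3 ++ (replicate n 4 ++ s'))))))))) := by
      intro n i s₀ s s' h0 h1 h2
      rw [← hword]
      exact h0.append (InL.node n i h1 h2)
    rw [hword] at hr
    obtain ⟨r₂, oa, _, e1, ra, hr⟩ := hr.split_rd
    obtain ⟨r₃, od, _, rfl, rd, hr⟩ := hr.split_rd
    obtain ⟨r₄, oc, _, rfl, rc, hr⟩ := hr.split_rd
    obtain ⟨r₅, ox, _, rfl, rx, hr⟩ := hr.split_rd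
    obtain ⟨r₆, os, _, rfl, rs, hr⟩ := hr.split_rd
    obtain ⟨r₇, oy, _, rfl, ry, hr⟩ := hr.split_rd
    obtain ⟨r₈, oc', _, rfl, rc', hr⟩ := hr.split_rd
    obtain ⟨r₉, od', os', rfl, rd', rs'⟩ := hr.split_rd
    have b0 : o₀.length ≤ K := bnd hE hc.hL (α := []) (A := []) (Reach.refl p) hs₀ hr₀
      (ra.comp (rd.comp (rc.comp (rx.comp (rs.comp (ry.comp (rc'.comp (rd'.comp rs'))))))))
      hX (by simp) ho₀ (by
        intro u' hu'
        left
        exact hN n i u' s s' hu' hs hs')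
    have hA0 := hN n i s₀ s s' hs₀ hs hs'
    -- piece `a`
    rcases loc e1 with ⟨c, rfl, rfl⟩ | ⟨z₁, rfl, e2⟩
    · have b1 := bnd_letter_part hE (hc.h1 0 (by omega)) hc.h0 hr₀ ra
        (rd.comp (rc.comp (rx.comp (rs.comp (ry.comp (rc'.comp (rd'.comp rs'))))))) hX ho₀ hz₁
        (Or.inl hA0)
      rw [length_append]; omega
    simp only [mem_append, not_or] at hz₁
    obtain ⟨ha, hz₁⟩ := hz₁
    have ba := bnd_letter hE (hc.h1 0 (by omega)) hr₀ ra
        (rd.comp (rc.comp (rx.comp (rs.comp (ry.comp (rc'.comp (rd'.comp rs'))))))) hX ho₀ ha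
        (Or.inl hA0)
    have r02 := hr₀.comp ra
    have ho2 : 2 ∉ o₀ ++ oa := by simp [ho₀, ha]
    -- piece `dⁿ`
    have hd0 : ∃ α A β T, Reach M p α A r₂ ∧ Reach M r₃ β T q ∧ 2 ∉ A ∧
        Acc l (α ++ (replicate n 4 ++ β)) :=
      ⟨_, _, _, _, r02, rc.comp (rx.comp (rs.comp (ry.comp (rc'.comp (rd'.comp rs'))))), ho2,
        Or.inl (by simpa using hA0)⟩
    have hdP : Fintype.card σ ≤ n → ∃ P, 1 ≤ P ∧ ∀ k, ∃ α A β T, Reach M p α A r₂ ∧
        Reach M r₃ β T q ∧ 2 ∉ A ∧ Acc l (α ++ (replicate (n + k * P) 4 ++ β)) := by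
      intro hn
      obtain ⟨P, hP, hpump⟩ := pump hn rd'
      refine ⟨P, hP, fun k => ?_⟩
      obtain ⟨y', hy', -⟩ := hpump k
      refine ⟨_, _, _, _, r02, rc.comp (rx.comp (rs.comp (ry.comp (rc'.comp (hy'.comp rs'))))), ho2,
        Or.inl ?_⟩
      have := hN (n + k * P) i s₀ s s' hs₀ hs hs'
      simpa using this
    rcases loc e2 with ⟨c, rfl, rfl⟩ | ⟨z₁, rfl, e3⟩
    · have b1 := bnd_run_part hE hK hV (hc.h1 4 (by omega)) hc.h0 rd hX hz₁
        (hsep.factor (a := o₀ ++ oa) (c := []) (by simp)) hd0 hdP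
      simp only [length_append]; omega
    simp only [mem_append, not_or] at hz₁
    obtain ⟨hd, hz₁⟩ := hz₁
    have bd := bnd_run hE hK hV (hc.h1 4 (by omega)) hc.h0 rd hX hd
        (hsep.factor (a := o₀ ++ oa) (c := z₁) (by simp)) hd0 hdP
    have r03 := r02.comp rd
    have ho3 : 2 ∉ (o₀ ++ oa) ++ od := by simp [ho₀, ha, hd]
    -- piece `cⁱ`
    have hc0 : ∃ α A β T, Reach M p α A r₃ ∧ Reach M r₄ β T q ∧ 2 ∉ A ∧
        Acc l (α ++ (replicate i 3 ++ β)) :=
      ⟨_, _, _, _, r03, rx.comp (rs.comp (ry.comp (rc'.comp (rd'.comp rs')))), ho3,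
        Or.inl (by simpa using hA0)⟩
    have hcP : Fintype.card σ ≤ i → ∃ P, 1 ≤ P ∧ ∀ k, ∃ α A β T, Reach M p α A r₃ ∧
        Reach M r₄ β T q ∧ 2 ∉ A ∧ Acc l (α ++ (replicate (i + k * P) 3 ++ β)) := by
      intro hn
      obtain ⟨P, hP, hpump⟩ := pump hn rc'
      refine ⟨P, hP, fun k => ?_⟩
      obtain ⟨y', hy', -⟩ := hpump k
      refine ⟨_, _, _, _, r03, rx.comp (rs.comp (ry.comp (hy'.comp (rd'.comp rs')))), ho3,
        Or.inl ?_⟩
      have := hN n (i + k * P) s₀ s s' hs₀ hs hs'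
      simpa using this
    rcases loc e3 with ⟨c, rfl, rfl⟩ | ⟨z₁, rfl, e4⟩
    · have b1 := bnd_run_part hE hK hV (hc.h1 3 (by omega)) hc.h0 rc hX hz₁
        (hsep.factor (a := o₀ ++ (oa ++ od)) (c := []) (by simp)) hc0 hcP
      simp only [length_append]; omega
    simp only [mem_append, not_or] at hz₁
    obtain ⟨hcc, hz₁⟩ := hz₁
    have bc := bnd_run hE hK hV (hc.h1 3 (by omega)) hc.h0 rc hX hcc
        (hsep.factor (a := o₀ ++ (oa ++ od)) (c := z₁) (by simp)) hc0 hcP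
    have r04 := r03.comp rc
    have ho4 : 2 ∉ ((o₀ ++ oa) ++ od) ++ oc := by simp [ho₀, ha, hd, hcc]
    -- piece `x`
    rcases loc e4 with ⟨c, rfl, rfl⟩ | ⟨z₁, rfl, e5⟩
    · have b1 := bnd_letter_part hE (hc.h1 1 (by omega)) hc.h0 r04 rx
        (rs.comp (ry.comp (rc'.comp (rd'.comp rs')))) hX ho4 hz₁
        (Or.inl (by simpa using hA0))
      simp only [length_append]; omega
    simp only [mem_append, not_or] at hz₁
    obtain ⟨hx, hz₁⟩ := hz₁
    have bx := bnd_letter hE (hc.h1 1 (by omega)) r04 rx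
        (rs.comp (ry.comp (rc'.comp (rd'.comp rs')))) hX ho4 hx
        (Or.inl (by simpa using hA0))
    have r05 := r04.comp rx
    have ho5 : 2 ∉ (((o₀ ++ oa) ++ od) ++ oc) ++ ox := by simp [ho₀, ha, hd, hcc, hx]
    -- piece `s`
    rcases loc e5 with ⟨c, rfl, rfl⟩ | ⟨z₁, rfl, e6⟩
    · by_cases hG : ∃ i' o', i' < l ∧ Reach M r₃ (replicate i' 3) o' r₄ ∧ 2 ∉ o'
      · -- garbage
        obtain ⟨i', o', hi', ro', h2o'⟩ := hG
        obtain ⟨r, u₁, u₂, rfl, hr₁, hr₂⟩ := rs.split_wr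
        have b1 : z₁.length ≤ K := bnd hE hc.hS ((r03.comp ro').comp rx)
          (fun t ht => hs.lt t (mem_append_left _ ht)) hr₁
          (hr₂.comp (ry.comp (rc'.comp (rd'.comp rs')))) hX (by simp [ho₀, ha, hd, h2o', hx]) hz₁
          (by
            intro u' hu'
            right
            refine ⟨i', hi', s₀, n, u' ++ (u₂ ++ (cls n i ++ s')), hs₀, ?_, ?_⟩
            · intro t ht
              simp only [mem_append] at ht
              rcases ht with h | h | h | h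
              · exact hu' t h
              · exact hs.lt t (mem_append_right _ h)
              · exact cls_lt t h
              · exact hs'.lt t h
            · simp [opn, cls])
        simp only [length_append]; omega
      · -- recursion
        have hil : l ≤ i := by
          by_contra hlt
          exact hG ⟨i, oc, by omega, rc, hcc⟩
        have hlc : l ≤ Fintype.card σ := by
          by_contra hlt
          obtain ⟨n', y', hn', hr', h2'⟩ := shorten rc
          exact hG ⟨n', y', by omega, hr', h2' hcc⟩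
        have hrec := ihk (k - 1) (by omega) (i + 1) r₅ r₆
          (X ++ ((((o₀ ++ oa) ++ od) ++ oc) ++ ox)) ((oy ++ (oc' ++ (od' ++ os'))) ++ Y)
          (by omega) (by
            intro w hw z hz
            have k1 := hE (((((s₀ ++ [0]) ++ replicate n 4) ++ replicate i 3) ++ [1]) ++
              (w ++ ([2] ++ (replicate i 3 ++ (replicate n 4 ++ s'))))) (by
                left
                rcases hw with hw | ⟨j, hj, s₁, m, V₁, hs₁, hV₁, rfl⟩
                · have := hN n i s₀ w s' hs₀ hw hs'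
                  simpa using this
                · have := InL.garb n i m j (V := V₁ ++ (cls n i ++ s')) hs₁ (by omega) (by
                    intro t ht
                    simp only [mem_append] at ht
                    rcases ht with h | h | h
                    · exact hV₁ t h
                    · exact cls_lt t h
                    · exact hs'.lt t h)
                  have := hs₀.append this
                  simpa [opn, cls] using this) _
              (r05.comp (hz.comp (ry.comp (rc'.comp (rd'.comp rs')))))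
            simpa using k1)
          (by simp [hX, ho₀, ha, hd, hcc, hx]) s hs [] [] r₅ z₁ c InL.nil (Reach.refl _) rs
          (by simp) hz₁ (hsep.factor (a := o₀ ++ (oa ++ (od ++ (oc ++ ox)))) (c := []) (by simp))
        rw [nil_append] at hrec
        have e7 : (k - 1 + 1) * (8 * K + 4 * (4 * V + 4)) + (8 * K + 4 * (4 * V + 4)) ≤
            (k + 1) * (8 * K + 4 * (4 * V + 4)) := by
          have : k - 1 + 1 = k := by omega
          rw [this]; nlinarith
        simp only [length_append]; omega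
    simp only [mem_append, not_or] at hz₁
    obtain ⟨hos, hz₁⟩ := hz₁
    have bs : os.length ≤ K := bnd hE hc.hL r05 hs rs
        (ry.comp (rc'.comp (rd'.comp rs'))) hX ho5 hos (by
          intro u' hu'
          left
          simpa using hN n i s₀ u' s' hs₀ hu' hs')
    have r06 := r05.comp rs
    have ho6 : 2 ∉ ((((o₀ ++ oa) ++ od) ++ oc) ++ ox) ++ os := by
      simp [ho₀, ha, hd, hcc, hx, hos]
    -- piece `y`
    rcases loc e6 with ⟨c, rfl, rfl⟩ | ⟨z₁, rfl, e7⟩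
    · have b1 := bnd_letter_part hE (hc.h1 2 (by omega)) hc.h0 r06 ry
        (rc'.comp (rd'.comp rs')) hX ho6 hz₁
        (Or.inl (by simpa using hA0))
      simp only [length_append]; omega
    simp only [mem_append, not_or] at hz₁
    obtain ⟨hy, hz₁⟩ := hz₁
    have bY := bnd_letter hE (hc.h1 2 (by omega)) r06 ry
        (rc'.comp (rd'.comp rs')) hX ho6 hy
        (Or.inl (by simpa using hA0))
    have r07 := r06.comp ry
    have ho7 : 2 ∉ (((((o₀ ++ oa) ++ od) ++ oc) ++ ox) ++ os) ++ oy := by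
      simp [ho₀, ha, hd, hcc, hx, hos, hy]
    -- piece `cⁱ`
    have hc0' : ∃ α A β T, Reach M p α A r₇ ∧ Reach M r₈ β T q ∧ 2 ∉ A ∧
        Acc l (α ++ (replicate i 3 ++ β)) :=
      ⟨_, _, _, _, r07, rd'.comp rs', ho7, Or.inl (by simpa using hA0)⟩
    have hcP' : Fintype.card σ ≤ i → ∃ P, 1 ≤ P ∧ ∀ k, ∃ α A β T, Reach M p α A r₇ ∧
        Reach M r₈ β T q ∧ 2 ∉ A ∧ Acc l (α ++ (replicate (i + k * P) 3 ++ β)) := by
      intro hn
      obtain ⟨P, hP, hpump⟩ := pump hn rc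
      refine ⟨P, hP, fun k => ?_⟩
      obtain ⟨y', hy', h2y'⟩ := hpump k
      refine ⟨_, _, _, _, r03.comp (hy'.comp (rx.comp (rs.comp ry))), rd'.comp rs', ?_,
        Or.inl ?_⟩
      · simp [ho₀, ha, hd, h2y' hcc, hx, hos, hy]
      · have := hN n (i + k * P) s₀ s s' hs₀ hs hs'
        simpa using this
    rcases loc e7 with ⟨c, rfl, rfl⟩ | ⟨z₁, rfl, e8⟩
    · have b1 := bnd_run_part hE hK hV (hc.h1 3 (by omega)) hc.h0 rc' hX hz₁
        (hsep.factor (a := o₀ ++ (oa ++ (od ++ (oc ++ (ox ++ (os ++ oy)))))) (c := []) (by simp))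
        hc0' hcP'
      simp only [length_append]; omega
    simp only [mem_append, not_or] at hz₁
    obtain ⟨hcc', hz₁⟩ := hz₁
    have bc' := bnd_run hE hK hV (hc.h1 3 (by omega)) hc.h0 rc' hX hcc'
        (hsep.factor (a := o₀ ++ (oa ++ (od ++ (oc ++ (ox ++ (os ++ oy)))))) (c := z₁) (by simp))
        hc0' hcP'
    have r08 := r07.comp rc'
    have ho8 : 2 ∉ ((((((o₀ ++ oa) ++ od) ++ oc) ++ ox) ++ os) ++ oy) ++ oc' := by
      simp [ho₀, ha, hd, hcc, hx, hos, hy, hcc']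
    -- piece `dⁿ`
    have hd0' : ∃ α A β T, Reach M p α A r₈ ∧ Reach M r₉ β T q ∧ 2 ∉ A ∧
        Acc l (α ++ (replicate n 4 ++ β)) :=
      ⟨_, _, _, _, r08, rs', ho8, Or.inl (by simpa using hA0)⟩
    have hdP' : Fintype.card σ ≤ n → ∃ P, 1 ≤ P ∧ ∀ k, ∃ α A β T, Reach M p α A r₈ ∧
        Reach M r₉ β T q ∧ 2 ∉ A ∧ Acc l (α ++ (replicate (n + k * P) 4 ++ β)) := by
      intro hn
      obtain ⟨P, hP, hpump⟩ := pump hn rd
      refine ⟨P, hP, fun k => ?_⟩
      obtain ⟨y', hy', h2y'⟩ := hpump k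
      refine ⟨_, _, _, _, r02.comp (hy'.comp (rc.comp (rx.comp (rs.comp (ry.comp rc'))))), rs', ?_,
        Or.inl ?_⟩
      · simp [ho₀, ha, h2y' hd, hcc, hx, hos, hy, hcc']
      · have := hN (n + k * P) i s₀ s s' hs₀ hs hs'
        simpa using this
    rcases loc e8 with ⟨c, rfl, rfl⟩ | ⟨z₁, rfl, e9⟩
    · have b1 := bnd_run_part hE hK hV (hc.h1 4 (by omega)) hc.h0 rd' hX hz₁
        (hsep.factor (a := o₀ ++ (oa ++ (od ++ (oc ++ (ox ++ (os ++ (oy ++ oc'))))))) (c := [])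
          (by simp)) hd0' hdP'
      simp only [length_append]; omega
    simp only [mem_append, not_or] at hz₁
    obtain ⟨hd', hz₁⟩ := hz₁
    -- the marker is in the last piece
    have hnew : InL (s₀ ++ (opn n i ++ (s ++ (cls n i ++ [])))) :=
      hs₀.append (InL.node n i hs InL.nil)
    have key := ih' (s₀ ++ (opn n i ++ (s ++ (cls n i ++ []))))
      ((((((((o₀ ++ oa) ++ od) ++ oc) ++ ox) ++ os) ++ oy) ++ oc') ++ od') r₉ z₁ z₂ hnew
      (by
        have := r08.comp rd'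
        simpa [opn, cls] using this)
      (by rw [e9]; exact rs') (by simp [ho₀, ha, hd, hcc, hx, hos, hy, hcc', hd']) hz₁
      (by simpa using hsep)
    simpa using key
  | garb n i m j hs hj hVl ih1 =>
    rename_i s W
    intro s₀ o₀ p₁ z₁ z₂ hs₀ hr₀ hr ho₀ hz₁ hsep
    have hword : ∀ n i m j : ℕ, ∀ s W : List ℕ, opn n i ++ (s ++ (opn m j ++ W)) =
      [0] ++ (replicate n 4 ++ (replicate i 3 ++ ([1] ++ (s ++ ([0] ++ (replicate m 4 ++
        (replicate j 3 ++ ([1] ++ W)))))))) := by intro n i m j s W; simp [opn]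
    -- all words of this form are accepted
    have hN : ∀ n i m j : ℕ, ∀ s₀ s W : List ℕ, InL s₀ → InL s → j ≤ i → (∀ t ∈ W, t < 5) →
        InL (s₀ ++ ([0] ++ (replicate n 4 ++ (replicate i 3 ++ ([1] ++ (s ++ ([0] ++
          (replicate m 4 ++ (replicate j 3 ++ ([1] ++ W)))))))))) := by
      intro n i m j s₀ s W h0 h1 h2 h3
      rw [← hword]
      exact h0.append (InL.garb n i m j h1 h2 h3)
    rw [hword] at hr
    obtain ⟨r₂, oa, _, e1, ra, hr⟩ := hr.split_rd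
    obtain ⟨r₃, od, _, rfl, rd, hr⟩ := hr.split_rd
    obtain ⟨r₄, oc, _, rfl, rc, hr⟩ := hr.split_rd
    obtain ⟨r₅, ox, _, rfl, rx, hr⟩ := hr.split_rd
    obtain ⟨r₆, os, _, rfl, rs, hr⟩ := hr.split_rd
    obtain ⟨r₇, oa', _, rfl, ra', hr⟩ := hr.split_rd
    obtain ⟨r₈, od', _, rfl, rd', hr⟩ := hr.split_rd
    obtain ⟨r₉, oc', _, rfl, rc', hr⟩ := hr.split_rd
    obtain ⟨r₁₀, ox', oW, rfl, rx', rW⟩ := hr.split_rd
    have b0 : o₀.length ≤ K := bnd hE hc.hL (α := []) (A := []) (Reach.refl p) hs₀ hr₀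
      (ra.comp (rd.comp (rc.comp (rx.comp (rs.comp (ra'.comp (rd'.comp (rc'.comp
        (rx'.comp rW))))))))) hX (by simp) ho₀ (by
        intro u' hu'
        left
        exact hN n i m j u' s W hu' hs hj hVl)
    have hA0 := hN n i m j s₀ s W hs₀ hs hj hVl
    -- piece `a`
    rcases loc e1 with ⟨c, rfl, rfl⟩ | ⟨z₁, rfl, e2⟩
    · have b1 := bnd_letter_part hE (hc.h1 0 (by omega)) hc.h0 hr₀ ra
        (rd.comp (rc.comp (rx.comp (rs.comp (ra'.comp (rd'.comp (rc'.comp (rx'.comp rW)))))))) hX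
        ho₀ hz₁ (Or.inl hA0)
      rw [length_append]; omega
    simp only [mem_append, not_or] at hz₁
    obtain ⟨ha, hz₁⟩ := hz₁
    have ba := bnd_letter hE (hc.h1 0 (by omega)) hr₀ ra
        (rd.comp (rc.comp (rx.comp (rs.comp (ra'.comp (rd'.comp (rc'.comp (rx'.comp rW)))))))) hX
        ho₀ ha (Or.inl hA0)
    have r02 := hr₀.comp ra
    have ho2 : 2 ∉ o₀ ++ oa := by simp [ho₀, ha]
    -- piece `dⁿ`
    have hd0 : ∃ α A β T, Reach M p α A r₂ ∧ Reach M r₃ β T q ∧ 2 ∉ A ∧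
        Acc l (α ++ (replicate n 4 ++ β)) :=
      ⟨_, _, _, _, r02, rc.comp (rx.comp (rs.comp (ra'.comp (rd'.comp (rc'.comp (rx'.comp rW)))))),
        ho2, Or.inl (by simpa using hA0)⟩
    have hdP : Fintype.card σ ≤ n → ∃ P, 1 ≤ P ∧ ∀ k, ∃ α A β T, Reach M p α A r₂ ∧
        Reach M r₃ β T q ∧ 2 ∉ A ∧ Acc l (α ++ (replicate (n + k * P) 4 ++ β)) := by
      intro _
      refine ⟨1, le_refl _, fun k => ⟨_, _, _, _, r02,
        rc.comp (rx.comp (rs.comp (ra'.comp (rd'.comp (rc'.comp (rx'.comp rW)))))), ho2,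
        Or.inl ?_⟩⟩
      have := hN (n + k * 1) i m j s₀ s W hs₀ hs hj hVl
      simpa using this
    rcases loc e2 with ⟨c, rfl, rfl⟩ | ⟨z₁, rfl, e3⟩
    · have b1 := bnd_run_part hE hK hV (hc.h1 4 (by omega)) hc.h0 rd hX hz₁
        (hsep.factor (a := o₀ ++ oa) (c := []) (by simp)) hd0 hdP
      simp only [length_append]; omega
    simp only [mem_append, not_or] at hz₁
    obtain ⟨hd, hz₁⟩ := hz₁
    have bd := bnd_run hE hK hV (hc.h1 4 (by omega)) hc.h0 rd hX hd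
        (hsep.factor (a := o₀ ++ oa) (c := z₁) (by simp)) hd0 hdP
    have r03 := r02.comp rd
    have ho3 : 2 ∉ (o₀ ++ oa) ++ od := by simp [ho₀, ha, hd]
    -- piece `cⁱ`
    have hc0 : ∃ α A β T, Reach M p α A r₃ ∧ Reach M r₄ β T q ∧ 2 ∉ A ∧
        Acc l (α ++ (replicate i 3 ++ β)) :=
      ⟨_, _, _, _, r03, rx.comp (rs.comp (ra'.comp (rd'.comp (rc'.comp (rx'.comp rW))))), ho3,
        Or.inl (by simpa using hA0)⟩
    have hcP : Fintype.card σ ≤ i → ∃ P, 1 ≤ P ∧ ∀ k, ∃ α A β T, Reach M p α A r₃ ∧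
        Reach M r₄ β T q ∧ 2 ∉ A ∧ Acc l (α ++ (replicate (i + k * P) 3 ++ β)) := by
      intro _
      refine ⟨1, le_refl _, fun k => ⟨_, _, _, _, r03,
        rx.comp (rs.comp (ra'.comp (rd'.comp (rc'.comp (rx'.comp rW))))), ho3,
        Or.inl ?_⟩⟩
      have := hN n (i + k * 1) m j s₀ s W hs₀ hs (by omega) hVl
      simpa using this
    rcases loc e3 with ⟨c, rfl, rfl⟩ | ⟨z₁, rfl, e4⟩
    · have b1 := bnd_run_part hE hK hV (hc.h1 3 (by omega)) hc.h0 rc hX hz₁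
        (hsep.factor (a := o₀ ++ (oa ++ od)) (c := []) (by simp)) hc0 hcP
      simp only [length_append]; omega
    simp only [mem_append, not_or] at hz₁
    obtain ⟨hcc, hz₁⟩ := hz₁
    have bc := bnd_run hE hK hV (hc.h1 3 (by omega)) hc.h0 rc hX hcc
        (hsep.factor (a := o₀ ++ (oa ++ od)) (c := z₁) (by simp)) hc0 hcP
    have r04 := r03.comp rc
    have ho4 : 2 ∉ ((o₀ ++ oa) ++ od) ++ oc := by simp [ho₀, ha, hd, hcc]
    -- piece `x`
    rcases loc e4 with ⟨c, rfl, rfl⟩ | ⟨z₁, rfl, e5⟩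
    · have b1 := bnd_letter_part hE (hc.h1 1 (by omega)) hc.h0 r04 rx
        (rs.comp (ra'.comp (rd'.comp (rc'.comp (rx'.comp rW))))) hX ho4 hz₁
        (Or.inl (by simpa using hA0))
      simp only [length_append]; omega
    simp only [mem_append, not_or] at hz₁
    obtain ⟨hx, hz₁⟩ := hz₁
    have bx := bnd_letter hE (hc.h1 1 (by omega)) r04 rx
        (rs.comp (ra'.comp (rd'.comp (rc'.comp (rx'.comp rW))))) hX ho4 hx
        (Or.inl (by simpa using hA0))
    have r05 := r04.comp rx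
    have ho5 : 2 ∉ (((o₀ ++ oa) ++ od) ++ oc) ++ ox := by simp [ho₀, ha, hd, hcc, hx]
    -- piece `s`
    rcases loc e5 with ⟨c, rfl, rfl⟩ | ⟨z₁, rfl, e6⟩
    · by_cases hG : ∃ i' o', i' < l ∧ Reach M r₃ (replicate i' 3) o' r₄ ∧ 2 ∉ o'
      · -- garbage
        obtain ⟨i', o', hi', ro', h2o'⟩ := hG
        obtain ⟨r, u₁, u₂, rfl, hr₁, hr₂⟩ := rs.split_wr
        have b1 : z₁.length ≤ K := bnd hE hc.hS ((r03.comp ro').comp rx)
          (fun t ht => hs.lt t (mem_append_left _ ht)) hr₁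
          (hr₂.comp (ra'.comp (rd'.comp (rc'.comp (rx'.comp rW))))) hX
          (by simp [ho₀, ha, hd, h2o', hx]) hz₁
          (by
            intro u' hu'
            right
            refine ⟨i', hi', s₀, n, u' ++ (u₂ ++ (opn m j ++ W)), hs₀, ?_, ?_⟩
            · intro t ht
              simp only [mem_append] at ht
              rcases ht with h | h | h | h
              · exact hu' t h
              · exact hs.lt t (mem_append_right _ h)
              · exact opn_lt t h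
              · exact hVl t h
            · simp [opn])
        simp only [length_append]; omega
      · -- recursion
        have hil : l ≤ i := by
          by_contra hlt
          exact hG ⟨i, oc, by omega, rc, hcc⟩
        have hlc : l ≤ Fintype.card σ := by
          by_contra hlt
          obtain ⟨n', y', hn', hr', h2'⟩ := shorten rc
          exact hG ⟨n', y', by omega, hr', h2' hcc⟩
        have hrec := ihk (k - 1) (by omega) (i + 1) r₅ r₆
          (X ++ ((((o₀ ++ oa) ++ od) ++ oc) ++ ox)) ((oa' ++ (od' ++ (oc' ++ (ox' ++ oW)))) ++ Y)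
          (by omega) (by
            intro w hw z hz
            have k1 := hE (((((s₀ ++ [0]) ++ replicate n 4) ++ replicate i 3) ++ [1]) ++
              (w ++ ([0] ++ (replicate m 4 ++ (replicate j 3 ++ ([1] ++ W)))))) (by
                left
                rcases hw with hw | ⟨j', hj', s₁, m', V₁, hs₁, hV₁, rfl⟩
                · have := hN n i m j s₀ w W hs₀ hw hj hVl
                  simpa using this
                · have := InL.garb n i m' j' (V := V₁ ++ (opn m j ++ W)) hs₁ (by omega) (by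
                    intro t ht
                    simp only [mem_append] at ht
                    rcases ht with h | h | h
                    · exact hV₁ t h
                    · exact opn_lt t h
                    · exact hVl t h)
                  have := hs₀.append this
                  simpa [opn] using this) _
              (r05.comp (hz.comp (ra'.comp (rd'.comp (rc'.comp (rx'.comp rW))))))
            simpa using k1)
          (by simp [hX, ho₀, ha, hd, hcc, hx]) s hs [] [] r₅ z₁ c InL.nil (Reach.refl _) rs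
          (by simp) hz₁ (hsep.factor (a := o₀ ++ (oa ++ (od ++ (oc ++ ox)))) (c := []) (by simp))
        rw [nil_append] at hrec
        have e7 : (k - 1 + 1) * (8 * K + 4 * (4 * V + 4)) + (8 * K + 4 * (4 * V + 4)) ≤
            (k + 1) * (8 * K + 4 * (4 * V + 4)) := by
          have : k - 1 + 1 = k := by omega
          rw [this]; nlinarith
        simp only [length_append]; omega
    simp only [mem_append, not_or] at hz₁
    obtain ⟨hos, hz₁⟩ := hz₁
    have bs : os.length ≤ K := bnd hE hc.hL r05 hs rs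
        (ra'.comp (rd'.comp (rc'.comp (rx'.comp rW)))) hX ho5 hos (by
          intro u' hu'
          left
          simpa using hN n i m j s₀ u' W hs₀ hu' hj hVl)
    have r06 := r05.comp rs
    have ho6 : 2 ∉ ((((o₀ ++ oa) ++ od) ++ oc) ++ ox) ++ os := by
      simp [ho₀, ha, hd, hcc, hx, hos]
    -- piece `a`
    rcases loc e6 with ⟨c, rfl, rfl⟩ | ⟨z₁, rfl, e7⟩
    · have b1 := bnd_letter_part hE (hc.h1 0 (by omega)) hc.h0 r06 ra'
        (rd'.comp (rc'.comp (rx'.comp rW))) hX ho6 hz₁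
        (Or.inl (by simpa using hA0))
      simp only [length_append]; omega
    simp only [mem_append, not_or] at hz₁
    obtain ⟨ha', hz₁⟩ := hz₁
    have ba' := bnd_letter hE (hc.h1 0 (by omega)) r06 ra'
        (rd'.comp (rc'.comp (rx'.comp rW))) hX ho6 ha'
        (Or.inl (by simpa using hA0))
    have r07 := r06.comp ra'
    have ho7 : 2 ∉ (((((o₀ ++ oa) ++ od) ++ oc) ++ ox) ++ os) ++ oa' := by
      simp [ho₀, ha, hd, hcc, hx, hos, ha']
    -- piece `dᵐ`
    have hd0' : ∃ α A β T, Reach M p α A r₇ ∧ Reach M r₈ β T q ∧ 2 ∉ A ∧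
        Acc l (α ++ (replicate m 4 ++ β)) :=
      ⟨_, _, _, _, r07, rc'.comp (rx'.comp rW), ho7, Or.inl (by simpa using hA0)⟩
    have hdP' : Fintype.card σ ≤ m → ∃ P, 1 ≤ P ∧ ∀ k, ∃ α A β T, Reach M p α A r₇ ∧
        Reach M r₈ β T q ∧ 2 ∉ A ∧ Acc l (α ++ (replicate (m + k * P) 4 ++ β)) := by
      intro _
      refine ⟨1, le_refl _, fun k => ⟨_, _, _, _, r07, rc'.comp (rx'.comp rW), ho7, Or.inl ?_⟩⟩
      have := hN n i (m + k * 1) j s₀ s W hs₀ hs hj hVl
      simpa using this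
    rcases loc e7 with ⟨c, rfl, rfl⟩ | ⟨z₁, rfl, e8⟩
    · have b1 := bnd_run_part hE hK hV (hc.h1 4 (by omega)) hc.h0 rd' hX hz₁
        (hsep.factor (a := o₀ ++ (oa ++ (od ++ (oc ++ (ox ++ (os ++ oa')))))) (c := []) (by simp))
        hd0' hdP'
      simp only [length_append]; omega
    simp only [mem_append, not_or] at hz₁
    obtain ⟨hd', hz₁⟩ := hz₁
    have bd' := bnd_run hE hK hV (hc.h1 4 (by omega)) hc.h0 rd' hX hd'
        (hsep.factor (a := o₀ ++ (oa ++ (od ++ (oc ++ (ox ++ (os ++ oa')))))) (c := z₁) (by simp))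
        hd0' hdP'
    have r08 := r07.comp rd'
    have ho8 : 2 ∉ ((((((o₀ ++ oa) ++ od) ++ oc) ++ ox) ++ os) ++ oa') ++ od' := by
      simp [ho₀, ha, hd, hcc, hx, hos, ha', hd']
    -- piece `cʲ`
    have hc0' : ∃ α A β T, Reach M p α A r₈ ∧ Reach M r₉ β T q ∧ 2 ∉ A ∧
        Acc l (α ++ (replicate j 3 ++ β)) :=
      ⟨_, _, _, _, r08, rx'.comp rW, ho8, Or.inl (by simpa using hA0)⟩
    have hcP' : Fintype.card σ ≤ j → ∃ P, 1 ≤ P ∧ ∀ k, ∃ α A β T, Reach M p α A r₈ ∧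
        Reach M r₉ β T q ∧ 2 ∉ A ∧ Acc l (α ++ (replicate (j + k * P) 3 ++ β)) := by
      intro hn
      obtain ⟨P, hP, hpump⟩ := pump (hn.trans hj) rc
      refine ⟨P, hP, fun k => ?_⟩
      obtain ⟨y', hy', h2y'⟩ := hpump k
      refine ⟨_, _, _, _, r03.comp (hy'.comp (rx.comp (rs.comp (ra'.comp rd')))), rx'.comp rW, ?_,
        Or.inl ?_⟩
      · simp [ho₀, ha, hd, h2y' hcc, hx, hos, ha', hd']
      · have := hN n (i + k * P) m (j + k * P) s₀ s W hs₀ hs (by omega) hVl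
        simpa using this
    rcases loc e8 with ⟨c, rfl, rfl⟩ | ⟨z₁, rfl, e9⟩
    · have b1 := bnd_run_part hE hK hV (hc.h1 3 (by omega)) hc.h0 rc' hX hz₁
        (hsep.factor (a := o₀ ++ (oa ++ (od ++ (oc ++ (ox ++ (os ++ (oa' ++ od'))))))) (c := [])
          (by simp)) hc0' hcP'
      simp only [length_append]; omega
    simp only [mem_append, not_or] at hz₁
    obtain ⟨hcc', hz₁⟩ := hz₁
    have bc' := bnd_run hE hK hV (hc.h1 3 (by omega)) hc.h0 rc' hX hcc'
        (hsep.factor (a := o₀ ++ (oa ++ (od ++ (oc ++ (ox ++ (os ++ (oa' ++ od'))))))) (c := z₁)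
          (by simp)) hc0' hcP'
    have r09 := r08.comp rc'
    have ho9 : 2 ∉ (((((((o₀ ++ oa) ++ od) ++ oc) ++ ox) ++ os) ++ oa') ++ od') ++ oc' := by
      simp [ho₀, ha, hd, hcc, hx, hos, ha', hd', hcc']
    -- piece `x`
    rcases loc e9 with ⟨c, rfl, rfl⟩ | ⟨z₁, rfl, e10⟩
    · have b1 := bnd_letter_part hE (hc.h1 1 (by omega)) hc.h0 r09 rx' rW hX ho9 hz₁
        (Or.inl (by simpa using hA0))
      simp only [length_append]; omega
    simp only [mem_append, not_or] at hz₁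
    obtain ⟨hx', hz₁⟩ := hz₁
    have bx' := bnd_letter hE (hc.h1 1 (by omega)) r09 rx' rW hX ho9 hx'
        (Or.inl (by simpa using hA0))
    have r10 := r09.comp rx'
    -- the marker is in the last piece
    rw [← e10] at rW
    obtain ⟨r, u₁, u₂, rfl, hr₁, hr₂⟩ := rW.split_wr
    have b1 : z₁.length ≤ K := bnd hE hc.hS r10
      (fun t ht => hVl t (mem_append_left _ ht)) hr₁ hr₂ hX
      (by simp [ho₀, ha, hd, hcc, hx, hos, ha', hd', hcc', hx']) hz₁
      (by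
        intro u' hu'
        left
        have := hN n i m j s₀ s (u' ++ u₂) hs₀ hs hj (by
          intro t ht
          rcases mem_append.mp ht with h | h
          · exact hu' t h
          · exact hVl t (mem_append_right _ h))
        simpa using this)
    simp only [length_append]; omega

end Pool.Agent.Lib.MP_ead56d_lc
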