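import Mathlib
import Pool.Agent.Lib.MP_ead56d_lc.NotMem

/-! The marked palindromes are not in the cone generated by `LL`. -/

namespace Pool.Agent.Lib.MP_ead56d_lc

open List

def per (V N : ℕ) : List ℕ := (range N).map fun i => if i % (V + 1) = 0 then 1 else 0

theorem per_length (V N : ℕ) : (per V N).length = N := by simp [per]

theorem per_mem (V N : ℕ) : ∀ a ∈ per V N, a = 0 ∨ a = 1 := by
  intro a ha
  simp only [per, mem_map, mem_range] at ha
  obtain ⟨i, _, rfl⟩ := ha
  split_ifs <;> simp

theorem per_get (V N j : ℕ) (hj : j < N) :
    (per V N)[j]? = some (if j % (V + 1) = 0 then 1 else 0) := by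
  simp [per, hj]

theorem per_sep (V N : ℕ) : Sep V (per V N) := by
  constructor
  · intro u w v h hw
    have hlen : N = u.length + (w.length + v.length) := by
      have := congrArg List.length h
      simpa [per_length] using this
    set j := (u.length + V) / (V + 1) * (V + 1) with hj
    have h1 : u.length ≤ j := by
      have := Nat.div_add_mod (u.length + V) (V + 1)
      have h2 := Nat.mod_lt (u.length + V) (show 0 < V + 1 by omega)
      rw [Nat.mul_comm] at this
      omega
    have h2 : j ≤ u.length + V := Nat.div_mul_le_self _ _
    have h3 := per_get V N j (by omega)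
    rw [if_pos (Nat.mul_mod_left _ _), h, getElem?_append_right h1,
      getElem?_append_left (by omega)] at h3
    exact mem_of_getElem? h3
  · intro u w v h
    have hlen : N = u.length + (1 + (w.length + (1 + v.length))) := by
      have := congrArg List.length h
      simp [per_length] at this
      omega
    have h1 := per_get V N u.length (by omega)
    have h2 := per_get V N (u.length + 1 + w.length) (by omega)
    rw [h, getElem?_append_right (le_refl _)] at h1
    rw [h, getElem?_append_right (by omega)] at h2
    have e1 : u.length % (V + 1) = 0 := by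
      by_contra hne
      rw [if_neg hne] at h1
      simp at h1
    have e2 : (u.length + 1 + w.length) % (V + 1) = 0 := by
      by_contra hne
      rw [if_neg hne] at h2
      have : u.length + 1 + w.length - u.length = w.length + 1 := by omega
      rw [this, getElem?_cons_succ, getElem?_append_right (le_refl _)] at h2
      simp at h2
    obtain ⟨c, hc⟩ := Nat.dvd_of_mod_eq_zero e1
    obtain ⟨d, hd⟩ := Nat.dvd_of_mod_eq_zero e2
    have h4 : 1 + w.length = (V + 1) * (d - c) := by
      rw [Nat.mul_sub, ← hd, ← hc]; omega
    have h5 : 1 ≤ d - c := by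
      by_contra h
      have : d - c = 0 := by omega
      rw [this] at h4; omega
    nlinarith

theorem not_image : ¬ IsRationalImage LL markedPalindromes := by
  intro h
  obtain ⟨R, ⟨σ, hσ, M, hM⟩, -, hK⟩ := h.normal
  obtain ⟨K, V, hc⟩ := exists_Consts M
  set N := (Fintype.card σ + 1 + 1) * (8 * K + 4 * (4 * V + 4)) + 1 with hN
  have hx : per V N ++ 2 :: (per V N).reverse ∈ markedPalindromes :=
    ⟨per V N, per_mem V N, by simp⟩
  have hx' := hx
  rw [hK] at hx'
  obtain ⟨z, hz, hr, hw⟩ := hx'
  have h2 : 2 ∉ per V N := by
    intro h2
    rcases per_mem V N 2 h2 with h3 | h3 <;> omega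
  have := main hc (Fintype.card σ + 1) 0 M.start (M.evalFrom M.start z) [] [] (by omega) (by
    intro w hw z' hz'
    obtain ⟨z'', h1, h2, h3⟩ := hz'
    rcases hw with hw | ⟨j, hj, _⟩
    · rw [nil_append, append_nil, hK]
      refine ⟨z'', ?_, ?_, h2⟩
      · rw [← hM]
        change M.evalFrom M.start z'' ∈ M.accept
        rw [h3]
        rw [← hM] at hz
        exact hz
      · rw [h1]; exact hw
    · omega) (by simp) (rd z) hr [] [] M.start (per V N) (per V N).reverse InL.nil (Reach.refl _)
    ⟨z, rfl, hw, rfl⟩ (by simp) h2 (per_sep V N)
  rw [nil_append, per_length] at this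
  omega

end Pool.Agent.Lib.MP_ead56d_lc
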